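import Pool.Agent.MP_34f9b1_co.Gen.Pk

namespace Pool.Agent.MP_34f9b1_co.Gen

/-- The part of the normal form used for packing; the slope may have either sign. -/
structure GP (K : Set (ℝ × ℝ)) (s : ℝ) : Prop where
  cvx : Convex ℝ K
  cpt : IsCompact K
  box : ∀ p ∈ K, -1 / 2 ≤ p.2 ∧ p.2 ≤ 1 / 2 ∧ p.1 + s * p.2 ≤ 1 / 2 ∧ -p.1 + s * p.2 ≤ 1 / 2
  rt : ((1 / 2, 0) : ℝ × ℝ) ∈ K
  lf : ((-1 / 2, 0) : ℝ × ℝ) ∈ K
  top : ∃ u : ℝ, (u, 1 / 2) ∈ K
  bot : ∃ v : ℝ, (v, -1 / 2) ∈ K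

/-- Preimage under a linear map. -/
def lin (a b c d : ℝ) (K : Set (ℝ × ℝ)) : Set (ℝ × ℝ) :=
  {p | (a * p.1 + b * p.2, c * p.1 + d * p.2) ∈ K}

/-- Mirror image in the vertical axis. -/
def mir (K : Set (ℝ × ℝ)) : Set (ℝ × ℝ) := {p | (-p.1, p.2) ∈ K}

/-- Mirror image in the horizontal axis. -/
def flp (K : Set (ℝ × ℝ)) : Set (ℝ × ℝ) := {p | (p.1, -p.2) ∈ K}

/-- Right end of the chord at height `y`. -/
noncomputable def Rt (K : Set (ℝ × ℝ)) (y : ℝ) : ℝ := sSup {x | (x, y) ∈ K}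

/-- Minus the left end of the chord at height `y`. -/
noncomputable def Lf (K : Set (ℝ × ℝ)) (y : ℝ) : ℝ := Rt (mir K) y

/-- Length of the chord at height `y`. -/
noncomputable def wd (K : Set (ℝ × ℝ)) (y : ℝ) : ℝ := Rt K y + Lf K y

variable {K A : Set (ℝ × ℝ)} {s : ℝ}

theorem GN.gp (h : GN K s) : GP K s := by
  obtain ⟨u, v, h1, h2, -⟩ := h.fo
  exact ⟨h.cvx, h.cpt, h.box, h.rt, h.lf, ⟨u, h1⟩, ⟨v, h2⟩⟩

theorem GP.abs_s (h : GP K s) : |s| ≤ 1 := by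
  obtain ⟨u, hu⟩ := h.top
  obtain ⟨v, hv⟩ := h.bot
  have h1 := h.box _ hu
  have h2 := h.box _ hv
  simp only at h1 h2
  exact abs_le.mpr ⟨by linarith [h2.2.2.1, h2.2.2.2], by linarith [h1.2.2.1, h1.2.2.2]⟩

theorem Pk.of_lin {a b c d : ℝ} {l : List ℝ} (hd : a * d - b * c ≠ 0)
    (h : Pk (lin a b c d K) (lin a b c d A) l) : Pk K A l := by
  obtain ⟨S, rfl, hD, hI⟩ := h
  obtain ⟨D, hD'⟩ : ∃ D, D = a * d - b * c := ⟨_, rfl⟩
  rw [← hD'] at hd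
  let f : Hm → Hm := fun u => ⟨u.t, a * u.x + b * u.y, c * u.x + d * u.y⟩
  let g : ℝ × ℝ → ℝ × ℝ := fun p => ((d * p.1 - b * p.2) / D, (a * p.2 - c * p.1) / D)
  have g1 : ∀ p, a * (g p).1 + b * (g p).2 = p.1 := fun p => by
    simp only [g]
    field_simp
    rw [hD']
    ring
  have g2 : ∀ p, c * (g p).1 + d * (g p).2 = p.2 := fun p => by
    simp only [g]
    field_simp
    rw [hD']
    ring
  have hg : ∀ p ∈ K, g p ∈ lin a b c d K := fun p hp => by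
    show (a * (g p).1 + b * (g p).2, c * (g p).1 + d * (g p).2) ∈ K
    rwa [g1, g2]
  have e : ∀ (u : Hm) (α β : ℝ) p, (α * d - β * c) / D * ((f u).ap p).1 +
      (β * a - α * b) / D * ((f u).ap p).2 = α * (u.ap (g p)).1 + β * (u.ap (g p)).2 := by
    intro u α β p
    simp only [f, g, Hm.ap]
    field_simp
    rw [hD']
    ring
  refine ⟨S.map f, by rw [List.map_map]; rfl, List.pairwise_map.mpr (hD.imp ?_), ?_⟩
  · rintro u u' ⟨α, β, γ, hab, h1, h2⟩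
    refine ⟨(α * d - β * c) / D, (β * a - α * b) / D, γ, ?_, fun p hp => ?_, fun p hp => ?_⟩
    · by_contra hh
      rw [not_or, not_not, not_not, div_eq_zero_iff, div_eq_zero_iff, or_iff_left hd,
        or_iff_left hd] at hh
      have k1 : α * D = 0 := by rw [hD']; linear_combination a * hh.1 + c * hh.2
      have k2 : β * D = 0 := by rw [hD']; linear_combination b * hh.1 + d * hh.2
      rcases hab with k | k
      · exact mul_ne_zero k hd k1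
      · exact mul_ne_zero k hd k2
    · rw [e]
      exact h1 _ (hg p hp)
    · rw [e]
      exact h2 _ (hg p hp)
  · intro u hu p hp
    obtain ⟨u, hu', rfl⟩ := List.mem_map.mp hu
    have k := hI u hu' _ (hg p hp)
    have e1 : (a * (u.ap (g p)).1 + b * (u.ap (g p)).2, c * (u.ap (g p)).1 + d * (u.ap (g p)).2) =
        (f u).ap p := by
      simp only [f, Hm.ap]
      ext
      · simp only
        linarith [congrArg (u.t * ·) (g1 p)]
      · simp only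
        linarith [congrArg (u.t * ·) (g2 p)]
    exact e1 ▸ k

theorem mir_eq : mir K = lin (-1) 0 0 1 K := by
  ext p
  simp [mir, lin]

theorem flp_eq : flp K = lin 1 0 0 (-1) K := by
  ext p
  simp [flp, lin]

theorem Pk.of_mir {l : List ℝ} (h : Pk (mir K) (mir A) l) : Pk K A l := by
  rw [mir_eq, mir_eq] at h
  exact h.of_lin (by norm_num)

theorem Pk.of_flp {l : List ℝ} (h : Pk (flp K) (flp A) l) : Pk K A l := by
  rw [flp_eq, flp_eq] at h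
  exact h.of_lin (by norm_num)

theorem mir_mir : mir (mir K) = K := by
  ext p
  simp [mir]

theorem flp_flp : flp (flp K) = K := by
  ext p
  simp [flp]

theorem GP.mir (h : GP K s) : GP (mir K) s := by
  obtain ⟨u, hu⟩ := h.top
  obtain ⟨v, hv⟩ := h.bot
  refine ⟨fun p hp q hq a b ha hb hab => ?_, ?_, fun p hp => ?_, ?_, ?_, ⟨-u, ?_⟩, ⟨-v, ?_⟩⟩
  · have := h.cvx hp hq ha hb hab
    show (-(a • p + b • q).1, (a • p + b • q).2) ∈ K
    convert this using 1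
    ext <;> simp [add_comm]
  · exact ((Homeomorph.neg ℝ).prodCongr (Homeomorph.refl ℝ)).isCompact_preimage.mpr h.cpt
  · obtain ⟨a1, a2, a3, a4⟩ := h.box _ hp
    exact ⟨a1, a2, by simpa using a4, a3⟩
  · simpa [Gen.mir, neg_div] using h.lf
  · simpa [Gen.mir, neg_div] using h.rt
  · simpa [Gen.mir] using hu
  · simpa [Gen.mir] using hv

theorem GP.flp (h : GP K s) : GP (flp K) (-s) := by
  obtain ⟨u, hu⟩ := h.top
  obtain ⟨v, hv⟩ := h.bot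
  refine ⟨fun p hp q hq a b ha hb hab => ?_, ?_, fun p hp => ?_, ?_, ?_, ⟨v, ?_⟩, ⟨u, ?_⟩⟩
  · have := h.cvx hp hq ha hb hab
    show ((a • p + b • q).1, -(a • p + b • q).2) ∈ K
    convert this using 1
    ext <;> simp [add_comm]
  · exact ((Homeomorph.refl ℝ).prodCongr (Homeomorph.neg ℝ)).isCompact_preimage.mpr h.cpt
  · obtain ⟨a1, a2, a3, a4⟩ := h.box _ hp
    simp only at a1 a2 a3 a4
    exact ⟨by linarith, by linarith, by linarith, by linarith⟩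
  · simpa [Gen.flp] using h.rt
  · simpa [Gen.flp] using h.lf
  · simpa [Gen.flp, neg_div] using hv
  · simpa [Gen.flp, neg_div] using hu

theorem GN.mir (h : GN K s) : GN (mir K) s := by
  have g := h.gp.mir
  obtain ⟨u, v, h1, h2, h3⟩ := h.fo
  refine ⟨g.cvx, g.cpt, h.s0, h.s1, g.box, g.rt, g.lf, ⟨-u, -v, by simpa [Gen.mir] using h1,
    by simpa [Gen.mir] using h2, by linarith⟩, fun a b hab => ?_⟩
  obtain ⟨p, hp, q, hq, c, hc, t, t0, hd, hz, hm, hw⟩ := h.mid (-a) b (by simpa using hab)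
  refine ⟨(-p.1, p.2), by simpa [Gen.mir] using hp, (-q.1, q.2), by simpa [Gen.mir] using hq,
    (-(c.1 - t * b), c.2 + t * -a), by simpa [Gen.mir] using hd, t, t0, ?_, fun z hz' => ?_, ?_, ?_⟩
  · show (-(-(c.1 - t * b) - t * b), c.2 + t * -a + t * a) ∈ K
    convert hc using 1
    ext <;> simp
  · have := hz _ hz'
    simp only at this ⊢
    exact ⟨by linarith [this.1], by linarith [this.2]⟩
  · simp only
    linarith
  · simp only
    linarith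

theorem GP.exists_mem (h : GP K s) {y : ℝ} (hy : |y| ≤ 1 / 2) : ∃ x, (x, y) ∈ K := by
  obtain ⟨u, hu⟩ := h.top
  obtain ⟨v, hv⟩ := h.bot
  obtain ⟨y1, y2⟩ := abs_le.mp hy
  have := h.cvx hu hv (a := 1 / 2 + y) (b := 1 / 2 - y) (by linarith) (by linarith) (by ring)
  refine ⟨(1 / 2 + y) * u + (1 / 2 - y) * v, ?_⟩
  convert this using 1
  ext
  · simp
  · simp only [Prod.smul_mk, smul_eq_mul, Prod.mk_add_mk]
    ring

theorem GP.abs_y (h : GP K s) {p : ℝ × ℝ} (hp : p ∈ K) : |p.2| ≤ 1 / 2 :=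
  abs_le.mpr ⟨by linarith [(h.box p hp).1], (h.box p hp).2.1⟩

theorem GP.Rt_mem (h : GP K s) {y : ℝ} (hy : |y| ≤ 1 / 2) : (Rt K y, y) ∈ K := by
  have hc : IsCompact {x | (x, y) ∈ K} := by
    refine Metric.isCompact_of_isClosed_isBounded (h.cpt.isClosed.preimage (by fun_prop)) ?_
    refine (Metric.isBounded_Icc (-1 / 2 + s * y) (1 / 2 - s * y)).subset fun x hx => ?_
    obtain ⟨-, -, a, b⟩ := h.box _ hx
    exact ⟨by linarith, by linarith⟩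
  exact hc.sSup_mem (h.exists_mem hy)

theorem GP.le_Rt (h : GP K s) {x y : ℝ} (hp : (x, y) ∈ K) : x ≤ Rt K y :=
  le_csSup ⟨1 / 2 - s * y, fun _ hx => by linarith [(h.box _ hx).2.2.1]⟩ hp

theorem GP.Lf_mem (h : GP K s) {y : ℝ} (hy : |y| ≤ 1 / 2) : (-Lf K y, y) ∈ K := h.mir.Rt_mem hy

theorem GP.le_Lf (h : GP K s) {x y : ℝ} (hp : (x, y) ∈ K) : -x ≤ Lf K y :=
  h.mir.le_Rt (by simpa [Gen.mir] using hp)

theorem mem_of_between (hc : Convex ℝ K) {x1 x2 x y : ℝ} (h1 : (x1, y) ∈ K) (h2 : (x2, y) ∈ K)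
    (a1 : x1 ≤ x) (a2 : x ≤ x2) : (x, y) ∈ K := by
  obtain ⟨a, b, ha, hb, hab, rfl⟩ := (Convex.mem_Icc (a1.trans a2)).mp ⟨a1, a2⟩
  have := hc h1 h2 ha hb hab
  convert this using 1
  ext
  · simp
  · simp only [Prod.smul_mk, smul_eq_mul, Prod.mk_add_mk]
    rw [← add_mul, hab, one_mul]

theorem GP.mem_iff (h : GP K s) {x y : ℝ} :
    (x, y) ∈ K ↔ |y| ≤ 1 / 2 ∧ -Lf K y ≤ x ∧ x ≤ Rt K y :=
  ⟨fun hp => ⟨h.abs_y hp, neg_le.mp (h.le_Lf hp), h.le_Rt hp⟩,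
    fun ⟨a, b, c⟩ => mem_of_between h.cvx (h.Lf_mem a) (h.Rt_mem a) b c⟩

theorem GP.Rt_le (h : GP K s) {y : ℝ} (hy : |y| ≤ 1 / 2) : Rt K y ≤ 1 / 2 - s * y := by
  linarith [(h.box _ (h.Rt_mem hy)).2.2.1]

theorem GP.Lf_le (h : GP K s) {y : ℝ} (hy : |y| ≤ 1 / 2) : Lf K y ≤ 1 / 2 - s * y := h.mir.Rt_le hy

theorem GP.Rt_zero (h : GP K s) : Rt K 0 = 1 / 2 :=
  le_antisymm (by simpa using h.Rt_le (y := 0) (by norm_num)) (h.le_Rt h.rt)

theorem GP.Lf_zero (h : GP K s) : Lf K 0 = 1 / 2 := h.mir.Rt_zero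

theorem GP.Rt_conc (h : GP K s) {y z a b : ℝ} (hy : |y| ≤ 1 / 2) (hz : |z| ≤ 1 / 2) (ha : 0 ≤ a)
    (hb : 0 ≤ b) (hab : a + b = 1) : a * Rt K y + b * Rt K z ≤ Rt K (a * y + b * z) :=
  h.le_Rt (h.cvx (h.Rt_mem hy) (h.Rt_mem hz) ha hb hab)

theorem GP.wd_conc (h : GP K s) {y z a b : ℝ} (hy : |y| ≤ 1 / 2) (hz : |z| ≤ 1 / 2) (ha : 0 ≤ a)
    (hb : 0 ≤ b) (hab : a + b = 1) : a * wd K y + b * wd K z ≤ wd K (a * y + b * z) := by
  have h1 := h.Rt_conc hy hz ha hb hab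
  have h2 := h.mir.Rt_conc hy hz ha hb hab
  unfold wd Lf
  linarith

theorem GP.wd_zero (h : GP K s) : wd K 0 = 1 := by
  rw [wd, h.Rt_zero, h.Lf_zero]
  norm_num

theorem GP.wd_nonneg (h : GP K s) {y : ℝ} (hy : |y| ≤ 1 / 2) : 0 ≤ wd K y := by
  have := h.le_Rt (h.Lf_mem hy)
  unfold wd
  linarith

theorem GP.wd_le (h : GP K s) {y : ℝ} (hy : |y| ≤ 1 / 2) : wd K y ≤ 1 - 2 * s * y := by
  have h1 := h.Rt_le hy
  have h2 := h.Lf_le hy
  unfold wd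
  linarith

theorem GP.le_wd (h : GP K s) {x x' y : ℝ} (h1 : (x, y) ∈ K) (h2 : (x', y) ∈ K) :
    x - x' ≤ wd K y := by
  have h1 := h.le_Rt h1
  have h2 := h.le_Lf h2
  unfold wd
  linarith

theorem wd_mir (y : ℝ) : wd (mir K) y = wd K y := by
  rw [wd, wd, Lf, Lf, mir_mir, add_comm]

theorem wd_flp (y : ℝ) : wd (flp K) y = wd K (-y) := rfl

/-- The longest horizontal chord, of length `1 + k1 + k2` at height `η`, has parallel support
lines of slope `β` at its ends. -/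
structure Kap (K : Set (ℝ × ℝ)) (β k1 k2 η : ℝ) : Prop where
  k10 : 0 ≤ k1
  k20 : 0 ≤ k2
  bd : ∀ p ∈ K, -1 / 2 - k1 ≤ p.1 + β * p.2 ∧ p.1 + β * p.2 ≤ 1 / 2 + k2
  lo : (-1 / 2 - k1 - β * η, η) ∈ K
  hi : (1 / 2 + k2 - β * η, η) ∈ K

theorem GP.kap (h : GP K s) : ∃ β k1 k2 η, Kap K β k1 k2 η := by
  obtain ⟨u, hu⟩ := h.top
  obtain ⟨v, hv⟩ := h.bot
  have hC : IsCompact (K ×ˢ K ∩ {z | z.1.2 = z.2.2}) :=
    (h.cpt.prod h.cpt).inter_right (isClosed_eq (by fun_prop) (by fun_prop))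
  obtain ⟨⟨p, q⟩, ⟨⟨hp, hq⟩, hpq⟩, hm⟩ := hC.exists_isMaxOn
    (f := fun z : (ℝ × ℝ) × ℝ × ℝ => z.1.1 - z.2.1) ⟨(_, _), ⟨h.rt, h.lf⟩, rfl⟩ (by fun_prop)
  simp only [Set.mem_ofPred_eq] at hp hq hpq
  obtain ⟨W, hW⟩ : ∃ W, W = p.1 - q.1 := ⟨_, rfl⟩
  have hmax : ∀ z ∈ K, ∀ z' ∈ K, z.2 = z'.2 → z.1 - z'.1 ≤ W := fun z hz z' hz' e =>
    hW ▸ hm (a := (z, z')) ⟨⟨hz, hz'⟩, e⟩
  have hD : IsCompact ((fun z : (ℝ × ℝ) × ℝ × ℝ => z.1 - z.2) '' K ×ˢ K) :=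
    (h.cpt.prod h.cpt).image (by fun_prop)
  have hV : Convex ℝ ((fun z : (ℝ × ℝ) × ℝ × ℝ => z.1 - z.2) '' K ×ˢ K) :=
    (h.cvx.prod h.cvx).linear_image (LinearMap.fst ℝ _ _ - LinearMap.snd ℝ _ _)
  have hδ : ∀ δ : ℝ, 0 < δ → ∃ β : ℝ, ∀ z ∈ K, ∀ z' ∈ K,
      z.1 - z'.1 - W + β * (z.2 - z'.2) ≤ δ := by
    intro δ hδ
    obtain ⟨β, hβ⟩ := Nrm.leg (a := 0) (b := 1) (c := (W, 0)) hD.isClosed hV (by norm_num) hδ
      ⟨(p, q), ⟨hp, hq⟩, by ext <;> simp [hW, hpq]⟩ (by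
        rintro ⟨⟨z, z'⟩, ⟨hz, hz'⟩, e⟩
        have e1 := congrArg Prod.fst e
        have e2 := congrArg Prod.snd e
        simp only [Prod.fst_sub, Prod.snd_sub] at e1 e2
        linarith [hmax z hz z' hz' (by linarith)])
    refine ⟨β, fun z hz z' hz' => ?_⟩
    simpa using hβ _ ⟨(z, z'), ⟨hz, hz'⟩, rfl⟩
  have hS : IsCompact {w : ℝ × ℝ | 0 ≤ w.2 ∧ w.2 ≤ 1 ∧ ∀ z ∈ K, ∀ z' ∈ K,
      z.1 - z'.1 - W + w.1 * (z.2 - z'.2) ≤ w.2} := by
    apply Metric.isCompact_of_isClosed_isBounded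
    · simp only [Set.ofPred_and, Set.ofPred_forall]
      exact (isClosed_le (by fun_prop) (by fun_prop)).inter
        ((isClosed_le (by fun_prop) (by fun_prop)).inter (isClosed_iInter fun _ =>
          isClosed_iInter fun _ => isClosed_iInter fun _ => isClosed_iInter fun _ =>
            isClosed_le (by fun_prop) (by fun_prop)))
    · refine ((Metric.isBounded_Icc (v - u - W - 1) (v - u + W + 1)).prod
        (Metric.isBounded_Icc 0 1)).subset ?_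
      rintro w ⟨a1, a2, a3⟩
      have b1 := a3 _ hu _ hv
      have b2 := a3 _ hv _ hu
      simp only at b1 b2
      exact ⟨⟨by linarith, by linarith⟩, a1, a2⟩
  obtain ⟨β1, hβ1⟩ := hδ 1 one_pos
  obtain ⟨⟨β, δ⟩, ⟨a1, a2, a3⟩, hmin⟩ := hS.exists_isMinOn (f := Prod.snd)
    ⟨(β1, 1), zero_le_one, le_rfl, hβ1⟩ (by fun_prop)
  simp only at a1 a2 a3
  have d0 : δ ≤ 0 := by
    by_contra hh
    obtain ⟨β2, hβ2⟩ := hδ (δ / 2) (by linarith)
    have : δ ≤ δ / 2 := hmin (a := (β2, δ / 2)) ⟨by simp only; linarith, by simp only; linarith, hβ2⟩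
    linarith
  have b1 := a3 _ h.rt _ hq
  have b2 := a3 _ hp _ h.lf
  simp only at b1 b2
  refine ⟨β, -1 / 2 - (q.1 + β * q.2), p.1 + β * p.2 - 1 / 2, p.2, ?_, ?_, fun z hz => ?_, ?_, ?_⟩
  · rw [← hpq]
    linarith
  · rw [← hpq] at b1
    linarith
  · have c1 := a3 _ hz _ hq
    have c2 := a3 _ hp _ hz
    rw [← hpq] at c1 ⊢
    exact ⟨by linarith, by linarith⟩
  · convert hq using 1
    ext
    · simp only [hpq]
      ring
    · exact hpq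
  · convert hp using 1
    ext
    · simp only
      ring
    · rfl

theorem Kap.wd_le {β k1 k2 η y : ℝ} (h : GP K s) (k : Kap K β k1 k2 η) (hy : |y| ≤ 1 / 2) :
    wd K y ≤ 1 + (k1 + k2) := by
  have h1 := (k.bd _ (h.Rt_mem hy)).2
  have h2 := (k.bd _ (h.Lf_mem hy)).1
  unfold wd
  simp only at h1 h2
  linarith

theorem Kap.wd_eq {β k1 k2 η : ℝ} (h : GP K s) (k : Kap K β k1 k2 η) :
    wd K η = 1 + (k1 + k2) :=
  le_antisymm (k.wd_le h (h.abs_y k.hi)) (by linarith [h.le_wd k.hi k.lo])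

theorem Kap.mir {β k1 k2 η : ℝ} (k : Kap K β k1 k2 η) : Kap (mir K) (-β) k2 k1 η := by
  refine ⟨k.k20, k.k10, fun p hp => ?_, ?_, ?_⟩
  · have := k.bd _ hp
    simp only at this
    exact ⟨by linarith [this.2], by linarith [this.1]⟩
  · show (_, _) ∈ K
    convert k.hi using 2
    simp only
    ring
  · show (_, _) ∈ K
    convert k.lo using 2
    simp only
    ring

theorem Kap.flp {β k1 k2 η : ℝ} (k : Kap K β k1 k2 η) : Kap (flp K) (-β) k1 k2 (-η) := by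
  refine ⟨k.k10, k.k20, fun p hp => ?_, ?_, ?_⟩
  · have := k.bd _ hp
    simp only at this
    exact ⟨by linarith [this.1], by linarith [this.2]⟩
  · show (_, _) ∈ K
    convert k.lo using 2 <;> simp
  · show (_, _) ∈ K
    convert k.hi using 2 <;> simp

end Pool.Agent.MP_34f9b1_co.Gen
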