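import Pool.Agent.MP_34f9b1_co.Gen.Ins

namespace Pool.Agent.MP_34f9b1_co.Gen

open Pool.Agent.MP_34f9b1_co.Sym (Srt sqs)
open Pool.Agent.MP_34f9b1_co.Sym.PkAux (srt_sub sqs_cons sqs_nonneg sqs_ge_mul)

/-- Effective length of the accepted pieces: `a * eff a l ≤ sqs l`. -/
def eff (a : ℝ) : List ℝ → ℝ
  | [] => 0
  | b :: r => b + r.sum + (b - a)

/-- The unpaired last piece of a two-sided chain, or the default `ht`. -/
def lst (ht : ℝ) : List ℝ → ℝ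
  | [] => ht
  | [b] => b
  | _ :: _ :: r => lst ht r

/-- A piece of size `a` centred at `y` fits in the strip of the head. -/
def Fit (g yg a y : ℝ) : Prop := |y - yg| + a / 2 ≤ g / 2

/-- The shape data used by the rows. -/
structure Sh (K : Set (ℝ × ℝ)) (s β k1 k2 η κ σ : ℝ) : Prop where
  gp : GP K s
  kap : Kap K β k1 k2 η
  hβ : |β| ≤ |s|
  hκ : k1 + k2 ≤ κ
  κ1 : κ ≤ 1
  hσ : |s| ≤ σ

/-- A compact full row with head `g` and followers `fl`. -/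
def Row (K : Set (ℝ × ℝ)) (β k1 k2 g yg : ℝ) (fl : List ℝ) : Prop :=
  Cp K β k1 k2 g yg ((1 + (k1 + k2)) * (g :: fl).sum) (g :: fl)

variable {n : ℕ} {K Q : Set (ℝ × ℝ)} {ex l : List ℝ} {m s β k1 k2 η κ σ g yg : ℝ}

theorem MS.ref (I : List ℝ → Prop) (I0 : I []) (hI : ∀ l, I l → Pk K Q (ex ++ l)) :
    MS n K Q ex m fun a l => I l ∧ ¬ I (l ++ [a]) :=
  ⟨I, I0, fun l _ _ _ k => hI l k, fun l a _ _ k => (em (I (l ++ [a]))).imp id fun e => ⟨k, e⟩⟩

theorem cont_of (h : GP K s) (ih : IH n K) (hne : ex ≠ []) {a V : ℝ} (a0 : 0 ≤ a)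
    (h0 : Pk K Q ex) (hV : ∀ x, 0 ≤ x → x ≤ a → x ≤ V → Pk K Q (ex ++ [x])) :
    ∃ γ, 0 ≤ γ ∧ γ ≤ a ∧ min a V ≤ γ ∧ MS n K Q ex a (Cont γ) := by
  rcases le_total V 0 with q | q
  · refine ⟨0, le_rfl, a0, (min_le_right _ _).trans q, (MS.full h0).mono subset_rfl
      (List.Perm.refl _) le_rfl fun z l' hz _ e zg => ?_⟩
    have : z = 0 := le_antisymm zg (hz.2 z (by simp))
    subst this e
    simp [sqs]
  · exact ⟨min a V, le_min a0 q, min_le_left _ _, le_rfl, MS.cont h ih hne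
      ((hV _ (le_min a0 q) (min_le_left _ _) (min_le_right _ _)).perm
        (List.perm_append_comm (l₁ := [_])))⟩

theorem srt_last {a : ℝ} (hl : Srt (l ++ [a])) : 0 ≤ a ∧ ∀ x ∈ l, a ≤ x :=
  ⟨hl.2 a (by simp), fun x hx =>
    (List.pairwise_append.mp hl.1).2.2 x hx a (List.mem_singleton_self a)⟩

theorem srt_shrink {a x : ℝ} (hl : Srt (l ++ [a])) (x0 : 0 ≤ x) (xa : x ≤ a) : Srt (l ++ [x]) :=
  ⟨List.pairwise_append.mpr ⟨(List.pairwise_append.mp hl.1).1, List.pairwise_singleton _ _,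
    fun y hy z hz => by rw [List.mem_singleton.mp hz]; exact xa.trans ((srt_last hl).2 y hy)⟩,
    fun y hy => (List.mem_append.mp hy).elim (fun k => hl.2 y (List.mem_append_left _ k))
      fun k => by rw [List.mem_singleton.mp k]; exact x0⟩

theorem srt_append {f : List ℝ} (hf : Srt f) (hl : Srt l) (h1 : ∀ x ∈ f, m ≤ x)
    (h2 : ∀ x ∈ l, x ≤ m) : Srt (f ++ l) :=
  ⟨List.pairwise_append.mpr ⟨hf.1, hl.1, fun x hx y hy => (h2 y hy).trans (h1 x hx)⟩,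
    fun x hx => (List.mem_append.mp hx).elim (hf.2 x) (hl.2 x)⟩

theorem eff_le {a : ℝ} (a0 : 0 ≤ a) (h : ∀ x ∈ l, a ≤ x) : a * eff a l ≤ sqs l := by
  cases l with
  | nil => simp [eff, sqs]
  | cons b r =>
    have := (sqs_ge_mul a0 r fun x hx => h x (List.mem_cons_of_mem _ hx)).1
    rw [eff, sqs_cons]
    nlinarith [sq_nonneg (b - a)]

theorem sum_le_eff {a : ℝ} (h : ∀ x ∈ l, a ≤ x) : l.sum ≤ eff a l := by
  cases l with
  | nil => simp [eff]
  | cons b r =>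
    rw [eff, List.sum_cons]
    linarith [h b List.mem_cons_self]

theorem Ex.append {u d M N : ℝ} {f : List ℝ} (h : Ex u d M f) (h1 : Ex u d N l) (h2 : Ex d u N l)
    (hN : M - l.sum ≤ N) : Ex u d N (f ++ l) := by
  induction f generalizing u d with
  | nil => exact h1
  | cons b r ih => exact ⟨by rw [List.append_eq, List.sum_append]; linarith [h.1], ih h.2 h2 h1⟩

theorem Ex.ext {w M N ht x : ℝ} {f : List ℝ} (h : Ex w 0 M f) (w0 : 0 ≤ w)
    (hl : ∀ y ∈ l, 0 ≤ y ∧ y ≤ ht) (x0 : 0 ≤ x) (h1 : w * x ≤ N) (h2 : M - x ≤ N)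
    (h3 : w * ht - x ≤ N) : Ex w 0 N (f ++ (l ++ [x])) := by
  have l0 : ∀ y ∈ l, 0 ≤ y := fun y hy => (hl y hy).1
  have c := mul_nonneg w0 x0
  have k : ∀ y ∈ l, w * y ≤ N + x ∧ 0 * y ≤ N + x := fun y hy =>
    ⟨by linarith [mul_le_mul_of_nonneg_left (hl y hy).2 w0], by linarith⟩
  have a1 : Ex w 0 N [x] := ⟨by simpa using h1, trivial⟩
  have a2 : Ex 0 w N [x] := ⟨by simp; linarith, trivial⟩
  refine h.append ((ex_of_le l0 k).append a1 a2 (by simp))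
    ((ex_of_le l0 fun y hy => (k y hy).symm).append a2 a1 (by simp)) ?_
  rw [List.sum_append, List.sum_singleton]
  linarith [List.sum_nonneg l0]

theorem Ex1.append {M N : ℝ} {f : List ℝ} (h : Ex1 κ M f) (h1 : Ex1 κ N l)
    (hN : M - (1 - κ) * l.sum ≤ N) : Ex1 κ N (f ++ l) := by
  induction f with
  | nil => exact h1
  | cons b r ih => exact ⟨by rw [List.append_eq, List.sum_append]; linarith [h.1], ih h.2⟩

theorem ex1_of_le {M : ℝ} (κ1 : κ ≤ 1) (h0 : ∀ x ∈ l, 0 ≤ x) (h : ∀ x ∈ l, κ * x ≤ M) :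
    Ex1 κ M l := by
  induction l with
  | nil => trivial
  | cons b r ih =>
    have r0 : ∀ x ∈ r, 0 ≤ x := fun x hx => h0 x (List.mem_cons_of_mem _ hx)
    exact ⟨by linarith [h b List.mem_cons_self,
      mul_nonneg (sub_nonneg.mpr κ1) (List.sum_nonneg r0)],
      ih r0 fun x hx => h x (List.mem_cons_of_mem _ hx)⟩

theorem Ex1.ext {M N ht x : ℝ} {f : List ℝ} (h : Ex1 κ M f) (κ0 : 0 ≤ κ) (κ1 : κ ≤ 1)
    (hl : ∀ y ∈ l, 0 ≤ y ∧ y ≤ ht) (h1 : κ * x ≤ N) (h2 : M - (1 - κ) * x ≤ N)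
    (h3 : κ * ht - (1 - κ) * x ≤ N) : Ex1 κ N (f ++ (l ++ [x])) := by
  have l0 : ∀ y ∈ l, 0 ≤ y := fun y hy => (hl y hy).1
  refine h.append ((ex1_of_le (M := κ * ht) κ1 l0 fun y hy =>
    mul_le_mul_of_nonneg_left (hl y hy).2 κ0).append ⟨by simpa using h1, trivial⟩
      (by simpa using h3)) ?_
  rw [List.sum_append, List.sum_singleton]
  linarith [mul_nonneg (sub_nonneg.mpr κ1) (List.sum_nonneg l0)]

theorem ex2_tail {N ht x : ℝ} (κ0 : 0 ≤ κ) (h1 : κ * (ht + x) / 2 ≤ N) (h3 : κ * ht - x ≤ N) :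
    ∀ l : List ℝ, (∀ y ∈ l, 0 ≤ y ∧ y ≤ ht) → Ex2 κ N (l ++ [x])
  | [], _ => trivial
  | [b], hl => ⟨by
      have := mul_le_mul_of_nonneg_left (hl b (by simp)).2 κ0
      simp only [List.sum_nil]
      linarith, trivial⟩
  | b :: b' :: r, hl => ⟨by
      have a1 := mul_le_mul_of_nonneg_left (hl b (by simp)).2 κ0
      have a2 := mul_le_mul_of_nonneg_left (hl b' (by simp)).2 κ0
      have a3 : 0 ≤ r.sum := List.sum_nonneg fun y hy => (hl y (by simp [hy])).1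
      simp only [List.append_eq, List.sum_append, List.sum_singleton]
      linarith, ex2_tail κ0 h1 h3 r fun y hy => hl y (by simp [hy])⟩

theorem Ex2.ext {M N ht x : ℝ} (κ0 : 0 ≤ κ) (hl : ∀ y ∈ l, 0 ≤ y ∧ y ≤ ht) (h2 : M - x ≤ N) :
    ∀ {f : List ℝ}, Ex2 κ M f → (∀ y ∈ l ++ [x], y ≤ lst ht f) →
      κ * (lst ht f + x) / 2 ≤ N → κ * (lst ht f + ht) / 2 - x ≤ N → Ex2 κ N (f ++ (l ++ [x]))
  | [], _, _, h1, h3 => ex2_tail (ht := ht) κ0 h1 (by simp only [lst] at h3; linarith) l hl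
  | [b], _, hb, h1, h3 => by
    simp only [lst] at hb h1 h3
    cases l with
    | nil => exact ⟨by simpa using h1, trivial⟩
    | cons c l =>
      have a1 := mul_le_mul_of_nonneg_left (hl c (by simp)).2 κ0
      have a3 : 0 ≤ l.sum := List.sum_nonneg fun y hy => (hl y (by simp [hy])).1
      have a4 := mul_le_mul_of_nonneg_left (min_le_left b ht) κ0
      have a5 := mul_le_mul_of_nonneg_left (min_le_right b ht) κ0
      refine ⟨?_, ex2_tail (ht := min b ht) κ0 (by linarith) (by linarith) l fun y hy =>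
        ⟨(hl y (by simp [hy])).1, le_min (hb y (by simp [hy])) (hl y (by simp [hy])).2⟩⟩
      simp only [List.append_eq, List.sum_append, List.sum_singleton]
      linarith
  | b :: b' :: r, h, hb, h1, h3 => ⟨by
      have a3 : 0 ≤ l.sum := List.sum_nonneg fun y hy => (hl y hy).1
      simp only [List.append_eq, List.sum_append, List.sum_singleton]
      linarith [h.1], Ex2.ext κ0 hl h2 h.2 hb h1 h3⟩

theorem Sh.κ0 (S : Sh K s β k1 k2 η κ σ) : 0 ≤ κ := by linarith [S.kap.k10, S.kap.k20, S.hκ]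

theorem Sh.σ0 (S : Sh K s β k1 k2 η κ σ) : 0 ≤ σ := (abs_nonneg s).trans S.hσ

theorem Sh.mir (S : Sh K s β k1 k2 η κ σ) : Sh (mir K) s (-β) k2 k1 η κ σ :=
  ⟨S.gp.mir, S.kap.mir, by rw [abs_neg]; exact S.hβ, add_comm k1 k2 ▸ S.hκ, S.κ1, S.hσ⟩

theorem Sh.flp (S : Sh K s β k1 k2 η κ σ) : Sh (flp K) (-s) (-β) k1 k2 (-η) κ σ :=
  ⟨S.gp.flp, S.kap.flp, by rw [abs_neg, abs_neg]; exact S.hβ, S.hκ, S.κ1,
    by rw [abs_neg]; exact S.hσ⟩

theorem Row.pk {fl : List ℝ} (h : Row K β k1 k2 g yg fl) : Pk K (St K g yg) (g :: fl) := Cp.pk h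

theorem Sh.row_nil (S : Sh K s β k1 k2 η κ σ) (g0 : 0 ≤ g) (hg : |yg| ≤ (1 - g) / 2) :
    Row K β k1 k2 g yg [] := by
  simpa [Row] using S.kap.cp_one S.gp g0 hg

/-- The family of a full row. -/
theorem Row.ms {fs : List ℝ} (h : Row K β k1 k2 g yg fs) : MS n K (St K g yg) (g :: fs) m
    fun a l => Row K β k1 k2 g yg (fs ++ l) ∧ ¬ Row K β k1 k2 g yg (fs ++ (l ++ [a])) :=
  MS.ref (fun l => Row K β k1 k2 g yg (fs ++ l)) (by simpa using h) fun _ k => k.pk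

/-- The container of a full row. -/
theorem Row.cont {fl : List ℝ} {a V : ℝ} (h : Row K β k1 k2 g yg fl) (G : GP K s) (ih : IH n K)
    (a0 : 0 ≤ a) (hV : ∀ x, 0 ≤ x → x ≤ a → x ≤ V → Row K β k1 k2 g yg (fl ++ [x])) :
    ∃ γ, 0 ≤ γ ∧ γ ≤ a ∧ min a V ≤ γ ∧ MS n K (St K g yg) (g :: fl) a (Cont γ) :=
  cont_of G ih (by simp) a0 h.pk fun x x0 x1 x2 => (hV x x0 x1 x2).pk

/-- Insertion rule. -/
theorem Row.ins {fl : List ℝ} {x y : ℝ} (h : Row K β k1 k2 g yg fl) (S : Sh K s β k1 k2 η κ σ)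
    (hg : |yg| ≤ (1 - g) / 2) (h0 : 0 ≤ g + fl.sum) (x0 : 0 ≤ x) (hy : Fit g yg x y)
    (hT : (1 + κ) * (g + fl.sum) + (2 + κ) * x ≤ TT K x y) : Row K β k1 k2 g yg (fl ++ [x]) := by
  have c1 := mul_le_mul_of_nonneg_right S.hκ h0
  have c2 := mul_le_mul_of_nonneg_right S.hκ x0
  refine (Cp.ins h S.gp S.kap x0 hg hy ?_).mono (le_of_eq ?_)
  · rw [List.sum_cons]
    linarith
  · simp only [List.sum_cons, List.sum_append, List.sum_nil]
    ring

section Rules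

variable {b y0 c M ht x : ℝ} {f : List ℝ}

/-- Rule with the legs; `b :: f` are the explicit followers, `l` the accepted pieces. -/
theorem Sh.okS (S : Sh K s β k1 k2 η κ σ) (hg : |yg| ≤ (1 - g) / 2) (hy : Fit g yg b y0)
    (hs : Srt (b :: f ++ (l ++ [x]))) (hl : ∀ y ∈ l, y ≤ ht) (hE : Ex σ 0 M (b :: f))
    (hc : c ≤ (TT K g yg + TT K b y0) / 2 + s * (y0 - yg) - g - (b :: f).sum)
    (h1 : l.sum + x + σ * x ≤ c) (h2 : l.sum + M ≤ c) (h3 : l.sum + σ * ht ≤ c) :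
    Row K β k1 k2 g yg (b :: f ++ (l ++ [x])) :=
  (S.gp.rowS (M := c - l.sum - x) S.hσ hs.1 hs.2 hy
    (hE.ext S.σ0 (fun y k => ⟨hs.2 y (by simp [k]), hl y k⟩) (hs.2 x (by simp)) (by linarith)
      (by linarith) (by linarith))
    (by simp only [List.append_eq, List.sum_cons, List.sum_append, List.sum_nil] at hc ⊢
        linarith)).cp S.gp S.kap hs.1 hs.2 hg hy

/-- Rule with the parallel support lines and one chain. -/
theorem Sh.okK1 (S : Sh K s β k1 k2 η κ σ) (hg : |yg| ≤ (1 - g) / 2) (hy : Fit g yg b y0)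
    (hs : Srt (b :: f ++ (l ++ [x]))) (hl : ∀ y ∈ l, y ≤ ht) (hE : Ex1 κ M (b :: f))
    (hc : c ≤ (TT K g yg + TT K b y0) / 2 - g - κ * g / 2 - (b :: f).sum)
    (h1 : l.sum + x + κ * x / 2 ≤ c) (h2 : l.sum + x + (M - (1 - κ) * x) / 2 ≤ c)
    (h3 : l.sum + x + (κ * ht - (1 - κ) * x) / 2 ≤ c) :
    Row K β k1 k2 g yg (b :: f ++ (l ++ [x])) :=
  (S.kap.rowK1 (M := 2 * (c - l.sum - x)) S.gp S.hκ hs.1 hs.2 hy
    (hE.ext S.κ0 S.κ1 (fun y k => ⟨hs.2 y (by simp [k]), hl y k⟩) (by linarith) (by linarith)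
      (by linarith))
    (by simp only [List.append_eq, List.sum_cons, List.sum_append, List.sum_nil] at hc ⊢
        linarith)).cp S.gp S.kap hs.1 hs.2 hg hy

theorem le_lst (ht : ℝ) {y : ℝ} (hy : y ≤ ht) : ∀ f : List ℝ, (∀ z ∈ f, y ≤ z) → y ≤ lst ht f
  | [], _ => hy
  | [b], h => h b (by simp)
  | _ :: _ :: r, h => le_lst ht hy r fun z hz => h z (by simp [hz])

/-- Rule with two chains; `N` bounds the excess after adding `x`. -/
theorem Sh.okK2 {N : ℝ} (S : Sh K s β k1 k2 η κ σ) (hg : |yg| ≤ (1 - g) / 2) (hy : Fit g yg b y0)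
    (hs : Srt (b :: f ++ (l ++ [x]))) (hl : ∀ y ∈ l ++ [x], y ≤ ht) (hE : Ex2 κ M f)
    (hc : c ≤ (TT K g yg + TT K b y0) / 2 - g - b) (N0 : 0 ≤ N) (n1 : M - x ≤ N)
    (n2 : κ * (lst ht f + x) / 2 ≤ N) (n3 : κ * (lst ht f + ht) / 2 - x ≤ N)
    (h1 : f.sum + l.sum + x + N ≤ c + s * (y0 - yg)) (h2 : κ * (g + b) / 2 ≤ c)
    (h3 : f.sum + l.sum + x + N + κ * g + |s * (y0 - yg)| ≤ 2 * c + s * (y0 - yg)) :
    Row K β k1 k2 g yg (b :: f ++ (l ++ [x])) :=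
  (S.kap.rowK2 S.gp S.hβ S.hκ hs.1 hs.2 hy N0
    (hE.ext S.κ0 (fun y k => ⟨hs.2 y (by simp [k]), hl y (by simp [k])⟩) n1
      (fun y k => le_lst ht (hl y k) f fun z hz =>
        (List.pairwise_append.mp (List.pairwise_cons.mp hs.1).2).2.2 z hz y k) n2 n3) hc
    (by simp only [List.append_eq, List.sum_cons, List.sum_append, List.sum_nil]; linarith) h2
    (by simp only [List.append_eq, List.sum_cons, List.sum_append, List.sum_nil]; linarith)).cp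
      S.gp S.kap hs.1 hs.2 hg hy

end Rules

/-- A height for the first follower `b`, interpolated between those of `a` and `ht`. -/
theorem GP.interp (h : GP K s) {a ya ht yh b : ℝ} (e : ℝ) (hg : |yg| ≤ (1 - g) / 2)
    (h1 : Fit g yg a ya) (h2 : Fit g yg ht yh) (ab : a ≤ b) (bh : b ≤ ht) :
    ∃ y, Fit g yg b y ∧ min (TT K a ya / 2 + e * (ya - yg))
      (TT K ht yh / 2 + e * (yh - yg) + (ht - a)) ≤ TT K b y / 2 + e * (y - yg) + (b - a) := by
  obtain ⟨u, v, hu, hv, huv, rfl⟩ := (Convex.mem_Icc (ab.trans bh)).mp ⟨ab, bh⟩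
  have k := h.TT_conc (fit hg h1) (fit hg h2) hu hv huv
  obtain rfl : u = 1 - v := by linarith
  refine ⟨(1 - v) * ya + v * yh, ?_, ?_⟩
  · unfold Fit at *
    have : (1 - v) * ya + v * yh - yg = (1 - v) * (ya - yg) + v * (yh - yg) := by ring
    rw [this]
    have k1 := abs_add_le ((1 - v) * (ya - yg)) (v * (yh - yg))
    rw [abs_mul, abs_mul, abs_of_nonneg hu, abs_of_nonneg hv] at k1
    nlinarith
  · have m1 := mul_le_mul_of_nonneg_left (min_le_left (TT K a ya / 2 + e * (ya - yg))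
      (TT K ht yh / 2 + e * (yh - yg) + (ht - a))) hu
    have m2 := mul_le_mul_of_nonneg_left (min_le_right (TT K a ya / 2 + e * (ya - yg))
      (TT K ht yh / 2 + e * (yh - yg) + (ht - a))) hv
    linarith

section Single

variable {a ya ht yh c x : ℝ}

theorem Fit.mono (h : Fit g yg a ya) (hx : x ≤ a) : Fit g yg x ya := by
  unfold Fit at *
  linarith

/-- The first follower of a row without explicit followers. -/
theorem GP.first (h : GP K s) (e : ℝ) (hg : |yg| ≤ (1 - g) / 2) (h1 : Fit g yg a ya)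
    (h2 : Fit g yg ht yh) (hs : Srt (l ++ [a])) (hl : ∀ y ∈ l, y ≤ ht) (xa : x ≤ a)
    (hc : c + eff a l ≤ min (TT K a ya / 2 + e * (ya - yg))
        (TT K ht yh / 2 + e * (yh - yg) + (ht - a)) ∨
      a ≤ ht ∧ c + l.sum ≤ TT K ht yh / 2 + e * (yh - yg)) :
    ∃ b r y, l ++ [x] = b :: r ∧ Fit g yg b y ∧ c + l.sum ≤ TT K b y / 2 + e * (y - yg) := by
  rcases hc with hc | ⟨ah, hc⟩
  · cases l with
    | nil => exact ⟨x, [], ya, rfl, h1.mono xa, by
        have := (le_min_iff.mp hc).1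
        simp only [eff, List.sum_nil] at this ⊢
        linarith [h.TT_mono (fit hg h1) xa]⟩
    | cons b r =>
      obtain ⟨y, k1, k2⟩ := h.interp e hg h1 h2 ((srt_last hs).2 b (by simp)) (hl b (by simp))
      refine ⟨b, r ++ [x], y, rfl, k1, ?_⟩
      rw [eff] at hc
      rw [List.sum_cons]
      linarith
  · cases l with
    | nil => exact ⟨x, [], yh, rfl, h2.mono (xa.trans ah), by
        linarith [h.TT_mono (fit hg h2) (xa.trans ah)]⟩
    | cons b r => exact ⟨b, r ++ [x], yh, rfl, h2.mono (hl b (by simp)), by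
        linarith [h.TT_mono (fit hg h2) (hl b (by simp))]⟩

/-- Rule with the legs for a row without explicit followers; `N` bounds the excess. -/
theorem Sh.oneS {N : ℝ} (S : Sh K s β k1 k2 η κ σ) (hg : |yg| ≤ (1 - g) / 2) (h1 : Fit g yg a ya)
    (h2 : Fit g yg ht yh) (hs : Srt (l ++ [a])) (hl : ∀ y ∈ l, y ≤ ht) (x0 : 0 ≤ x) (xa : x ≤ a)
    (n1 : σ * x ≤ N) (n2 : σ * ht - x ≤ N) (hc : g + x + N - TT K g yg / 2 ≤ c)
    (hd : c + eff a l ≤ min (TT K a ya / 2 + s * (ya - yg))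
        (TT K ht yh / 2 + s * (yh - yg) + (ht - a)) ∨
      a ≤ ht ∧ c + l.sum ≤ TT K ht yh / 2 + s * (yh - yg)) :
    Row K β k1 k2 g yg (l ++ [x]) := by
  obtain ⟨b, r, y, e, k1, k2⟩ := S.gp.first s hg h1 h2 hs hl xa hd
  have s1 := srt_shrink hs x0 xa
  have hE : Ex σ 0 N ([] ++ (l ++ [x])) := Ex.ext (M := N) trivial S.σ0
    (fun y k => ⟨hs.2 y (by simp [k]), hl y k⟩) x0 n1 (by linarith) n2
  have e2 : (b :: r).sum = l.sum + x := by rw [← e]; simp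
  rw [List.nil_append] at hE
  rw [e] at s1 hE ⊢
  exact (S.gp.rowS S.hσ s1.1 s1.2 k1 hE (by linarith)).cp S.gp S.kap s1.1 s1.2 hg k1

/-- Rule with the parallel support lines for a row without explicit followers. -/
theorem Sh.oneK {N : ℝ} (S : Sh K s β k1 k2 η κ σ) (hg : |yg| ≤ (1 - g) / 2) (h1 : Fit g yg a ya)
    (h2 : Fit g yg ht yh) (hs : Srt (l ++ [a])) (hl : ∀ y ∈ l, y ≤ ht) (x0 : 0 ≤ x) (xa : x ≤ a)
    (n1 : κ * x ≤ N) (n2 : κ * ht - (1 - κ) * x ≤ N)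
    (hc : g + κ * g / 2 + x + N / 2 - TT K g yg / 2 ≤ c)
    (hd : c + eff a l ≤ min (TT K a ya / 2) (TT K ht yh / 2 + (ht - a)) ∨
      a ≤ ht ∧ c + l.sum ≤ TT K ht yh / 2) :
    Row K β k1 k2 g yg (l ++ [x]) := by
  obtain ⟨b, r, y, e, k1, k2⟩ := S.gp.first (c := c) 0 hg h1 h2 hs hl xa (by simpa using hd)
  have s1 := srt_shrink hs x0 xa
  have hE : Ex1 κ N ([] ++ (l ++ [x])) := Ex1.ext (M := κ * ht) trivial S.κ0 S.κ1
    (fun y k => ⟨hs.2 y (by simp [k]), hl y k⟩) n1 n2 n2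
  have e2 : (b :: r).sum = l.sum + x := by rw [← e]; simp
  rw [List.nil_append] at hE
  rw [e] at s1 hE ⊢
  exact (S.kap.rowK1 S.gp S.hκ s1.1 s1.2 k1 hE (by linarith)).cp S.gp S.kap s1.1 s1.2 hg k1

end Single

end Pool.Agent.MP_34f9b1_co.Gen
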