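import Mathlib.Analysis.LocallyConvex.Separation
import Mathlib.Analysis.Convex.Topology
import Mathlib.Analysis.InnerProductSpace.PiL2

namespace Pool.Agent.MP_34f9b1_co.Gen

/-- In direction `(a, b)` the width times the middle chord is at least one. -/
def Mid (K : Set (ℝ × ℝ)) (a b : ℝ) : Prop :=
  ∃ p ∈ K, ∃ q ∈ K, ∃ c ∈ K, ∃ t : ℝ, 0 ≤ t ∧ (c.1 - t * b, c.2 + t * a) ∈ K ∧
    (∀ z ∈ K, a * q.1 + b * q.2 ≤ a * z.1 + b * z.2 ∧ a * z.1 + b * z.2 ≤ a * p.1 + b * p.2) ∧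
    2 * (a * c.1 + b * c.2) = a * p.1 + b * p.2 + (a * q.1 + b * q.2) ∧
    1 ≤ t * (a * p.1 + b * p.2 - (a * q.1 + b * q.2))

/-- Normal form: the smallest circumscribed trapezoid is the standard one with leg slope `s`. -/
structure GN (K : Set (ℝ × ℝ)) (s : ℝ) : Prop where
  cvx : Convex ℝ K
  cpt : IsCompact K
  s0 : 0 ≤ s
  s1 : s ≤ 1
  box : ∀ p ∈ K, -1 / 2 ≤ p.2 ∧ p.2 ≤ 1 / 2 ∧ p.1 + s * p.2 ≤ 1 / 2 ∧ -p.1 + s * p.2 ≤ 1 / 2
  rt : ((1 / 2, 0) : ℝ × ℝ) ∈ K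
  lf : ((-1 / 2, 0) : ℝ × ℝ) ∈ K
  fo : ∃ u v : ℝ, (u, 1 / 2) ∈ K ∧ (v, -1 / 2) ∈ K ∧ u - v = s * (u + v)
  mid : ∀ a b : ℝ, (a ≠ 0 ∨ b ≠ 0) → Mid K a b

namespace Nrm

/-- Coefficients of two affine functions and a slope describing a circumscribed trapezoid. -/
def Cir (K : Set (ℝ × ℝ)) (x y : ℝ × ℝ × ℝ) (s : ℝ) : Prop :=
  -1 ≤ s ∧ s ≤ 1 ∧ ∀ p ∈ K,
    -1 / 2 ≤ y.1 * p.1 + y.2.1 * p.2 + y.2.2 ∧ y.1 * p.1 + y.2.1 * p.2 + y.2.2 ≤ 1 / 2 ∧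
    x.1 * p.1 + x.2.1 * p.2 + x.2.2 + s * (y.1 * p.1 + y.2.1 * p.2 + y.2.2) ≤ 1 / 2 ∧
    -(x.1 * p.1 + x.2.1 * p.2 + x.2.2) + s * (y.1 * p.1 + y.2.1 * p.2 + y.2.2) ≤ 1 / 2

theorem sep {K : Set (ℝ × ℝ)} (hK : IsClosed K) (hc : Convex ℝ K) {q : ℝ × ℝ} (hq : q ∉ K) :
    ∃ f g : ℝ, ∀ z ∈ K, f * z.1 + g * z.2 < f * q.1 + g * q.2 := by
  obtain ⟨f, u, h1, h2⟩ := geometric_hahn_banach_closed_point hc hK hq
  have hf : ∀ p : ℝ × ℝ, f (1, 0) * p.1 + f (0, 1) * p.2 = f p := by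
    intro p
    have : p = p.1 • ((1, 0) : ℝ × ℝ) + p.2 • ((0, 1) : ℝ × ℝ) := by ext <;> simp
    conv_rhs => rw [this, map_add, map_smul, map_smul, smul_eq_mul, smul_eq_mul]
    ring
  exact ⟨f (1, 0), f (0, 1), fun z hz => by rw [hf, hf]; exact (h1 z hz).trans h2⟩

/-- A support line beyond the end of a chord, written in the coordinates of the direction. -/
theorem leg {K : Set (ℝ × ℝ)} (hK : IsClosed K) (hc : Convex ℝ K) {a b δ : ℝ}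
    (hn : 0 < a ^ 2 + b ^ 2) (hδ : 0 < δ) {c : ℝ × ℝ} (hc1 : c ∈ K)
    (hq : (c.1 + δ * b, c.2 - δ * a) ∉ K) :
    ∃ β : ℝ, ∀ z ∈ K, (b * (z.1 - c.1) - a * (z.2 - c.2)) / (a ^ 2 + b ^ 2) +
      β * (a * (z.1 - c.1) + b * (z.2 - c.2)) ≤ δ := by
  obtain ⟨f, g, h⟩ := sep hK hc hq
  have h0 := h c hc1
  simp only at h h0
  have hα : 0 < f * b - g * a := by
    by_contra hh
    nlinarith [mul_nonneg hδ.le (neg_nonneg.mpr (not_lt.mp hh))]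
  obtain ⟨α, hα'⟩ : ∃ α, α = f * b - g * a := ⟨_, rfl⟩
  rw [← hα'] at hα
  refine ⟨(f * a + g * b) / (α * (a ^ 2 + b ^ 2)), fun z hz => ?_⟩
  have h1 := h z hz
  have e : (b * (z.1 - c.1) - a * (z.2 - c.2)) / (a ^ 2 + b ^ 2) +
      (f * a + g * b) / (α * (a ^ 2 + b ^ 2)) * (a * (z.1 - c.1) + b * (z.2 - c.2)) =
      (f * (z.1 - c.1) + g * (z.2 - c.2)) / α := by
    field_simp
    rw [hα']
    ring
  rw [e, div_le_iff₀ hα, hα']
  nlinarith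

theorem mid_of_max {K : Set (ℝ × ℝ)} (hK : IsCompact K) (hc : Convex ℝ K)
    (hw : ∀ a b : ℝ, (a ≠ 0 ∨ b ≠ 0) → ∃ p ∈ K, ∃ q ∈ K, a * q.1 + b * q.2 < a * p.1 + b * p.2)
    (hmax : ∀ x y s, Cir K x y s → x.1 * y.2.1 - x.2.1 * y.1 ≤ 1) (a b : ℝ)
    (hab : a ≠ 0 ∨ b ≠ 0) : Mid K a b := by
  obtain ⟨p0, hp0, q0, hq0, hlt⟩ := hw a b hab
  have hn : 0 < a ^ 2 + b ^ 2 := by
    rcases hab with h | h <;> positivity
  have cφ : Continuous fun z : ℝ × ℝ => a * z.1 + b * z.2 := by fun_prop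
  obtain ⟨p, hp, hpm⟩ := hK.exists_isMaxOn ⟨p0, hp0⟩ cφ.continuousOn
  obtain ⟨q, hq, hqm⟩ := hK.exists_isMinOn ⟨p0, hp0⟩ cφ.continuousOn
  have hP : ∀ z ∈ K, a * z.1 + b * z.2 ≤ a * p.1 + b * p.2 := fun z hz => hpm hz
  have hQ : ∀ z ∈ K, a * q.1 + b * q.2 ≤ a * z.1 + b * z.2 := fun z hz => hqm hz
  obtain ⟨W, hW⟩ : ∃ W, W = a * p.1 + b * p.2 - (a * q.1 + b * q.2) := ⟨_, rfl⟩
  obtain ⟨m, hm⟩ : ∃ m, 2 * m = a * p.1 + b * p.2 + (a * q.1 + b * q.2) :=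
    ⟨(a * p.1 + b * p.2 + (a * q.1 + b * q.2)) / 2, by ring⟩
  have hW0 : 0 < W := by linarith [hP p0 hp0, hQ q0 hq0]
  have hC : IsCompact (K ∩ {z | a * z.1 + b * z.2 = m}) :=
    hK.inter_right (isClosed_eq cφ continuous_const)
  have hne : (K ∩ {z | a * z.1 + b * z.2 = m}).Nonempty := by
    refine ⟨(1 / 2 : ℝ) • p + (1 / 2 : ℝ) • q, hc hp hq (by norm_num) (by norm_num) (by norm_num), ?_⟩
    simp only [Set.mem_ofPred_eq, Prod.fst_add, Prod.snd_add, Prod.smul_fst, Prod.smul_snd,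
      smul_eq_mul]
    linarith
  have cψ : Continuous fun z : ℝ × ℝ => b * z.1 - a * z.2 := by fun_prop
  obtain ⟨c, ⟨hc1, hc2⟩, hcm⟩ := hC.exists_isMaxOn hne cψ.continuousOn
  obtain ⟨d, ⟨hd1, hd2⟩, hdm⟩ := hC.exists_isMinOn hne cψ.continuousOn
  simp only [Set.mem_ofPred_eq] at hc2 hd2
  obtain ⟨t, ht⟩ : ∃ t, t * (a ^ 2 + b ^ 2) = b * c.1 - a * c.2 - (b * d.1 - a * d.2) :=
    ⟨_, div_mul_cancel₀ _ hn.ne'⟩
  have ht0 : 0 ≤ t := by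
    have : b * d.1 - a * d.2 ≤ b * c.1 - a * c.2 := hcm ⟨hd1, hd2⟩
    by_contra hh
    nlinarith [mul_pos (neg_pos.mpr (not_le.mp hh)) hn]
  have e1 : d.1 = c.1 - t * b := by
    apply mul_right_cancel₀ hn.ne'
    linear_combination b * ht + a * hd2 - a * hc2
  have e2 : d.2 = c.2 + t * a := by
    apply mul_right_cancel₀ hn.ne'
    linear_combination -a * ht + b * hd2 - b * hc2
  refine ⟨p, hp, q, hq, c, hc1, t, ht0, by rw [← e1, ← e2]; exact hd1,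
    fun z hz => ⟨hQ z hz, hP z hz⟩, by linarith, ?_⟩
  rw [← hW]
  by_contra hh
  have hlt1 : t * W < 1 := not_le.mp hh
  obtain ⟨δ, hδ, hδ1⟩ : ∃ δ, 0 < δ ∧ (t + 2 * δ) * W < 1 := by
    refine ⟨(1 - t * W) / (4 * W), div_pos (by linarith) (by linarith), ?_⟩
    have : (t + 2 * ((1 - t * W) / (4 * W))) * W = t * W + (1 - t * W) / 2 := by
      field_simp
      ring
    rw [this]
    linarith
  obtain ⟨β, hβ⟩ := leg hK.isClosed hc hn hδ hc1 (by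
    intro h
    have : b * (c.1 + δ * b) - a * (c.2 - δ * a) ≤ b * c.1 - a * c.2 :=
      hcm (a := (c.1 + δ * b, c.2 - δ * a)) ⟨h, by
        simp only [Set.mem_ofPred_eq]
        linarith⟩
    nlinarith [mul_pos hδ hn])
  obtain ⟨γ, hγ⟩ := leg (a := -a) (b := -b) hK.isClosed hc (by nlinarith) hδ hd1 (by
    intro h
    have : b * d.1 - a * d.2 ≤ b * (d.1 + δ * -b) - a * (d.2 - δ * -a) :=
      hdm (a := (d.1 + δ * -b, d.2 - δ * -a)) ⟨h, by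
        simp only [Set.mem_ofPred_eq]
        linarith⟩
    nlinarith [mul_pos hδ hn])
  obtain ⟨T, hT⟩ : ∃ T, T = t + 2 * δ := ⟨_, rfl⟩
  have hT0 : 0 < T := by linarith
  obtain ⟨n, hn'⟩ : ∃ n, n = a ^ 2 + b ^ 2 := ⟨_, rfl⟩
  have hn0 : 0 < n := by rw [hn']; exact hn
  have k1 : ∀ z ∈ K, (b * (z.1 - c.1) - a * (z.2 - c.2)) / n + t / 2 +
      β * (a * z.1 + b * z.2 - m) ≤ T / 2 := by
    intro z hz
    have := hβ z hz
    rw [← hn'] at this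
    have e : a * (z.1 - c.1) + b * (z.2 - c.2) = a * z.1 + b * z.2 - m := by linarith
    rw [e] at this
    linarith
  have k2 : ∀ z ∈ K, -((b * (z.1 - c.1) - a * (z.2 - c.2)) / n + t / 2) -
      γ * (a * z.1 + b * z.2 - m) ≤ T / 2 := by
    intro z hz
    have := hγ z hz
    have e : -a * (z.1 - d.1) + -b * (z.2 - d.2) = -(a * z.1 + b * z.2 - m) := by linarith
    have e' : (-b * (z.1 - d.1) - -a * (z.2 - d.2)) / ((-a) ^ 2 + (-b) ^ 2) =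
        -((b * (z.1 - c.1) - a * (z.2 - c.2)) / n) - t := by
      rw [e1, e2, neg_sq, neg_sq, ← hn']
      field_simp
      rw [hn']
      ring
    rw [e, e'] at this
    linarith
  have k3 : ∀ z ∈ K, (β - γ) * (a * z.1 + b * z.2 - m) ≤ T := fun z hz => by
    linarith [k1 z hz, k2 z hz]
  have hs1 := k3 p hp
  have hs2 := k3 q hq
  have ep : a * p.1 + b * p.2 - m = W / 2 := by linarith
  have eq : a * q.1 + b * q.2 - m = -W / 2 := by linarith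
  rw [ep] at hs1
  rw [eq] at hs2
  have key := hmax ((b / n + (β + γ) / 2 * a) / T, (-a / n + (β + γ) / 2 * b) / T,
      ((-(b * c.1) + a * c.2) / n + t / 2 - (β + γ) / 2 * m) / T) (a / W, b / W, -m / W)
    ((β - γ) / 2 * W / T) ⟨by rw [le_div_iff₀ hT0]; linarith, by rw [div_le_iff₀ hT0]; linarith, by
      intro z hz
      have eY : a / W * z.1 + b / W * z.2 + -m / W = (a * z.1 + b * z.2 - m) / W := by ring
      have eX : (b / n + (β + γ) / 2 * a) / T * z.1 + (-a / n + (β + γ) / 2 * b) / T * z.2 +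
          ((-(b * c.1) + a * c.2) / n + t / 2 - (β + γ) / 2 * m) / T =
          ((b * (z.1 - c.1) - a * (z.2 - c.2)) / n + t / 2 +
            (β + γ) / 2 * (a * z.1 + b * z.2 - m)) / T := by ring
      have eS : (β - γ) / 2 * W / T * ((a * z.1 + b * z.2 - m) / W) =
          (β - γ) / 2 * (a * z.1 + b * z.2 - m) / T := by field_simp
      simp only
      rw [eY, eX, eS, ← add_div, ← neg_div T, ← add_div, le_div_iff₀ hW0, div_le_iff₀ hW0,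
        div_le_iff₀ hT0, div_le_iff₀ hT0]
      refine ⟨by linarith [hQ z hz], by linarith [hP z hz], by linarith [k1 z hz],
        by linarith [k2 z hz]⟩⟩
  simp only at key
  have e : (b / n + (β + γ) / 2 * a) / T * (b / W) - (-a / n + (β + γ) / 2 * b) / T * (a / W) =
      1 / (T * W) := by
    field_simp
    rw [hn']
    ring
  rw [e, div_le_one (mul_pos hT0 hW0), hT] at key
  linarith

theorem cir_compact {K : Set (ℝ × ℝ)} {ε : ℝ} (hε : 0 < ε)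
    (hb : ∀ p : ℝ × ℝ, |p.1| ≤ ε → |p.2| ≤ ε → p ∈ K) :
    IsCompact {w : (ℝ × ℝ × ℝ) × (ℝ × ℝ × ℝ) × ℝ | Cir K w.1 w.2.1 w.2.2} := by
  apply Metric.isCompact_of_isClosed_isBounded
  · unfold Cir
    simp only [Set.ofPred_and, Set.ofPred_forall]
    refine (isClosed_le (by fun_prop) (by fun_prop)).inter
      ((isClosed_le (by fun_prop) (by fun_prop)).inter
        (isClosed_iInter fun p => isClosed_iInter fun _ =>
          (isClosed_le (by fun_prop) (by fun_prop)).inter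
            ((isClosed_le (by fun_prop) (by fun_prop)).inter
              ((isClosed_le (by fun_prop) (by fun_prop)).inter
                (isClosed_le (by fun_prop) (by fun_prop))))))
  · rw [isBounded_iff_forall_norm_le]
    refine ⟨1 / ε + 1, ?_⟩
    rintro ⟨⟨x1, x2, x0⟩, ⟨y1, y2, y0⟩, s⟩ ⟨h1, h2, h⟩
    simp only at h1 h2 h
    have e1 : |ε| ≤ ε := (abs_of_pos hε).le
    have e2 : |-ε| ≤ ε := by rw [abs_neg]; exact e1
    have e0 : |(0 : ℝ)| ≤ ε := by rw [abs_zero]; exact hε.le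
    have g : ∀ p ∈ K, (-1 ≤ x1 * p.1 + x2 * p.2 + x0 ∧ x1 * p.1 + x2 * p.2 + x0 ≤ 1) ∧
        -1 ≤ y1 * p.1 + y2 * p.2 + y0 ∧ y1 * p.1 + y2 * p.2 + y0 ≤ 1 := by
      intro p hp
      obtain ⟨a1, a2, a3, a4⟩ := h p hp
      have : -1 / 2 ≤ s * (y1 * p.1 + y2 * p.2 + y0) := by nlinarith
      exact ⟨⟨by linarith, by linarith⟩, by linarith, by linarith⟩
    have k0 := g (0, 0) (hb _ e0 e0)
    have k1 := g (ε, 0) (hb _ e1 e0)
    have k2 := g (-ε, 0) (hb _ e2 e0)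
    have k3 := g (0, ε) (hb _ e0 e1)
    have k4 := g (0, -ε) (hb _ e0 e2)
    simp only at k0 k1 k2 k3 k4
    have hi : 0 < 1 / ε := one_div_pos.mpr hε
    have b1 : ∀ u : ℝ, -1 ≤ u * ε → u * ε ≤ 1 → |u| ≤ 1 / ε + 1 := by
      intro u a1 a2
      have c1 : u ≤ 1 / ε := by rw [le_div_iff₀ hε]; exact a2
      have c2 : -u ≤ 1 / ε := by rw [le_div_iff₀ hε]; linarith
      exact abs_le.mpr ⟨by linarith, by linarith⟩
    simp only [norm_prod_le_iff, Real.norm_eq_abs]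
    refine ⟨⟨b1 _ ?_ ?_, b1 _ ?_ ?_, abs_le.mpr ⟨?_, ?_⟩⟩, ⟨b1 _ ?_ ?_, b1 _ ?_ ?_,
      abs_le.mpr ⟨?_, ?_⟩⟩, abs_le.mpr ⟨?_, ?_⟩⟩ <;>
      linarith [k0.1.1, k0.1.2, k0.2.1, k0.2.2, k1.1.1, k1.1.2, k1.2.1, k1.2.2, k2.1.1, k2.1.2,
        k2.2.1, k2.2.2, k3.1.1, k3.1.2, k3.2.1, k3.2.2, k4.1.1, k4.1.2, k4.2.1, k4.2.2]

theorem exists_max {K : Set (ℝ × ℝ)} (hK : IsCompact K) {ε : ℝ} (hε : 0 < ε)
    (hb : ∀ p : ℝ × ℝ, |p.1| ≤ ε → |p.2| ≤ ε → p ∈ K) :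
    ∃ x y s, Cir K x y s ∧ 0 ≤ s ∧ 0 < x.1 * y.2.1 - x.2.1 * y.1 ∧
      ∀ x' y' s', Cir K x' y' s' → x'.1 * y'.2.1 - x'.2.1 * y'.1 ≤ x.1 * y.2.1 - x.2.1 * y.1 := by
  obtain ⟨R, hR, hB⟩ := hK.isBounded.exists_pos_norm_le
  have h0 : Cir K (1 / (2 * R), 0, 0) (0, 1 / (2 * R), 0) 0 := by
    refine ⟨by norm_num, by norm_num, fun p hp => ?_⟩
    have a1 := abs_le.mp ((norm_fst_le p).trans (hB p hp))
    have a2 := abs_le.mp ((norm_snd_le p).trans (hB p hp))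
    have b : ∀ u : ℝ, u ≤ R → 1 / (2 * R) * u ≤ 1 / 2 := by
      intro u hu
      rw [div_mul_eq_mul_div, div_le_iff₀ (by linarith)]
      linarith
    have b1 := b _ a1.2
    have b2 := b _ a2.2
    have b3 := b (-p.1) (by linarith [a1.1])
    have b4 := b (-p.2) (by linarith [a2.1])
    simp only
    refine ⟨by linarith, by linarith, by linarith, by linarith⟩
  have hf : Continuous fun w : (ℝ × ℝ × ℝ) × (ℝ × ℝ × ℝ) × ℝ =>
      w.1.1 * w.2.1.2.1 - w.1.2.1 * w.2.1.1 := by fun_prop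
  obtain ⟨⟨x, y, s⟩, hm, hmax⟩ := (cir_compact hε hb).exists_isMaxOn
    ⟨((1 / (2 * R), 0, 0), (0, 1 / (2 * R), 0), 0), h0⟩ hf.continuousOn
  have key : ∀ x' y' s', Cir K x' y' s' →
      x'.1 * y'.2.1 - x'.2.1 * y'.1 ≤ x.1 * y.2.1 - x.2.1 * y.1 :=
    fun x' y' s' h => hmax (a := (x', y', s')) h
  have hpos : 0 < x.1 * y.2.1 - x.2.1 * y.1 := by
    refine lt_of_lt_of_le ?_ (key _ _ _ h0)
    have : 0 < 1 / (2 * R) := by positivity
    simp only [mul_zero, sub_zero]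
    exact mul_pos this this
  have hm' : Cir K x y s := hm
  rcases le_total 0 s with hs | hs
  · exact ⟨x, y, s, hm', hs, hpos, key⟩
  · refine ⟨-x, -y, -s, ⟨by linarith [hm'.2.1], by linarith [hm'.1], fun p hp => ?_⟩, by linarith,
      ?_, fun x' y' s' h => ?_⟩
    · obtain ⟨a1, a2, a3, a4⟩ := hm'.2.2 p hp
      simp only [Prod.fst_neg, Prod.snd_neg]
      refine ⟨by linarith, by linarith, by linarith, by linarith⟩
    · simp only [Prod.fst_neg, Prod.snd_neg]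
      linarith
    · have := key x' y' s' h
      simp only [Prod.fst_neg, Prod.snd_neg]
      linarith

theorem bnd {e ε x : ℝ} (h1 : -ε ≤ e) (h2 : e ≤ ε) (h3 : -2 ≤ x) (h4 : x ≤ 2) :
    -(2 * ε) ≤ e * x ∧ e * x ≤ 2 * ε := by
  constructor <;> nlinarith

theorem fo_alg2 {A B t r ε : ℝ} (t0 : 0 ≤ t) (r1 : -1 / 2 ≤ r) (r2 : r ≤ 1 / 2)
    (q1 : r ^ 2 ≤ ε ^ 2) (m3 : t * (1 - r ^ 2) ≤ 1 - B) (m4 : 1 ≤ t * (1 + A))
    (A1 : -6 * ε ≤ A) (A2 : A ≤ 6 * ε) (B1 : -4 * ε ≤ B) (B2 : B ≤ 4 * ε) :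
    -(25 * ε ^ 2) ≤ A - B := by
  have A0 : 0 ≤ 1 + A := by
    by_contra hh
    nlinarith [mul_nonneg t0 (neg_nonneg.mpr (not_le.mp hh).le)]
  have q0 : 0 ≤ 1 - r ^ 2 := by nlinarith
  have m5 : 1 - r ^ 2 ≤ (1 - B) * (1 + A) := by
    nlinarith [mul_le_mul_of_nonneg_right m3 A0, mul_le_mul_of_nonneg_right m4 q0]
  have q2 : -(24 * ε ^ 2) ≤ A * B := by
    nlinarith [mul_nonneg (sub_nonneg.mpr A1) (sub_nonneg.mpr B1),
      mul_nonneg (sub_nonneg.mpr A2) (sub_nonneg.mpr B2)]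
  nlinarith

theorem fo_alg {s e ε U V x y c t : ℝ} (s0 : 0 ≤ s) (s1 : s ≤ 1) (e0 : 0 < ε) (e1 : ε ≤ 1 / 2)
    (ea : -ε ≤ e) (eb : e ≤ ε) (e2 : e ^ 2 = ε ^ 2) (U0 : 0 ≤ U) (V0 : 0 ≤ V) (U1 : U ≤ 2 * ε)
    (V1 : V ≤ 2 * ε) (x1 : -2 ≤ x) (x2 : x ≤ 2) (y1 : -2 ≤ y) (y2 : y ≤ 2) (t0 : 0 ≤ t)
    (m1 : c * (1 - s * e) ≤ (1 - s * (e * y + V - U)) / 2)
    (m2 : (t - c) * (1 + s * e) ≤ (1 - s * (e * y + V - U)) / 2)
    (m4 : 1 ≤ t * (1 + (e * x - U - V))) : -(25 * ε ^ 2) ≤ e * (x - s * y) := by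
  have se1 : s * e ≤ 1 / 2 := by nlinarith
  have se2 : -1 / 2 ≤ s * e := by nlinarith
  have m3 : t * (1 - (s * e) ^ 2) ≤ 1 - s * (e * y + V - U) := by
    have a1 := mul_le_mul_of_nonneg_right m1 (by linarith : 0 ≤ 1 + s * e)
    have a2 := mul_le_mul_of_nonneg_right m2 (by linarith : 0 ≤ 1 - s * e)
    linarith
  obtain ⟨a1, a2⟩ := bnd ea eb x1 x2
  obtain ⟨b1, b2⟩ := bnd ea eb y1 y2
  obtain ⟨Z, hZ⟩ : ∃ Z, Z = e * y + V - U := ⟨_, rfl⟩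
  have z1 : -4 * ε ≤ Z := by linarith
  have z2 : Z ≤ 4 * ε := by linarith
  rw [← hZ] at m3
  have q1 : (s * e) ^ 2 ≤ ε ^ 2 := by
    rw [mul_pow, e2]
    exact mul_le_of_le_one_left (sq_nonneg ε) (pow_le_one₀ s0 s1)
  have := fo_alg2 t0 se2 se1 q1 m3 m4 (by linarith) (by linarith)
    (by nlinarith [mul_nonneg s0 (sub_nonneg.mpr z1), mul_nonneg (sub_nonneg.mpr s1) e0.le])
    (by nlinarith [mul_nonneg s0 (sub_nonneg.mpr z2), mul_nonneg (sub_nonneg.mpr s1) e0.le])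
  rw [hZ] at this
  linarith [mul_nonneg U0 (sub_nonneg.mpr s1), mul_nonneg V0 s0]

/-- One half of the first-order condition. -/
theorem fo_half {K : Set (ℝ × ℝ)} {s : ℝ} (hK : IsCompact K) (s0 : 0 ≤ s) (s1 : s ≤ 1)
    (box : ∀ p ∈ K, -1 / 2 ≤ p.2 ∧ p.2 ≤ 1 / 2 ∧ p.1 + s * p.2 ≤ 1 / 2 ∧ -p.1 + s * p.2 ≤ 1 / 2)
    {u0 v0 : ℝ} (hu : (u0, 1 / 2) ∈ K) (hv : (v0, -1 / 2) ∈ K) {σ : ℝ} (hσ : σ = 1 ∨ σ = -1)
    (mid : ∀ a : ℝ, Mid K a 1) :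
    ∃ u v : ℝ, (u, 1 / 2) ∈ K ∧ (v, -1 / 2) ∈ K ∧ 0 ≤ σ * (u - v - s * (u + v)) := by
  have hf : Continuous fun w : (ℝ × ℝ) × ℝ × ℝ =>
      max (max (1 / 2 - w.1.2) (w.2.2 + 1 / 2)) (-(σ * (w.1.1 - w.2.1 - s * (w.1.1 + w.2.1)))) := by
    fun_prop
  obtain ⟨⟨p, q⟩, ⟨hp, hq⟩, hmin⟩ := (hK.prod hK).exists_isMinOn
    ⟨((u0, 1 / 2), (v0, -1 / 2)), hu, hv⟩ hf.continuousOn
  have bx : ∀ z ∈ K, -1 ≤ z.1 ∧ z.1 ≤ 1 := by
    intro z hz
    obtain ⟨a1, a2, a3, a4⟩ := box z hz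
    have : -1 / 2 ≤ s * z.2 := by nlinarith
    exact ⟨by linarith, by linarith⟩
  have hle : max (max (1 / 2 - p.2) (q.2 + 1 / 2)) (-(σ * (p.1 - q.1 - s * (p.1 + q.1)))) ≤ 0 := by
    refine le_of_forall_pos_le_add fun η hη => ?_
    obtain ⟨ε, e0, e1, e2⟩ : ∃ ε : ℝ, 0 < ε ∧ ε ≤ 1 / 2 ∧ 40 * ε ≤ η :=
      ⟨min (1 / 2) (η / 40), lt_min (by norm_num) (by linarith), min_le_left _ _, by
        linarith [min_le_right (1 / 2) (η / 40)]⟩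
    obtain ⟨P, hP, Q, hQ, c, hc, t, t0, hd, hz, hm, hA⟩ := mid (σ * ε)
    refine le_trans (hmin (a := (P, Q)) ⟨hP, hQ⟩) ?_
    obtain ⟨e, he⟩ : ∃ e, e = σ * ε := ⟨_, rfl⟩
    rw [← he] at hd hz hm hA
    have ea : -ε ≤ e ∧ e ≤ ε := by rcases hσ with h | h <;> rw [he, h] <;> constructor <;> linarith
    have e2' : e ^ 2 = ε ^ 2 := by rcases hσ with h | h <;> rw [he, h] <;> ring
    have h1 := (hz _ hu).2
    have h2 := (hz _ hv).1
    obtain ⟨bP1, bP2⟩ := bx P hP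
    obtain ⟨bQ1, bQ2⟩ := bx Q hQ
    obtain ⟨bu1, bu2⟩ := bx _ hu
    obtain ⟨bv1, bv2⟩ := bx _ hv
    obtain ⟨-, P2, -, -⟩ := box P hP
    obtain ⟨Q1, -, -, -⟩ := box Q hQ
    obtain ⟨-, -, c3, -⟩ := box c hc
    obtain ⟨-, -, -, d4⟩ := box _ hd
    simp only at h1 h2 bu1 bu2 bv1 bv2 d4
    obtain ⟨U, hU⟩ : ∃ U, U = 1 / 2 - P.2 := ⟨_, rfl⟩
    obtain ⟨V, hV⟩ : ∃ V, V = Q.2 + 1 / 2 := ⟨_, rfl⟩
    have U0 : 0 ≤ U := by linarith
    have V0 : 0 ≤ V := by linarith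
    have U1 : U ≤ 2 * ε := by
      have := (bnd ea.1 ea.2 (x := P.1 - u0) (by linarith) (by linarith)).2
      linarith
    have V1 : V ≤ 2 * ε := by
      have := (bnd ea.1 ea.2 (x := v0 - Q.1) (by linarith) (by linarith)).2
      linarith
    have q3 := fo_alg (x := P.1 - Q.1) (y := P.1 + Q.1) (c := c.1) s0 s1 e0 e1 ea.1 ea.2 e2' U0 V0 U1 V1
      (by linarith) (by linarith) (by linarith) (by linarith) t0
      (by
        have : c.2 = (e * (P.1 + Q.1) + V - U) / 2 - e * c.1 := by linarith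
        rw [this] at c3
        linarith)
      (by
        have : c.2 = (e * (P.1 + Q.1) + V - U) / 2 - e * c.1 := by linarith
        rw [this] at d4
        linarith)
      (by rw [hU, hV]; linarith)
    have q5 : -(25 * ε) ≤ σ * (P.1 - Q.1 - s * (P.1 + Q.1)) := by
      refine le_of_mul_le_mul_left ?_ e0
      rw [he] at q3
      linarith
    simp only
    exact max_le (max_le (by linarith) (by linarith)) (by linarith)
  rw [max_le_iff, max_le_iff] at hle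
  have ep : p.2 = 1 / 2 := le_antisymm (box p hp).2.1 (by linarith [hle.1.1])
  have eq : q.2 = -1 / 2 := le_antisymm (by linarith [hle.1.2]) (box q hq).1
  exact ⟨p.1, q.1, by rw [← ep]; exact hp, by rw [← eq]; exact hq, by linarith [hle.2]⟩

theorem gn_of_mid {K : Set (ℝ × ℝ)} {s : ℝ} (hK : IsCompact K) (hc : Convex ℝ K) (s0 : 0 ≤ s)
    (s1 : s ≤ 1)
    (box : ∀ p ∈ K, -1 / 2 ≤ p.2 ∧ p.2 ≤ 1 / 2 ∧ p.1 + s * p.2 ≤ 1 / 2 ∧ -p.1 + s * p.2 ≤ 1 / 2)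
    (mid : ∀ a b : ℝ, (a ≠ 0 ∨ b ≠ 0) → Mid K a b) : GN K s := by
  obtain ⟨p, hp, q, hq, c, hc1, t, t0, hd, -, hm, hA⟩ := mid 0 1 (Or.inr one_ne_zero)
  obtain ⟨-, p2, -, -⟩ := box p hp
  obtain ⟨q1, -, -, -⟩ := box q hq
  obtain ⟨-, -, c3, -⟩ := box c hc1
  obtain ⟨-, -, -, d4⟩ := box _ hd
  simp only [zero_mul, zero_add, one_mul, mul_one, mul_zero, add_zero] at hd hm hA d4
  have w0 : 0 ≤ p.2 - q.2 := by
    by_contra hh
    nlinarith [mul_nonneg t0 (neg_nonneg.mpr (not_le.mp hh).le)]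
  have h1 : t ≤ 2 - (p.2 - q.2) := by nlinarith
  have h2 : p.2 - q.2 = 1 := by
    have : (p.2 - q.2 - 1) ^ 2 ≤ 0 := by nlinarith [mul_le_mul_of_nonneg_right h1 w0]
    nlinarith [sq_nonneg (p.2 - q.2 - 1)]
  have ep : p.2 = 1 / 2 := by linarith
  have eq : q.2 = -1 / 2 := by linarith
  have ec : c.2 = 0 := by linarith
  rw [h2] at hA
  rw [ec] at c3 d4 hd
  have e1 : c.1 = 1 / 2 := by linarith
  have e2 : c.1 - t = -1 / 2 := by linarith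
  have hu : (p.1, 1 / 2) ∈ K := by rw [← ep]; exact hp
  have hv : (q.1, -1 / 2) ∈ K := by rw [← eq]; exact hq
  refine ⟨hc, hK, s0, s1, box, by rw [← e1, ← ec]; exact hc1, by rw [← e2]; exact hd, ?_, mid⟩
  obtain ⟨u, v, a1, a2, a3⟩ := fo_half hK s0 s1 box hu hv (Or.inl rfl)
    fun a => mid a 1 (Or.inr one_ne_zero)
  obtain ⟨u', v', b1, b2, b3⟩ := fo_half hK s0 s1 box hu hv (Or.inr rfl)
    fun a => mid a 1 (Or.inr one_ne_zero)
  obtain ⟨G, hG⟩ : ∃ G, G = u - v - s * (u + v) := ⟨_, rfl⟩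
  obtain ⟨H, hH⟩ : ∃ H, H = -(u' - v' - s * (u' + v')) := ⟨_, rfl⟩
  have G0 : 0 ≤ G := by linarith
  have H0 : 0 ≤ H := by linarith
  rcases G0.eq_or_lt with h | h
  · exact ⟨u, v, a1, a2, by linarith⟩
  · have hs : 0 < G + H := by linarith
    have w1 : 0 ≤ H / (G + H) := div_nonneg H0 hs.le
    have w2 : 0 ≤ G / (G + H) := div_nonneg G0 hs.le
    have w3 : H / (G + H) + G / (G + H) = 1 := by field_simp; ring
    have k1 := hc a1 b1 w1 w2 w3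
    have k2 := hc a2 b2 w1 w2 w3
    simp only [Prod.smul_mk, smul_eq_mul, Prod.mk_add_mk, ← add_mul, w3, one_mul] at k1 k2
    refine ⟨_, _, k1, k2, ?_⟩
    have : H / (G + H) * G - G / (G + H) * H = 0 := by ring
    linear_combination this - H / (G + H) * hG + G / (G + H) * hH

/-- The coordinates attached to two independent functionals. -/
noncomputable def crd (x1 x2 y1 y2 : ℝ) (h : x1 * y2 - x2 * y1 ≠ 0) : (ℝ × ℝ) ≃ₗ[ℝ] ℝ × ℝ where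
  toFun p := (x1 * p.1 + x2 * p.2, y1 * p.1 + y2 * p.2)
  invFun q := ((y2 * q.1 - x2 * q.2) / (x1 * y2 - x2 * y1),
    (x1 * q.2 - y1 * q.1) / (x1 * y2 - x2 * y1))
  map_add' p q := by
    ext <;> simp only [Prod.fst_add, Prod.snd_add, Prod.mk_add_mk] <;> ring
  map_smul' t p := by
    ext <;> simp only [Prod.smul_fst, Prod.smul_snd, smul_eq_mul, RingHom.id_apply] <;> ring
  left_inv p := by
    ext <;> simp only <;> rw [div_eq_iff h] <;> ring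
  right_inv q := by
    ext <;> simp only [← mul_div_assoc, ← add_div] <;> rw [div_eq_iff h] <;> ring

theorem core {K : Set (ℝ × ℝ)} (hK : IsCompact K) (hc : Convex ℝ K) {ε : ℝ} (hε : 0 < ε)
    (hb : ∀ p : ℝ × ℝ, |p.1| ≤ ε → |p.2| ≤ ε → p ∈ K) :
    ∃ (M : (ℝ × ℝ) ≃ₗ[ℝ] ℝ × ℝ) (o : ℝ × ℝ) (s : ℝ), GN ((fun p => M p + o) '' K) s := by
  obtain ⟨⟨x1, x2, x0⟩, ⟨y1, y2, y0⟩, s, ⟨-, s1, hcir⟩, s0, hpos, hmax⟩ := exists_max hK hε hb
  simp only at hcir hpos hmax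
  have hM : ∀ p : ℝ × ℝ, crd x1 x2 y1 y2 hpos.ne' p + (x0, y0) =
      (x1 * p.1 + x2 * p.2 + x0, y1 * p.1 + y2 * p.2 + y0) := fun p => rfl
  have hK' : IsCompact ((fun p => crd x1 x2 y1 y2 hpos.ne' p + (x0, y0)) '' K) := by
    refine hK.image ?_
    simp only [hM]
    fun_prop
  have hc' : Convex ℝ ((fun p => crd x1 x2 y1 y2 hpos.ne' p + (x0, y0)) '' K) := by
    rintro _ ⟨p, hp, rfl⟩ _ ⟨q, hq, rfl⟩ a b ha hb' hab
    refine ⟨_, hc hp hq ha hb' hab, ?_⟩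
    simp only [map_add, map_smul, smul_add]
    rw [add_add_add_comm, ← add_smul, hab, one_smul]
  refine ⟨crd x1 x2 y1 y2 hpos.ne', (x0, y0), s, gn_of_mid hK' hc' s0 s1 ?_
    (mid_of_max hK' hc' ?_ ?_)⟩
  · rintro _ ⟨p, hp, rfl⟩
    simp only [hM]
    exact hcir p hp
  · intro a b hab
    have e1 : |ε| ≤ ε := (abs_of_pos hε).le
    have e2 : |-ε| ≤ ε := by rw [abs_neg]; exact e1
    have e0 : |(0 : ℝ)| ≤ ε := by rw [abs_zero]; exact hε.le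
    rcases lt_trichotomy (a * x1 + b * y1) 0 with h | h | h
    · refine ⟨_, ⟨(-ε, 0), hb _ e2 e0, rfl⟩, _, ⟨(ε, 0), hb _ e1 e0, rfl⟩, ?_⟩
      simp only [hM]
      nlinarith [mul_pos hε (neg_pos.mpr h)]
    · rcases lt_trichotomy (a * x2 + b * y2) 0 with g | g | g
      · refine ⟨_, ⟨(0, -ε), hb _ e0 e2, rfl⟩, _, ⟨(0, ε), hb _ e0 e1, rfl⟩, ?_⟩
        simp only [hM]
        nlinarith [mul_pos hε (neg_pos.mpr g)]
      · exfalso
        rcases hab with k | k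
        · exact k ((mul_eq_zero.mp (by linear_combination y2 * h - y1 * g :
            a * (x1 * y2 - x2 * y1) = 0)).resolve_right hpos.ne')
        · exact k ((mul_eq_zero.mp (by linear_combination x1 * g - x2 * h :
            b * (x1 * y2 - x2 * y1) = 0)).resolve_right hpos.ne')
      · refine ⟨_, ⟨(0, ε), hb _ e0 e1, rfl⟩, _, ⟨(0, -ε), hb _ e0 e2, rfl⟩, ?_⟩
        simp only [hM]
        nlinarith [mul_pos hε g]
    · refine ⟨_, ⟨(ε, 0), hb _ e1 e0, rfl⟩, _, ⟨(-ε, 0), hb _ e2 e0, rfl⟩, ?_⟩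
      simp only [hM]
      nlinarith [mul_pos hε h]
  · rintro ⟨a1, a2, a0⟩ ⟨b1, b2, b0⟩ s' ⟨h1, h2, h⟩
    have := hmax (a1 * x1 + a2 * y1, a1 * x2 + a2 * y2, a1 * x0 + a2 * y0 + a0)
      (b1 * x1 + b2 * y1, b1 * x2 + b2 * y2, b1 * x0 + b2 * y0 + b0) s' ⟨h1, h2, fun p hp => by
        obtain ⟨c1, c2, c3, c4⟩ := h _ ⟨p, hp, rfl⟩
        simp only [hM] at c1 c2 c3 c4 ⊢
        refine ⟨by linarith, by linarith, by linarith, by linarith⟩⟩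
    simp only at this ⊢
    by_contra hh
    nlinarith [mul_pos hpos (sub_pos.mpr (not_le.mp hh))]

end Nrm

/-- Every convex figure is an affine image of a body in normal form. -/
theorem geo1 (F : Set (EuclideanSpace ℝ (Fin 2))) (hF : IsCompact F) (hc : Convex ℝ F)
    (hi : (interior F).Nonempty) :
    ∃ (K : Set (ℝ × ℝ)) (s : ℝ) (L : EuclideanSpace ℝ (Fin 2) ≃ₗ[ℝ] ℝ × ℝ)
      (c : EuclideanSpace ℝ (Fin 2)), GN K s ∧ ∀ x, x ∈ F ↔ L (x - c) ∈ K := by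
  obtain ⟨c, hint⟩ := hi
  let e : EuclideanSpace ℝ (Fin 2) ≃L[ℝ] ℝ × ℝ :=
    (EuclideanSpace.equiv (Fin 2) ℝ).trans (ContinuousLinearEquiv.finTwoArrow ℝ ℝ)
  have hmem : ∀ q, q ∈ (fun x => e (x - c)) '' F ↔ c + e.symm q ∈ F := by
    intro q
    constructor
    · rintro ⟨x, hx, rfl⟩
      simpa using hx
    · intro h
      exact ⟨_, h, by simp⟩
  have hnb : (fun q => c + e.symm q) ⁻¹' F ∈ nhds (0 : ℝ × ℝ) := by
    refine ContinuousAt.preimage_mem_nhds (by fun_prop) ?_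
    simpa using mem_interior_iff_mem_nhds.mp hint
  obtain ⟨ε, hε, hb⟩ := Metric.nhds_basis_closedBall.mem_iff.mp hnb
  obtain ⟨M, o, s, hM⟩ := Nrm.core (K := (fun x => e (x - c)) '' F) (hF.image (by fun_prop)) (by
      intro p hp q hq a b ha hb' hab
      rw [hmem] at hp hq ⊢
      have := hc hp hq ha hb' hab
      have e2 : a • (c + e.symm p) + b • (c + e.symm q) = c + e.symm (a • p + b • q) := by
        rw [map_add, map_smul, map_smul, smul_add, smul_add, add_add_add_comm, ← add_smul, hab,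
          one_smul]
      rwa [e2] at this) hε (by
      intro p h1 h2
      rw [hmem]
      apply hb
      rw [mem_closedBall_zero_iff, Prod.norm_def]
      exact max_le h1 h2)
  refine ⟨_, s, e.toLinearEquiv.trans M, c - e.symm (M.symm o), hM, fun x => ?_⟩
  have e3 : (e.toLinearEquiv.trans M) (x - (c - e.symm (M.symm o))) = M (e (x - c)) + o := by
    rw [sub_sub_eq_add_sub, add_sub_right_comm, LinearEquiv.trans_apply]
    simp
  rw [e3]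
  constructor
  · exact fun h => ⟨_, ⟨x, h, rfl⟩, rfl⟩
  · rintro ⟨_, ⟨y, hy, rfl⟩, h⟩
    have := e.injective (M.injective (add_right_cancel h))
    rwa [← sub_left_injective this]

end Pool.Agent.MP_34f9b1_co.Gen
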