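import Pool.Agent.MP_34f9b1_co.Geom
import Pool.Agent.MP_34f9b1_co.Gen.Nrm

namespace Pool.Agent.MP_34f9b1_co.Gen

/-- A placed piece: signed ratio (negative for a point reflection) and position. -/
structure Hm where
  t : ℝ
  x : ℝ
  y : ℝ

/-- The image of a point under a placement. -/
def Hm.ap (s : Hm) (p : ℝ × ℝ) : ℝ × ℝ := (s.x + s.t * p.1, s.y + s.t * p.2)

/-- The placed piece lies in the body. -/
def Ins (K : Set (ℝ × ℝ)) (s : Hm) : Prop := ∀ p ∈ K, s.ap p ∈ K

/-- A line separates the two placed pieces. -/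
def Spr (K : Set (ℝ × ℝ)) (s s' : Hm) : Prop :=
  ∃ a b c : ℝ, (a ≠ 0 ∨ b ≠ 0) ∧ (∀ p ∈ K, a * (s.ap p).1 + b * (s.ap p).2 ≤ c) ∧
    ∀ p ∈ K, c ≤ a * (s'.ap p).1 + b * (s'.ap p).2

theorem Spr.symm {K : Set (ℝ × ℝ)} {s s' : Hm} (h : Spr K s s') : Spr K s' s := by
  obtain ⟨a, b, c, hab, h1, h2⟩ := h
  refine ⟨-a, -b, -c, by simpa using hab, fun p hp => ?_, fun p hp => ?_⟩
  · linarith [h2 p hp]
  · linarith [h1 p hp]

/-- The sizes of the list can be packed in the body. -/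
def Pack (K : Set (ℝ × ℝ)) (l : List ℝ) : Prop :=
  ∃ S : List Hm, S.map (fun s => |s.t|) = l ∧ S.Pairwise (Spr K) ∧ ∀ s ∈ S, Ins K s

/-- Every decreasing list of positive sizes with sum of squares at most one half packs. -/
def PackAll (K : Set (ℝ × ℝ)) : Prop :=
  ∀ l : List ℝ, l.Pairwise (· ≥ ·) → (∀ x ∈ l, 0 < x) → (l.map (· ^ 2)).sum ≤ 1 / 2 → Pack K l

theorem Pack.perm {K : Set (ℝ × ℝ)} {l l' : List ℝ} (h : Pack K l) (hp : l'.Perm l) :
    Pack K l' := by
  obtain ⟨S0, e0, hD0, hI0⟩ := h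
  subst e0
  have k := congrFun (congrFun (List.eq_map_comp_perm fun s : Hm => |s.t|) l') S0
  obtain ⟨S, e, hS⟩ := (List.forall₂_comp_perm_eq_perm_comp_forall₂ (r := fun (a : ℝ) (s : Hm) =>
    a = |s.t|) ▸ (⟨_, hp, by
      rw [List.forall₂_map_left_iff]
      exact List.forall₂_same.mpr fun _ _ => rfl⟩ :
    Relation.Comp List.Perm (List.Forall₂ fun (a : ℝ) (s : Hm) => a = |s.t|) l' S0) :
    Relation.Comp (List.Forall₂ fun (a : ℝ) (s : Hm) => a = |s.t|) List.Perm l' S0)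
  refine ⟨S, ?_, (hS.pairwise_iff fun h => h.symm).2 hD0, fun s hs => hI0 s (hS.subset hs)⟩
  clear hS k hp
  induction e with
  | nil => rfl
  | cons h _ ih => rw [List.map_cons, ih, h]

theorem pack_idx {K : Set (ℝ × ℝ)} (hP : PackAll K) {n : ℕ} (r : Fin n → ℝ) (hr : ∀ i, 0 < r i)
    (hB : ∑ i, r i ^ 2 ≤ 1 / 2) :
    ∃ S : Fin n → Hm, (∀ i, |(S i).t| = r i ∧ Ins K (S i)) ∧
      ∀ i j, i ≠ j → Spr K (S i) (S j) := by
  have hp : (List.ofFn r).Perm ((List.ofFn r).mergeSort fun a b => decide (a ≥ b)) :=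
    (List.mergeSort_perm _ _).symm
  obtain ⟨S, e, hD, hI⟩ := (hP _ (List.pairwise_mergeSort' _ _) (fun x hx => by
      obtain ⟨i, rfl⟩ := List.mem_ofFn.mp (hp.symm.subset hx)
      exact hr i) (by
      rw [← (hp.map _).sum_eq, List.map_ofFn, List.sum_ofFn]
      exact hB)).perm hp
  have hlen : S.length = n := by simpa using congrArg List.length e
  subst hlen
  refine ⟨fun i => S[i], fun i => ⟨?_, hI _ (List.getElem_mem _)⟩, fun i j hij => ?_⟩
  · have h1 : (S.map fun s => |s.t|)[(i : ℕ)]'(by simp) = r i := by simp [e]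
    simpa using h1
  · rcases lt_or_gt_of_ne hij with h | h
    · exact List.pairwise_iff_getElem.mp hD _ _ _ _ h
    · exact (List.pairwise_iff_getElem.mp hD _ _ _ _ h).symm

theorem hom (h : ∀ K s, GN K s → PackAll K) {F : Set E} (hF : IsCompact F) (hc : Convex ℝ F)
    (hi : (interior F).Nonempty) {n : ℕ} (r : Fin n → ℝ) (hr : ∀ i, 0 < r i)
    (hB : ∑ i, r i ^ 2 ≤ 1 / 2) :
    ∃ (z : Fin n → E) (t : Fin n → ℝ), (∀ i, t i = r i ∨ t i = -r i) ∧
      (∀ i, (fun p => z i + t i • p) '' F ⊆ F) ∧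
      ∀ i j, i ≠ j → Disjoint (interior ((fun p => z i + t i • p) '' F))
        (interior ((fun p => z j + t j • p) '' F)) := by
  obtain ⟨K, s, L, c, hK, hL⟩ := geo1 F hF hc hi
  obtain ⟨S, hS, hD⟩ := pack_idx (h K s hK) r hr hB
  let z : Fin n → E := fun i => c + L.symm ((S i).x, (S i).y) - (S i).t • c
  have hz : ∀ i p, L (z i + (S i).t • p - c) = (S i).ap (L (p - c)) := by
    intro i p
    have : z i + (S i).t • p - c = L.symm ((S i).x, (S i).y) + (S i).t • (p - c) := by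
      simp only [z, smul_sub]
      abel
    rw [this, map_add, map_smul, LinearEquiv.apply_symm_apply]
    rfl
  refine ⟨z, fun i => (S i).t, fun i => eq_or_eq_neg_of_abs_eq (hS i).1, ?_, fun i j hij => ?_⟩
  · rintro i _ ⟨p, hp, rfl⟩
    rw [hL, hz]
    exact (hS i).2 _ ((hL p).1 hp)
  obtain ⟨a, b, k, hab, h1, h2⟩ := hD i j hij
  have hn : 0 < a ^ 2 + b ^ 2 := by
    rcases hab with h | h <;> positivity
  refine sep_interior (g := fun q => a * (L (q - c)).1 + b * (L (q - c)).2) (c := k)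
    (e := L.symm (a / (a ^ 2 + b ^ 2), b / (a ^ 2 + b ^ 2))) (fun p ε => ?_) ?_ ?_
  · rw [add_sub_right_comm, map_add, map_smul, LinearEquiv.apply_symm_apply]
    simp only [Prod.fst_add, Prod.snd_add, Prod.smul_fst, Prod.smul_snd, smul_eq_mul]
    field_simp
    ring
  · rintro _ ⟨p, hp, rfl⟩
    simp only [hz]
    exact h1 _ ((hL p).1 hp)
  · rintro _ ⟨p, hp, rfl⟩
    simp only [hz]
    exact h2 _ ((hL p).1 hp)

open MeasureTheory in
theorem final (h : ∀ K s, GN K s → PackAll K) :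
    ∀ F : Set (EuclideanSpace ℝ (Fin 2)), IsCompact F → Convex ℝ F → (interior F).Nonempty →
      ∀ (n : ℕ) (f : Fin n → Set (EuclideanSpace ℝ (Fin 2))),
        (∀ i, ∃ (r : ℝ) (ψ : EuclideanSpace ℝ (Fin 2) ≃ᵢ EuclideanSpace ℝ (Fin 2)),
            0 < r ∧ f i = (fun x => r • ψ x) '' F) →
        (∑ i, MeasureTheory.volume (f i)) = 1 →
        ∃ (Q : Set (EuclideanSpace ℝ (Fin 2))) (r : ℝ)
          (ψ : EuclideanSpace ℝ (Fin 2) ≃ᵢ EuclideanSpace ℝ (Fin 2)),
          0 < r ∧ Q = (fun x => r • ψ x) '' F ∧ MeasureTheory.volume Q = 2 ∧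
          ∃ φ : Fin n → (EuclideanSpace ℝ (Fin 2) ≃ᵢ EuclideanSpace ℝ (Fin 2)),
            (∀ i, φ i '' f i ⊆ Q) ∧
            ∀ i j, i ≠ j → Disjoint (interior (φ i '' f i)) (interior (φ j '' f j)) := by
  intro F hF hc hi n f hf hsum
  choose ρ ψ hρ hf using hf
  have hV0 : volume F ≠ 0 := (Measure.measure_pos_of_nonempty_interior _ hi).ne'
  have hV1 : volume F ≠ ⊤ := hF.measure_lt_top.ne
  obtain ⟨V, hV, eV⟩ : ∃ V : ℝ, 0 < V ∧ volume F = ENNReal.ofReal V :=
    ⟨(volume F).toReal, ENNReal.toReal_pos hV0 hV1, (ENNReal.ofReal_toReal hV1).symm⟩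
  have hs : ∑ i, ρ i ^ 2 * V = 1 := by
    have h1 : ∀ i, volume (f i) = ENNReal.ofReal (ρ i ^ 2 * V) := fun i => by
      rw [hf, volume_clone F (hρ i), eV, ENNReal.ofReal_mul (sq_nonneg _)]
    simp only [h1] at hsum
    rw [← ENNReal.ofReal_sum_of_nonneg fun i _ => by positivity] at hsum
    simpa using hsum
  let R := Real.sqrt (2 / V)
  have hR : 0 < R := Real.sqrt_pos.mpr (by positivity)
  have hR2 : R ^ 2 = 2 / V := Real.sq_sqrt (by positivity)
  obtain ⟨z, t, ht, hz, hd⟩ := hom h hF hc hi (fun i => ρ i / R) (fun i => div_pos (hρ i) hR) (by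
    simp only [div_pow, hR2]
    rw [← Finset.sum_div, ← Finset.sum_mul] at *
    rw [div_div_eq_mul_div, hs])
  have iso : ∀ i, ∃ φ : E ≃ᵢ E, ∀ x, φ (ρ i • ψ i x) = R • (z i + t i • x) := by
    intro i
    have e0 : ∀ x, ρ i • ψ i x + -(ρ i • ψ i 0) = ρ i • (ψ i).toRealLinearIsometryEquiv x := by
      intro x
      rw [IsometryEquiv.toRealLinearIsometryEquiv_apply, smul_sub, sub_eq_add_neg]
    rcases ht i with e | e
    · refine ⟨((IsometryEquiv.addRight (-(ρ i • ψ i 0))).trans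
        (ψ i).toRealLinearIsometryEquiv.symm.toIsometryEquiv).trans
        (IsometryEquiv.addLeft (R • z i)), fun x => ?_⟩
      simp only [IsometryEquiv.trans_apply, IsometryEquiv.addRight_apply, e0,
        LinearIsometryEquiv.coe_toIsometryEquiv, map_smul, LinearIsometryEquiv.symm_apply_apply,
        IsometryEquiv.addLeft_apply]
      rw [e, smul_add, smul_smul, mul_div_cancel₀ _ hR.ne']
    · refine ⟨(((IsometryEquiv.addRight (-(ρ i • ψ i 0))).trans
        (ψ i).toRealLinearIsometryEquiv.symm.toIsometryEquiv).trans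
        (LinearIsometryEquiv.neg ℝ).toIsometryEquiv).trans
        (IsometryEquiv.addLeft (R • z i)), fun x => ?_⟩
      simp only [IsometryEquiv.trans_apply, IsometryEquiv.addRight_apply, e0,
        LinearIsometryEquiv.coe_toIsometryEquiv, map_smul, LinearIsometryEquiv.symm_apply_apply,
        IsometryEquiv.addLeft_apply, LinearIsometryEquiv.coe_neg]
      rw [e, smul_add, smul_smul, mul_neg, mul_div_cancel₀ _ hR.ne', neg_smul, smul_neg]
  choose φ hφ using iso
  have him : ∀ i, φ i '' f i =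
      Homeomorph.smulOfNeZero R hR.ne' '' ((fun p => z i + t i • p) '' F) := fun i => by
    rw [hf, Set.image_image, Set.image_image]
    simp only [hφ]
    rfl
  refine ⟨_, R, IsometryEquiv.refl E, hR, rfl, ?_, φ, fun i => ?_, fun i j hij => ?_⟩
  · rw [volume_clone F hR (IsometryEquiv.refl E), eV, ← ENNReal.ofReal_mul (sq_nonneg _), hR2,
      div_mul_cancel₀ _ hV.ne']
    simp
  · rw [him]
    exact Set.image_mono (hz i)
  · rw [him, him, ← Homeomorph.image_interior, ← Homeomorph.image_interior]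
    exact Set.disjoint_image_of_injective (Homeomorph.injective _) (hd i j hij)

end Pool.Agent.MP_34f9b1_co.Gen
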