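import Pool.Agent.MP_34f9b1_co.Gen.Ms

namespace Pool.Agent.MP_34f9b1_co.Gen

open Pool.Agent.MP_34f9b1_co.Sym (Srt sqs)

/-- A compact row: the pieces lie between two lines of slope `β` at distance at most `W`, around
an admissible position of the head. -/
def Cp (K : Set (ℝ × ℝ)) (β k1 k2 g yg W : ℝ) (l : List ℝ) : Prop :=
  ∃ x x' xl : ℝ, -EL K g yg ≤ xl ∧ xl + g ≤ ER K g yg ∧ x ≤ xl + β * yg - k1 * g ∧
    xl + g + β * yg + k2 * g ≤ x' ∧ x' - x ≤ W ∧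
    Pk K {p | p ∈ St K g yg ∧ x ≤ p.1 + β * p.2 ∧ p.1 + β * p.2 ≤ x'} l

variable {K : Set (ℝ × ℝ)} {s β k1 k2 η g yg W : ℝ} {l : List ℝ}

theorem Cp.pk (h : Cp K β k1 k2 g yg W l) : Pk K (St K g yg) l := by
  obtain ⟨x, x', xl, -, -, -, -, -, h⟩ := h
  exact h.mono fun _ hp => hp.1

theorem Cp.mono {W' : ℝ} (h : Cp K β k1 k2 g yg W l) (hW : W ≤ W') : Cp K β k1 k2 g yg W' l := by
  obtain ⟨x, x', xl, h1, h2, h3, h4, h5, h⟩ := h
  exact ⟨x, x', xl, h1, h2, h3, h4, h5.trans hW, h⟩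

theorem Cp.of_mir (h : Cp (mir K) (-β) k2 k1 g yg W l) : Cp K β k1 k2 g yg W l := by
  obtain ⟨x, x', xl, h1, h2, h3, h4, h5, h⟩ := h
  rw [EL_mir] at h1
  rw [ER_mir] at h2
  refine ⟨-x', -x, -xl - g, by linarith, by linarith, by linarith, by linarith, by linarith,
    Pk.of_mir (h.mono ?_)⟩
  rintro p ⟨a1, a2, a3⟩
  exact ⟨a1, by simp only; linarith, by simp only; linarith⟩

theorem Lo.ER_nest {u a y : ℝ} (k : Lo K β u) (h : GP K s) (hg : |yg| ≤ (1 - g) / 2)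
    (hy : |y - yg| + a / 2 ≤ g / 2) :
    ER K g yg + β * yg - (g - a) * (1 + u) ≤ ER K a y + β * y := by
  have ga : a ≤ g := by linarith [abs_nonneg (y - yg)]
  obtain ⟨ζ, h1, h2⟩ := exists_eta (a := 1 - (g - a)) (y := y - yg) (by linarith)
  rw [sub_sub_cancel] at h2
  have k1 := h.ER_nest hg ga (h.Rt_mem h1)
  have k2 := mul_le_mul_of_nonneg_left (k _ (h.Rt_mem h1)) (sub_nonneg.mpr ga)
  simp only at k1 k2
  rw [← h2, add_sub_cancel] at k1
  have : β * y = β * yg + β * ((g - a) * ζ) := by rw [← h2]; ring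
  linarith

theorem Hi.EL_nest {u a y : ℝ} (k : Hi K β u) (h : GP K s) (hg : |yg| ≤ (1 - g) / 2)
    (hy : |y - yg| + a / 2 ≤ g / 2) :
    EL K g yg - β * yg - (g - a) * (1 + u) ≤ EL K a y - β * y := by
  have := k.mir.ER_nest h.mir hg hy
  rw [ER_mir, ER_mir] at this
  linarith

theorem hc_band (h : GP K s) (x x' : ℝ) :
    HC {p | p ∈ St K g yg ∧ x ≤ p.1 + β * p.2 ∧ p.1 + β * p.2 ≤ x'} :=
  fun _ _ _ _ h1 h2 a1 a2 => ⟨h.hc_St g yg _ _ _ _ h1.1 h2.1 a1 a2,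
    by linarith [h1.2.1], by linarith [h2.2.2]⟩

theorem Kap.in_band (h : GP K s) (k : Kap K β k1 k2 η) {a xa y x x' : ℝ} (h0 : 0 ≤ a)
    (hg : |yg| ≤ (1 - g) / 2) (hy : |y - yg| + a / 2 ≤ g / 2) (h1 : -EL K a y ≤ xa - a / 2)
    (h2 : xa + a / 2 ≤ ER K a y) (h3 : x ≤ xa - a / 2 + β * y - k1 * a)
    (h4 : xa + a / 2 + β * y + k2 * a ≤ x') :
    In K {p | p ∈ St K g yg ∧ x ≤ p.1 + β * p.2 ∧ p.1 + β * p.2 ≤ x'} ⟨a, xa, y⟩ := fun p hp =>
  ⟨h.in_St h0 hg hy h1 h2 p hp, h3.trans (k.lo'.up h0 hp), (k.hi'.up h0 hp).trans h4⟩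

theorem Kap.cp_one (h : GP K s) (k : Kap K β k1 k2 η) (g0 : 0 ≤ g) (hg : |yg| ≤ (1 - g) / 2) :
    Cp K β k1 k2 g yg ((1 + (k1 + k2)) * g) [g] :=
  have e := h.le_room hg
  ⟨_, _, -EL K g yg, le_rfl, by linarith, le_rfl, le_rfl, by linarith,
    Pk.up g0 (k.in_band h (xa := g / 2 - EL K g yg) (y := yg) g0 hg (by simp) (by linarith)
      (by linarith) (by linarith) (by linarith))⟩

/-- A feasible row can be made compact. -/
theorem Xt.cp {b y0 : ℝ} {r : List ℝ} (hX : Xt K g yg b y0 r) (h : GP K s) (k : Kap K β k1 k2 η)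
    (hs : (b :: r).Pairwise (· ≥ ·)) (h0 : ∀ x ∈ b :: r, 0 ≤ x) (hg : |yg| ≤ (1 - g) / 2)
    (hy : |y0 - yg| + b / 2 ≤ g / 2) :
    Cp K β k1 k2 g yg ((1 + (k1 + k2)) * (g :: b :: r).sum) (g :: b :: r) := by
  have b0 := h0 b List.mem_cons_self
  have gb : b ≤ g := by linarith [abs_nonneg (y0 - yg)]
  have g0 := b0.trans gb
  have r0 : ∀ x ∈ r, 0 ≤ x := fun x hx => h0 x (List.mem_cons_of_mem _ hx)
  have s0 := List.sum_nonneg r0
  have e1 := h.le_room hg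
  have e2 := h.le_room (fit hg hy)
  have n1 := k.lo'.ER_nest h hg hy
  have n2 := k.hi'.EL_nest h hg hy
  obtain ⟨M, hM⟩ : ∃ M, M = max (k1 * b) (k2 * r.sum) := ⟨_, rfl⟩
  have m1 : k1 * b ≤ M := hM ▸ le_max_left _ _
  have m2 : k2 * r.sum ≤ M := hM ▸ le_max_right _ _
  have c1 := mul_nonneg k.k10 b0
  have c2 := mul_nonneg k.k20 b0
  have c3 := mul_nonneg k.k10 s0
  have c4 := mul_nonneg k.k20 s0
  have c5 := mul_nonneg k.k10 g0
  have c6 := mul_nonneg k.k20 g0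
  have m3 : M ≤ k1 * b + k2 * r.sum := hM ▸ max_le (by linarith) (by linarith)
  have hE : Ex k1 k2 M (b :: r) := ⟨by linarith, ex_of_le r0 fun x hx =>
    ⟨(mul_le_mul_of_nonneg_left (List.single_le_sum r0 x hx) k.k20).trans m2,
      (mul_le_mul_of_nonneg_left ((List.pairwise_cons.mp hs).1 x hx) k.k10).trans m1⟩⟩
  rw [List.sum_cons, List.sum_cons]
  obtain ⟨D, hD⟩ : ∃ D, D = g + k2 * g + b + r.sum + M - β * (y0 - yg) := ⟨_, rfl⟩
  rcases le_total (EL K g yg + ER K b y0) D with q | q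
  · refine ⟨-EL K g yg + β * yg - k1 * g, -EL K g yg + β * y0 + D + k2 * b, -EL K g yg, le_rfl,
      by linarith, le_rfl, by linarith, by linarith, hX _ (hc_band h _ _) ?_ ?_⟩
    · exact k.in_band h g0 hg (by simp) (by linarith) (by linarith) (by linarith) (by linarith)
    · exact k.in_band h b0 hg hy (by linarith) (by linarith) (by linarith) (by linarith)
  · obtain ⟨xl, x1, x2, x3, x4⟩ : ∃ xl, -EL K g yg ≤ xl ∧ xl + g ≤ ER K g yg ∧
        -EL K b y0 ≤ xl + D - b ∧ xl + D ≤ ER K b y0 := by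
      rcases le_total (-EL K g yg) (b - D - EL K b y0) with q' | q'
      · exact ⟨b - D - EL K b y0, q', by linarith, by linarith, by linarith⟩
      · exact ⟨-EL K g yg, le_rfl, by linarith, by linarith, by linarith⟩
    refine ⟨xl + β * yg - k1 * g, xl + β * y0 + D + k2 * b, xl, x1, x2, le_rfl, by linarith,
      by linarith, h.rowA (xg := xl + g / 2) (yg := yg) (x := xl + D - b / 2) (y0 := y0)
        (hc_band h _ _) k.lo' k.hi' hs h0 hy ?_ ?_ (hE.need h0 ?_)⟩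
    · exact k.in_band h g0 hg (by simp) (by linarith) (by linarith) (by linarith) (by linarith)
    · exact k.in_band h b0 hg hy (by linarith) (by linarith) (by linarith) (by linarith)
    · rw [List.sum_cons]
      linarith

theorem Xt2.cp {b y0 : ℝ} {r : List ℝ} (hX : Xt2 K g yg b y0 r) (h : GP K s)
    (k : Kap K β k1 k2 η) (hs : (b :: r).Pairwise (· ≥ ·)) (h0 : ∀ x ∈ b :: r, 0 ≤ x)
    (hg : |yg| ≤ (1 - g) / 2) (hy : |y0 - yg| + b / 2 ≤ g / 2) :
    Cp K β k1 k2 g yg ((1 + (k1 + k2)) * (g :: b :: r).sum) (g :: b :: r) :=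
  hX.elim (fun e => e.cp h k hs h0 hg hy) fun e =>
    Cp.of_mir (add_comm k2 k1 ▸ e.cp h.mir k.mir hs h0 hg hy)

/-- Insertion of a piece at one of the two ends of a compact row. -/
theorem Cp.ins {a y : ℝ} (hC : Cp K β k1 k2 g yg W l) (h : GP K s) (k : Kap K β k1 k2 η)
    (a0 : 0 ≤ a) (hg : |yg| ≤ (1 - g) / 2) (hy : |y - yg| + a / 2 ≤ g / 2)
    (hT : W + (2 + (k1 + k2)) * a ≤ TT K a y) :
    Cp K β k1 k2 g yg (W + (1 + (k1 + k2)) * a) (l ++ [a]) := by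
  obtain ⟨x, x', xl, h1, h2, h3, h4, h5, hP⟩ := hC
  have n1 := k.lo'.ER_nest h hg hy
  have n2 := k.hi'.EL_nest h hg hy
  have c1 := mul_nonneg k.k10 a0
  have c2 := mul_nonneg k.k20 a0
  have g0 : 0 ≤ g := by linarith [abs_nonneg (y - yg)]
  have c3 := mul_nonneg k.k10 g0
  have c4 := mul_nonneg k.k20 g0
  unfold TT at hT
  rcases le_total (-EL K a y + β * y + a + k2 * a) x with q | q
  · refine ⟨x - (1 + (k1 + k2)) * a, x', xl, h1, h2, by linarith, h4, by linarith,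
      (Pk.union (sep_line β x (fun p hp => hp.2.2) (fun p hp => hp.2.1)).symm hP
        (Pk.up a0 (k.in_band h (x := x - (1 + (k1 + k2)) * a) (xa := x - k2 * a - β * y - a / 2)
          a0 hg hy (by linarith) (by linarith) (by linarith) (by linarith)))).mono ?_⟩
    rintro p (⟨a1, a2, a3⟩ | ⟨a1, a2, a3⟩) <;> exact ⟨a1, by linarith, by linarith⟩
  · refine ⟨x, x' + (1 + (k1 + k2)) * a, xl, h1, h2, h3, by linarith, by linarith,
      (Pk.union (sep_line β x' (fun p hp => hp.2.2) (fun p hp => hp.2.1)) hP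
        (Pk.up a0 (k.in_band h (x' := x' + (1 + (k1 + k2)) * a) (xa := x' + k1 * a - β * y + a / 2)
          a0 hg hy (by linarith) (by linarith) (by linarith) (by linarith)))).mono ?_⟩
    rintro p (⟨a1, a2, a3⟩ | ⟨a1, a2, a3⟩) <;> exact ⟨a1, by linarith, by linarith⟩

/-- A family given by an invariant `I`; `V0 a l` is a free length for the piece `a`, `V a l` a
free length for every piece of size at most `a`, which is then used as a container. -/
theorem MS.inv {n : ℕ} {Q : Set (ℝ × ℝ)} {ex : List ℝ} {m : ℝ} (h : GP K s) (ih : IH n K)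
    (hne : ex ≠ []) (I : List ℝ → Prop) (P0 : ℝ → List ℝ → Prop) (V : ℝ → List ℝ → ℝ) (I0 : I [])
    (hI : ∀ l, I l → Pk K Q (ex ++ l))
    (h0 : ∀ l a, Srt (l ++ [a]) → (∀ y ∈ l ++ [a], y ≤ m) → I l → I (l ++ [a]) ∨ P0 a l)
    (hV : ∀ l a x, Srt (l ++ [a]) → (∀ y ∈ l ++ [a], y ≤ m) → I l → 0 ≤ x → x ≤ a → x ≤ V a l →
      Pk K Q (ex ++ (l ++ [x]))) :
    MS n K Q ex m fun a l => P0 a l ∧ ∃ g, 0 ≤ g ∧ g ≤ a ∧ min a (V a l) ≤ g ∧
      MS n K Q (ex ++ l) a (Cont g) := by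
  refine ⟨I, I0, fun l _ _ _ k => hI l k, fun l a hl hm k => (h0 l a hl hm k).imp id fun p =>
    ⟨p, ?_⟩⟩
  have a0 : 0 ≤ a := hl.2 a (by simp)
  rcases le_total (V a l) 0 with q | q
  · refine ⟨0, le_rfl, a0, (min_le_right _ _).trans q, (MS.full (hI l k)).mono subset_rfl
      (List.Perm.refl _) le_rfl fun z l' hz _ e zg => ?_⟩
    have : z = 0 := le_antisymm zg (hz.2 z (by simp))
    subst this e
    simp [sqs]
  · refine ⟨min a (V a l), le_min a0 q, min_le_left _ _, le_rfl,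
      MS.cont h ih (by simp [hne]) ((hV l a _ hl hm k (le_min a0 q) (min_le_left _ _)
        (min_le_right _ _)).perm ?_)⟩
    rw [← List.append_assoc]
    exact List.perm_append_comm (l₁ := [_])

end Pool.Agent.MP_34f9b1_co.Gen
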