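import Pool.Agent.MP_34f9b1_co.Gen.Two
import Pool.Agent.MP_34f9b1_co.Sym.Pk

namespace Pool.Agent.MP_34f9b1_co.Gen

open Pool.Agent.MP_34f9b1_co.Sym (Srt sqs)
open Pool.Agent.MP_34f9b1_co.Sym.PkAux (srt_sub sqs_append sqs_perm sqs_cons sqs_nil sqs_nonneg)

/-- Shorter lists pack into scaled copies of the body. -/
def IH (n : ℕ) (K : Set (ℝ × ℝ)) : Prop :=
  ∀ (m : List ℝ) (v : ℝ), m.length < n → Srt m → 0 < v → sqs m ≤ v ^ 2 / 2 →
    Pack K (m.map (· / v))

/-- A family of slots in `Q` already holding `ex`: further sorted pieces of size at most `m` are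
accepted one by one (at most `n` pieces in all); when `a` is refused after `l`, `L a l` holds. -/
def MS (n : ℕ) (K Q : Set (ℝ × ℝ)) (ex : List ℝ) (m : ℝ) (L : ℝ → List ℝ → Prop) : Prop :=
  ∃ F : List ℝ → Prop, F [] ∧
    (∀ l, Srt l → (∀ x ∈ l, x ≤ m) → ex.length + l.length ≤ n → F l → Pk K Q (ex ++ l)) ∧
    ∀ l a, Srt (l ++ [a]) → (∀ x ∈ l ++ [a], x ≤ m) → F l → F (l ++ [a]) ∨ L a l

/-- Refusal by two families. -/
def Both (L L' : ℝ → List ℝ → Prop) (a : ℝ) (l : List ℝ) : Prop :=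
  ∃ l1 l2, l.Perm (l1 ++ l2) ∧ l1.Sublist l ∧ l2.Sublist l ∧ L a l1 ∧ L' a l2

/-- Refusal by a container of size `g`. -/
def Cont (g z : ℝ) (l : List ℝ) : Prop := z ≤ g → z ^ 2 ≤ sqs l ∧ g ^ 2 / 2 - z ^ 2 ≤ sqs l

variable {n : ℕ} {K Q Q' R : Set (ℝ × ℝ)} {ex ex' : List ℝ} {m m' : ℝ}
  {L L' : ℝ → List ℝ → Prop}

theorem packAll_of_ih (h : ∀ l, Srt l → sqs l ≤ 1 / 2 → IH l.length K → Pack K l) : PackAll K := by
  have key : ∀ n l, l.length = n → Srt l → sqs l ≤ 1 / 2 → Pack K l := by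
    intro n
    induction n using Nat.strong_induction_on with
    | _ n ih =>
      intro l hn h1 h2
      refine h l h1 h2 fun m v hm a1 hv a3 => ih _ (hn ▸ hm) _ (List.length_map _) ⟨?_, ?_⟩ ?_
      · exact List.pairwise_map.mpr (a1.1.imp fun h => div_le_div_of_nonneg_right h hv.le)
      · intro x hx
        obtain ⟨y, hy, rfl⟩ := List.mem_map.mp hx
        exact div_nonneg (a1.2 y hy) hv.le
      · have : sqs (m.map (· / v)) = sqs m / v ^ 2 := by
          unfold sqs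
          rw [List.map_map, div_eq_mul_inv, ← List.sum_map_mul_right]
          congr 2
          funext x
          simp only [Function.comp, div_eq_mul_inv, mul_pow, inv_pow]
        rw [this, div_le_iff₀ (by positivity)]
        linarith
  exact fun l h1 h2 h3 => key _ l rfl ⟨h1, fun x hx => (h2 x hx).le⟩ h3

/-- Maximal acceptance. -/
theorem MS.of_pk (h : Pk K Q ex)
    (hL : ∀ l a, Srt (l ++ [a]) → (∀ x ∈ l ++ [a], x ≤ m) → Pk K Q (ex ++ l) →
      Pk K Q (ex ++ (l ++ [a])) ∨ L a l) : MS n K Q ex m L :=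
  ⟨fun l => Pk K Q (ex ++ l), by simpa using h, fun _ _ _ _ h => h, hL⟩

theorem MS.full (h : Pk K Q ex) : MS n K Q ex m fun _ l => l = [] :=
  ⟨fun l => l = [], rfl, fun l _ _ _ e => by simpa [e] using h, fun _ _ _ _ e => Or.inr e⟩

theorem MS.nil : MS n K Q [] m fun _ l => l = [] := MS.full Pk.nil

theorem MS.pk (h : MS n K Q ex m L) (hn : ex.length ≤ n) : Pk K Q ex := by
  obtain ⟨F, f1, f2, -⟩ := h
  simpa using f2 [] ⟨List.Pairwise.nil, by simp⟩ (by simp) hn f1

theorem MS.mono (h1 : Q ⊆ Q') (h2 : ex'.Perm ex) (h3 : m' ≤ m)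
    (h4 : ∀ a l, Srt (l ++ [a]) → (∀ x ∈ l ++ [a], x ≤ m') → L a l → L' a l)
    (h : MS n K Q ex m L) : MS n K Q' ex' m' L' := by
  obtain ⟨F, f1, f2, f3⟩ := h
  exact ⟨F, f1, fun l hl hm hn hF => ((f2 l hl (fun x hx => (hm x hx).trans h3)
      (h2.length_eq ▸ hn) hF).perm (h2.append_right l)).mono h1,
    fun l a hl hm hF => (f3 l a hl (fun x hx => (hm x hx).trans h3) hF).imp id (h4 a l hl hm)⟩

/-- Two families whose packings combine. -/
theorem MS.both {D : Set (ℝ × ℝ)} (h : ∀ l l', Pk K Q l → Pk K R l' → Pk K D (l ++ l'))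
    (h1 : MS n K Q ex m L) (h2 : MS n K R ex' m L') : MS n K D (ex ++ ex') m (Both L L') := by
  obtain ⟨F, f1, f2, f3⟩ := h1
  obtain ⟨G, g1, g2, g3⟩ := h2
  refine ⟨fun l => ∃ l1 l2, List.Perm l (l1 ++ l2) ∧ List.Sublist l1 l ∧ List.Sublist l2 l ∧
    F l1 ∧ G l2, ⟨[], [], List.Perm.refl _, List.Sublist.refl _, List.Sublist.refl _, f1, g1⟩,
    ?_, ?_⟩
  · rintro l hl hm hn ⟨l1, l2, h1, h2, h3, h4, h5⟩
    have e2 := h2.length_le
    have e3 := h3.length_le
    rw [List.length_append] at hn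
    refine (h _ _ (f2 l1 (srt_sub h2 hl) (fun x hx => hm x (h2.subset hx)) (by omega) h4)
        (g2 l2 (srt_sub h3 hl) (fun x hx => hm x (h3.subset hx)) (by omega) h5)).perm ?_
    refine (h1.append_left _).trans ?_
    simp only [List.append_assoc]
    exact (List.perm_append_comm_assoc _ _ _).append_left _
  · rintro l a hl hm ⟨l1, l2, h1, h2, h3, h4, h5⟩
    have k2 : List.Sublist (l1 ++ [a]) (l ++ [a]) := h2.append_right _
    have k3 : List.Sublist (l2 ++ [a]) (l ++ [a]) := h3.append_right _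
    rcases f3 l1 a (srt_sub k2 hl) (fun x hx => hm x (k2.subset hx)) h4 with p | p
    · refine Or.inl ⟨l1 ++ [a], l2, (h1.append_right _).trans ?_, k2,
        h3.trans (List.sublist_append_left _ _), p, h5⟩
      simp only [List.append_assoc]
      exact List.perm_append_comm.append_left _
    rcases g3 l2 a (srt_sub k3 hl) (fun x hx => hm x (k3.subset hx)) h5 with q | q
    · refine Or.inl ⟨l1, l2 ++ [a], ?_, h2.trans (List.sublist_append_left _ _), k3, h4, q⟩
      rw [← List.append_assoc]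
      exact h1.append_right _
    · exact Or.inr ⟨l1, l2, h1, h2, h3, p, q⟩

theorem MS.union (h : Sep Q R) (h1 : MS n K Q ex m L) (h2 : MS n K R ex' m L') :
    MS n K (Q ∪ R) (ex ++ ex') m (Both L L') := MS.both (fun _ _ => Pk.union h) h1 h2

/-- A refusal leaves the family open for smaller pieces. -/
theorem MS.resid (h : MS n K Q ex m L) : MS n K Q ex m fun a l =>
    L a l ∧ MS n K Q (ex ++ l) a fun z l' => L z (l ++ l') := by
  obtain ⟨F, f1, f2, f3⟩ := h
  refine ⟨F, f1, f2, fun l a hl hm hF => (f3 l a hl hm hF).imp id fun p => ⟨p, ?_⟩⟩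
  have hla : ∀ x ∈ l, a ≤ x := fun x hx =>
    (List.pairwise_append.mp hl.1).2.2 x hx a (List.mem_singleton_self a)
  have sl : Srt l := srt_sub (List.sublist_append_left _ _) hl
  have am : a ≤ m := hm a (by simp)
  have key : ∀ l', Srt l' → (∀ x ∈ l', x ≤ a) → Srt (l ++ l') ∧ ∀ x ∈ l ++ l', x ≤ m :=
    fun l' h1 h2 => ⟨⟨List.pairwise_append.mpr ⟨sl.1, h1.1, fun x hx y hy =>
      (h2 y hy).trans (hla x hx)⟩, fun x hx => (List.mem_append.mp hx).elim (sl.2 x) (h1.2 x)⟩,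
      fun x hx => (List.mem_append.mp hx).elim (fun k => hm x (List.mem_append_left _ k))
        fun k => (h2 x k).trans am⟩
  refine ⟨fun l' => F (l ++ l'), by simpa using hF, fun l' h1 h2 h3 h4 => ?_,
    fun l' z h1 h2 h3 => ?_⟩
  · rw [List.append_assoc]
    exact f2 _ (key l' h1 h2).1 (key l' h1 h2).2 (by simp at h3 ⊢; omega) h4
  · have k := key _ h1 h2
    rw [← List.append_assoc] at k
    exact (f3 _ z k.1 k.2 h3).imp (fun e => by rwa [List.append_assoc] at e) id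

theorem MS.run (hM : MS n K Q ex m L) {l : List ℝ} (hl : Srt l) (hm : ∀ x ∈ l, x ≤ m)
    (hn : ex.length + l.length ≤ n) :
    Pk K Q (ex ++ l) ∨ ∃ l1 a l2, l = l1 ++ a :: l2 ∧ L a l1 := by
  obtain ⟨F, f1, f2, f3⟩ := hM
  have key : ∀ l2 l1 : List ℝ, l = l1 ++ l2 → F l1 → Pk K Q (ex ++ l) ∨
      ∃ l1 a l2, l = l1 ++ a :: l2 ∧ L a l1 := by
    intro l2
    induction l2 with
    | nil =>
      intro l1 e hF
      rw [List.append_nil] at e
      exact Or.inl (f2 l hl hm hn (e ▸ hF))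
    | cons a l2 ih =>
      intro l1 e hF
      have e' : l = (l1 ++ [a]) ++ l2 := by rw [e, List.append_assoc]; rfl
      have k : List.Sublist (l1 ++ [a]) l := e' ▸ List.sublist_append_left _ _
      rcases f3 l1 a (srt_sub k hl) (fun x hx => hm x (k.subset hx)) hF with p | p
      · exact ih _ e' p
      · exact Or.inr ⟨l1, a, l2, e, p⟩
  exact key l [] rfl f1

/-- A packed size `g` serves as a container. -/
theorem MS.cont {s g : ℝ} (h : GP K s) (ih : IH n K) (hne : ex ≠ []) (hP : Pk K Q (g :: ex)) :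
    MS n K Q ex m (Cont g) := by
  refine ⟨fun l => l = [] ∨ (∃ x, l = [x] ∧ x ≤ g) ∨ (0 < g ∧ sqs l ≤ g ^ 2 / 2), Or.inl rfl,
    ?_, fun l a hl _ hF => ?_⟩
  · rintro l hl - hn (rfl | ⟨x, rfl, hx⟩ | ⟨g0, hg⟩)
    · simpa using hP.sublist (List.sublist_cons_self _ _)
    · exact (hP.shrink h.cvx ⟨_, h.rt⟩ (hl.2 x (by simp)) hx).perm List.perm_append_comm
    · have := List.length_pos_iff.mpr hne
      exact (hP.recur' g0 (ih l g (by omega) hl g0 hg)).perm List.perm_append_comm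
  · by_cases hag : a ≤ g
    · have a0 : 0 ≤ a := hl.2 a (by simp)
      rcases l with _ | ⟨x, l⟩
      · exact Or.inl (Or.inr (Or.inl ⟨a, rfl, hag⟩))
      · have hx : a ≤ x := (List.pairwise_append.mp hl.1).2.2 x (by simp) a (by simp)
        by_cases q : 0 < g ∧ sqs (x :: l ++ [a]) ≤ g ^ 2 / 2
        · exact Or.inl (Or.inr (Or.inr q))
        · refine Or.inr fun _ => ⟨by
            rw [sqs_cons]; nlinarith [sqs_nonneg l], ?_⟩
          rcases not_and_or.mp q with q | q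
          · rw [le_antisymm hag ((not_lt.mp q).trans a0)]
            nlinarith [sqs_nonneg (x :: l), sq_nonneg g]
          · rw [sqs_append, sqs_cons a, sqs_nil] at q
            linarith [not_le.mp q]
    · exact Or.inr fun k => absurd k hag

/-- The gain of a container: the row holds `l`, of total length above `d + a - g`. -/
theorem cont_gain {g a z z0 z1 b s : ℝ} {l : List ℝ} (hc : Cont g z l) (z00 : 0 ≤ z0)
    (h0 : z0 ≤ z) (h1 : z ≤ z1) (hg : g ≤ a) (g0 : 0 ≤ g) (hs : a * (a - g) ≤ s)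
    (b1 : b ≤ max (z0 ^ 2) (a ^ 2 / 2 - z1 ^ 2)) (b2 : b ≤ a * (a - z1)) : b ≤ s + sqs l := by
  have a0 : 0 ≤ a := g0.trans hg
  have s0 := mul_nonneg a0 (sub_nonneg.mpr hg)
  rcases le_total z g with e | e
  · obtain ⟨c1, c2⟩ := hc e
    refine b1.trans (max_le (by nlinarith) (by nlinarith [sq_nonneg (a - g)]))
  · nlinarith [sqs_nonneg l]

end Pool.Agent.MP_34f9b1_co.Gen
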