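import Pool.Agent.MP_34f9b1_co.Gen.Glue

namespace Pool.Agent.MP_34f9b1_co.Gen

/-- The sizes of the list can be packed in the region `A`. -/
def Pk (K A : Set (ℝ × ℝ)) (l : List ℝ) : Prop :=
  ∃ S : List Hm, S.map (fun s => |s.t|) = l ∧ S.Pairwise (Spr K) ∧ ∀ s ∈ S, ∀ p ∈ K, s.ap p ∈ A

/-- A line separates the two regions. -/
def Sep (A B : Set (ℝ × ℝ)) : Prop :=
  ∃ a b c : ℝ, (a ≠ 0 ∨ b ≠ 0) ∧ (∀ p ∈ A, a * p.1 + b * p.2 ≤ c) ∧ ∀ p ∈ B, c ≤ a * p.1 + b * p.2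

/-- Composition of placements. -/
def Hm.comp (s u : Hm) : Hm := ⟨s.t * u.t, s.x + s.t * u.x, s.y + s.t * u.y⟩

theorem Hm.comp_ap (s u : Hm) (p : ℝ × ℝ) : (s.comp u).ap p = s.ap (u.ap p) := by
  simp only [Hm.comp, Hm.ap]
  ext <;> simp only <;> ring

variable {K A B : Set (ℝ × ℝ)}

theorem pack_iff {l : List ℝ} : Pack K l ↔ Pk K K l := Iff.rfl

theorem Sep.symm (h : Sep A B) : Sep B A := by
  obtain ⟨a, b, c, hab, h1, h2⟩ := h
  refine ⟨-a, -b, -c, by simpa using hab, fun p hp => ?_, fun p hp => ?_⟩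
  · linarith [h2 p hp]
  · linarith [h1 p hp]

theorem Sep.mono {A' B' : Set (ℝ × ℝ)} (h : Sep A B) (hA : A' ⊆ A) (hB : B' ⊆ B) : Sep A' B' := by
  obtain ⟨a, b, c, hab, h1, h2⟩ := h
  exact ⟨a, b, c, hab, fun p hp => h1 p (hA hp), fun p hp => h2 p (hB hp)⟩

theorem Pk.nil : Pk K A [] := ⟨[], rfl, List.Pairwise.nil, by simp⟩

theorem Pk.mono {l : List ℝ} (h : Pk K A l) (hAB : A ⊆ B) : Pk K B l := by
  obtain ⟨S, e, hD, hI⟩ := h
  exact ⟨S, e, hD, fun s hs p hp => hAB (hI s hs p hp)⟩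

theorem Pk.one {s : Hm} (h : ∀ p ∈ K, s.ap p ∈ A) : Pk K A [|s.t|] :=
  ⟨[s], rfl, List.pairwise_singleton _ _, by simpa using h⟩

theorem Pk.perm {l l' : List ℝ} (h : Pk K A l) (hp : l'.Perm l) : Pk K A l' := by
  obtain ⟨S0, e0, hD0, hI0⟩ := h
  have k := congrFun (congrFun (List.eq_map_comp_perm fun s : Hm => |s.t|) l') S0
  obtain ⟨S, e, hS⟩ := k.mpr (e0 ▸ hp)
  exact ⟨S, e.symm, (hS.pairwise_iff fun h => h.symm).2 hD0, fun s hs => hI0 s (hS.subset hs)⟩

theorem Pk.sublist {l l' : List ℝ} (h : Pk K A l) (hs : l'.Sublist l) : Pk K A l' := by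
  obtain ⟨S, rfl, hD, hI⟩ := h
  obtain ⟨S', h1, h2⟩ := List.sublist_map_iff.mp hs
  exact ⟨S', h2.symm, hD.sublist h1, fun s hs => hI s (h1.subset hs)⟩

theorem Pk.subperm {l l' : List ℝ} (h : Pk K A l) (hs : l'.Subperm l) : Pk K A l' := by
  obtain ⟨m, h1, h2⟩ := hs
  exact (h.sublist h2).perm h1.symm

theorem Pk.union {l m : List ℝ} (hs : Sep A B) (h1 : Pk K A l) (h2 : Pk K B m) :
    Pk K (A ∪ B) (l ++ m) := by
  obtain ⟨S, rfl, hD, hI⟩ := h1
  obtain ⟨T, rfl, hE, hJ⟩ := h2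
  obtain ⟨a, b, c, hab, k1, k2⟩ := hs
  refine ⟨S ++ T, List.map_append, List.pairwise_append.mpr ⟨hD, hE, fun s hs t ht =>
    ⟨a, b, c, hab, fun p hp => k1 _ (hI s hs p hp), fun p hp => k2 _ (hJ t ht p hp)⟩⟩, ?_⟩
  intro s hs p hp
  rcases List.mem_append.mp hs with h | h
  · exact Or.inl (hI s h p hp)
  · exact Or.inr (hJ s h p hp)

theorem Spr.comp {s u u' : Hm} (h : Spr K u u') (hs : s.t ≠ 0) : Spr K (s.comp u) (s.comp u') := by
  obtain ⟨a, b, c, hab, h1, h2⟩ := h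
  refine ⟨a / s.t, b / s.t, c + (a * s.x + b * s.y) / s.t, by simpa [hs] using hab,
    fun p hp => ?_, fun p hp => ?_⟩
  · have : a / s.t * ((s.comp u).ap p).1 + b / s.t * ((s.comp u).ap p).2 =
        a * (u.ap p).1 + b * (u.ap p).2 + (a * s.x + b * s.y) / s.t := by
      rw [Hm.comp_ap]
      simp only [Hm.ap]
      field_simp
      ring
    linarith [h1 p hp]
  · have : a / s.t * ((s.comp u').ap p).1 + b / s.t * ((s.comp u').ap p).2 =
        a * (u'.ap p).1 + b * (u'.ap p).2 + (a * s.x + b * s.y) / s.t := by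
      rw [Hm.comp_ap]
      simp only [Hm.ap]
      field_simp
      ring
    linarith [h2 p hp]

theorem Spr.comp_left {s u s' : Hm} (h : Spr K s s') (hu : Ins K u) : Spr K (s.comp u) s' := by
  obtain ⟨a, b, c, hab, h1, h2⟩ := h
  exact ⟨a, b, c, hab, fun p hp => by rw [Hm.comp_ap]; exact h1 _ (hu p hp), h2⟩

/-- Recursion: a packed size is replaced by a list packed in the scaled body. -/
theorem Pk.recur {v : ℝ} {l m : List ℝ} (hv : 0 < v) (h : Pk K A (v :: l)) (hm : Pack K m) :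
    Pk K A (m.map (v * ·) ++ l) := by
  obtain ⟨S, e, hD, hI⟩ := h
  obtain ⟨T, rfl, hE, hJ⟩ := hm
  obtain ⟨s, S, rfl, e1, rfl⟩ := List.map_eq_cons_iff.mp e
  have hs : s.t ≠ 0 := abs_pos.mp (e1 ▸ hv)
  rw [List.pairwise_cons] at hD
  refine ⟨T.map s.comp ++ S, ?_, List.pairwise_append.mpr ⟨?_, hD.2, ?_⟩, ?_⟩
  · rw [List.map_append, List.map_map, List.map_map]
    congr 2
    funext u
    simp only [Function.comp, Hm.comp, abs_mul, e1]
  · exact List.pairwise_map.mpr (hE.imp fun h => h.comp hs)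
  · intro a ha b hb
    obtain ⟨u, hu, rfl⟩ := List.mem_map.mp ha
    exact (hD.1 b hb).comp_left (hJ u hu)
  · intro a ha p hp
    rcases List.mem_append.mp ha with h | h
    · obtain ⟨u, hu, rfl⟩ := List.mem_map.mp h
      rw [Hm.comp_ap]
      exact hI s List.mem_cons_self _ (hJ u hu p hp)
    · exact hI a (List.mem_cons_of_mem _ h) p hp

/-- Recursion in unscaled form. -/
theorem Pk.recur' {v : ℝ} {l m : List ℝ} (hv : 0 < v) (h : Pk K A (v :: l))
    (hm : Pack K (m.map (· / v))) : Pk K A (m ++ l) := by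
  have := h.recur hv hm
  rwa [List.map_map, show ((v * ·) ∘ (· / v)) = id from funext fun x => mul_div_cancel₀ x hv.ne',
    List.map_id] at this

/-- A homothet whose position lies in the complementary homothet is inside. -/
theorem ins_up (hc : Convex ℝ K) {a : ℝ} (h0 : 0 ≤ a) (h1 : a ≤ 1) {z : ℝ × ℝ} (hz : z ∈ K) :
    Ins K ⟨a, (1 - a) * z.1, (1 - a) * z.2⟩ := fun _ hp =>
  hc hz hp (sub_nonneg.mpr h1) h0 (sub_add_cancel 1 a)

theorem Pk.shrink (hc : Convex ℝ K) (hne : K.Nonempty) {v a : ℝ} {l : List ℝ} (h0 : 0 ≤ a)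
    (hav : a ≤ v) (h : Pk K A (v :: l)) : Pk K A (a :: l) := by
  rcases (h0.trans hav).eq_or_lt with e | hv
  · rwa [le_antisymm (hav.trans e.ge) h0, e]
  obtain ⟨z, hz⟩ := hne
  have h1 : 0 ≤ a / v := div_nonneg h0 hv.le
  have := Pk.one (A := K) (ins_up hc h1 ((div_le_one hv).mpr hav) hz)
  rw [abs_of_nonneg h1] at this
  exact h.recur' (m := [a]) hv this

theorem Pk.forall₂ (hc : Convex ℝ K) (hne : K.Nonempty) {l l' : List ℝ}
    (hl : List.Forall₂ (fun a v => 0 ≤ a ∧ a ≤ v) l' l) (m : List ℝ) (h : Pk K A (l ++ m)) :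
    Pk K A (l' ++ m) := by
  induction hl generalizing m with
  | nil => exact h
  | @cons a v l' l hav _ ih =>
    have h1 := h.shrink hc hne hav.1 hav.2
    exact (ih (a :: m) (h1.perm List.perm_middle)).perm List.perm_middle.symm

/-- Induction on the number of pieces. -/
theorem packAll_of_step
    (h : ∀ l : List ℝ, l.Pairwise (· ≥ ·) → (∀ x ∈ l, 0 < x) → (l.map (· ^ 2)).sum ≤ 1 / 2 →
      (∀ (m : List ℝ) (v : ℝ), m.length < l.length → m.Pairwise (· ≥ ·) → (∀ x ∈ m, 0 < x) →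
        0 < v → (m.map (· ^ 2)).sum ≤ v ^ 2 / 2 → Pack K (m.map (· / v))) → Pack K l) :
    PackAll K := by
  intro l
  induction hn : l.length using Nat.strong_induction_on generalizing l with
  | _ n ih =>
    intro h1 h2 h3
    refine h l h1 h2 h3 fun m v hm a1 a2 hv a3 => ih _ (hn ▸ hm) _ (List.length_map _) ?_ ?_ ?_
    · exact List.pairwise_map.mpr (a1.imp fun h => div_le_div_of_nonneg_right h hv.le)
    · intro x hx
      obtain ⟨y, hy, rfl⟩ := List.mem_map.mp hx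
      exact div_pos (a2 y hy) hv
    · have : ((m.map (· / v)).map (· ^ 2)).sum = (m.map (· ^ 2)).sum / v ^ 2 := by
        rw [List.map_map, div_eq_mul_inv, ← List.sum_map_mul_right]
        congr 2
        funext x
        simp only [Function.comp, div_eq_mul_inv, mul_pow, inv_pow]
      rw [this, div_le_iff₀ (by positivity)]
      linarith

end Pool.Agent.MP_34f9b1_co.Gen
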