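import Pool.Agent.MP_34f9b1_co.Gen.Chord

namespace Pool.Agent.MP_34f9b1_co.Gen

/-- Admissible abscissae of the centre of an upright piece of size `a` at height `y`. -/
def sl (K : Set (ℝ × ℝ)) (a y : ℝ) : Set ℝ :=
  {x | ∃ p ∈ K, x = (1 - a) * p.1 ∧ y = (1 - a) * p.2}

/-- Right end of the room of an upright piece of size `a` centred at height `y`. -/
noncomputable def ER (K : Set (ℝ × ℝ)) (a y : ℝ) : ℝ := a / 2 + sSup (sl K a y)

/-- Minus the left end of the room. -/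
noncomputable def EL (K : Set (ℝ × ℝ)) (a y : ℝ) : ℝ := ER (mir K) a y

/-- Upper bound of a slanted coordinate. -/
def Hi (K : Set (ℝ × ℝ)) (β u : ℝ) : Prop := ∀ p ∈ K, p.1 + β * p.2 ≤ 1 / 2 + u

/-- Lower bound of a slanted coordinate. -/
def Lo (K : Set (ℝ × ℝ)) (β l : ℝ) : Prop := ∀ p ∈ K, -1 / 2 - l ≤ p.1 + β * p.2

/-- At every height within `m / 2` of `y0` the body has a point left of the line. -/
def WL (K : Set (ℝ × ℝ)) (β c y0 m : ℝ) : Prop :=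
  ∀ y, |y - y0| ≤ m / 2 → ∃ x, (x, y) ∈ K ∧ x + β * y ≤ c

/-- At every height within `m / 2` of `y0` the body has a point right of the line. -/
def WR (K : Set (ℝ × ℝ)) (β c y0 m : ℝ) : Prop :=
  ∀ y, |y - y0| ≤ m / 2 → ∃ x, (x, y) ∈ K ∧ c ≤ x + β * y

/-- Length needed by an alternating chain: extra cost `u` for the first piece, `d` for the
second, and so on. -/
def Need : ℝ → ℝ → ℝ → List ℝ → Prop
  | _, _, _, [] => True
  | u, d, L, b :: r => b + u * b ≤ L ∧ Need d u (L - b) r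

variable {K A : Set (ℝ × ℝ)} {s : ℝ}

theorem exists_eta {a y : ℝ} (hy : |y| ≤ (1 - a) / 2) : ∃ η, |η| ≤ 1 / 2 ∧ y = (1 - a) * η := by
  have h0 : 0 ≤ 1 - a := by linarith [abs_nonneg y]
  rcases h0.eq_or_lt with e | e
  · refine ⟨0, by norm_num, ?_⟩
    rw [← e, zero_div] at hy
    rw [mul_zero]
    exact abs_nonpos_iff.1 hy
  · refine ⟨y / (1 - a), ?_, by field_simp⟩
    rw [abs_div, abs_of_pos e, div_le_iff₀ e]
    linarith

theorem GP.ER_eq (h : GP K s) {a η : ℝ} (ha : a ≤ 1) (hη : |η| ≤ 1 / 2) :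
    ER K a ((1 - a) * η) = a / 2 + (1 - a) * Rt K η := by
  unfold ER
  congr 1
  refine IsGreatest.csSup_eq ⟨⟨_, h.Rt_mem hη, rfl, rfl⟩, ?_⟩
  rintro x ⟨p, hp, rfl, e⟩
  rcases (sub_nonneg.mpr ha).eq_or_lt with e0 | e0
  · rw [← e0, zero_mul, zero_mul]
  · rw [mul_left_cancel₀ e0.ne' e]
    exact mul_le_mul_of_nonneg_left (h.le_Rt hp) e0.le

theorem GP.EL_eq (h : GP K s) {a η : ℝ} (ha : a ≤ 1) (hη : |η| ≤ 1 / 2) :
    EL K a ((1 - a) * η) = a / 2 + (1 - a) * Lf K η := h.mir.ER_eq ha hη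

theorem EL_mir (a y : ℝ) : EL (mir K) a y = ER K a y := by rw [EL, mir_mir]

theorem ER_mir (a y : ℝ) : ER (mir K) a y = EL K a y := rfl

theorem ER_flp (a y : ℝ) : ER (flp K) a y = ER K a (-y) := by
  unfold ER
  congr 2
  ext x
  constructor
  · rintro ⟨p, hp, e1, e2⟩
    exact ⟨_, hp, e1, by simp [e2]⟩
  · rintro ⟨p, hp, e1, e2⟩
    exact ⟨(p.1, -p.2), by simpa [flp] using hp, e1, by simp only; linarith⟩

theorem EL_flp (a y : ℝ) : EL (flp K) a y = EL K a (-y) := ER_flp (K := mir K) a y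

/-- Total room. -/
theorem GP.room (h : GP K s) {a η : ℝ} (ha : a ≤ 1) (hη : |η| ≤ 1 / 2) :
    ER K a ((1 - a) * η) + EL K a ((1 - a) * η) = a + (1 - a) * wd K η := by
  rw [h.ER_eq ha hη, h.EL_eq ha hη, wd]
  ring

theorem GP.le_room (h : GP K s) {a y : ℝ} (hy : |y| ≤ (1 - a) / 2) : a ≤ ER K a y + EL K a y := by
  have ha : a ≤ 1 := by linarith [abs_nonneg y]
  obtain ⟨η, h1, rfl⟩ := exists_eta hy
  rw [h.room ha h1]
  linarith [mul_nonneg (sub_nonneg.mpr ha) (h.wd_nonneg h1)]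

/-- A line below the chord lengths gives a line below the rooms. -/
theorem GP.room_ge (h : GP K s) {a y c : ℝ} (hy : |y| ≤ (1 - a) / 2)
    (hc : ∀ η, |η| ≤ 1 / 2 → y = (1 - a) * η → c ≤ a + (1 - a) * wd K η) :
    c ≤ ER K a y + EL K a y := by
  obtain ⟨η, h1, e⟩ := exists_eta hy
  rw [e, h.room (by linarith [abs_nonneg y]) h1]
  exact hc η h1 e

theorem GP.le_ER (h : GP K s) {a : ℝ} (ha : a ≤ 1) {p : ℝ × ℝ} (hp : p ∈ K) :
    a / 2 + (1 - a) * p.1 ≤ ER K a ((1 - a) * p.2) := by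
  rw [h.ER_eq ha (h.abs_y hp)]
  linarith [mul_le_mul_of_nonneg_left (h.le_Rt (x := p.1) (y := p.2) hp) (sub_nonneg.mpr ha)]

theorem Hi.ER_le {β u a y : ℝ} (k : Hi K β u) (h : GP K s) (hy : |y| ≤ (1 - a) / 2) :
    ER K a y + β * y ≤ 1 / 2 + (1 - a) * u := by
  have ha : a ≤ 1 := by linarith [abs_nonneg y]
  obtain ⟨η, h1, rfl⟩ := exists_eta hy
  rw [h.ER_eq ha h1]
  linarith [mul_le_mul_of_nonneg_left (k _ (h.Rt_mem h1)) (sub_nonneg.mpr ha)]

/-- The room is jointly concave in size and height. -/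
theorem GP.ER_conc (h : GP K s) {a y b z l m : ℝ} (hy : |y| ≤ (1 - a) / 2)
    (hz : |z| ≤ (1 - b) / 2) (hl : 0 ≤ l) (hm : 0 ≤ m) (hlm : l + m = 1) :
    l * ER K a y + m * ER K b z ≤ ER K (l * a + m * b) (l * y + m * z) := by
  have ha : a ≤ 1 := by linarith [abs_nonneg y]
  have hb : b ≤ 1 := by linarith [abs_nonneg z]
  obtain ⟨η, h1, rfl⟩ := exists_eta hy
  obtain ⟨ζ, h2, rfl⟩ := exists_eta hz
  obtain ⟨q, hq, e⟩ := h.cvx.exists_mem_add_smul_eq (h.Rt_mem h1) (h.Rt_mem h2)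
    (mul_nonneg hl (sub_nonneg.2 ha)) (mul_nonneg hm (sub_nonneg.2 hb))
  have q1 := congrArg Prod.fst e
  have q2 := congrArg Prod.snd e
  simp only [Prod.smul_fst, Prod.smul_snd, Prod.fst_add, Prod.snd_add, smul_eq_mul] at q1 q2
  have e0 : l * (1 - a) + m * (1 - b) = 1 - (l * a + m * b) := by linarith
  rw [e0] at q1 q2
  have k := h.le_ER (a := l * a + m * b) (by nlinarith) hq
  rw [q2, q1] at k
  rw [h.ER_eq ha h1, h.ER_eq hb h2, ← mul_assoc l, ← mul_assoc m]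
  linarith

/-- A smaller piece inside a larger one, with homothety centre `p`. -/
theorem GP.ER_nest (h : GP K s) {a a' y : ℝ} (hy : |y| ≤ (1 - a) / 2) (h1 : a' ≤ a) {p : ℝ × ℝ}
    (hp : p ∈ K) : ER K a y - (a - a') / 2 + (a - a') * p.1 ≤ ER K a' (y + (a - a') * p.2) := by
  have ha : a ≤ 1 := by linarith [abs_nonneg y]
  obtain ⟨η, h2, rfl⟩ := exists_eta hy
  obtain ⟨q, hq, e⟩ := h.cvx.exists_mem_add_smul_eq (h.Rt_mem h2) hp (sub_nonneg.2 ha)
    (sub_nonneg.2 h1)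
  have q1 := congrArg Prod.fst e
  have q2 := congrArg Prod.snd e
  simp only [Prod.smul_fst, Prod.smul_snd, Prod.fst_add, Prod.snd_add, smul_eq_mul] at q1 q2
  rw [sub_add_sub_cancel] at q1 q2
  have k := h.le_ER (h1.trans ha) hq
  rw [q2, q1] at k
  rw [h.ER_eq ha h2]
  linarith

theorem GP.ER_mono (h : GP K s) {a a' y : ℝ} (hy : |y| ≤ (1 - a) / 2) (h1 : a' ≤ a) :
    ER K a y ≤ ER K a' y := by
  have := h.ER_nest hy h1 h.rt
  simp only [mul_zero, add_zero] at this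
  linarith

theorem GP.ER_zero (h : GP K s) {a : ℝ} (ha : a ≤ 1) : ER K a 0 = 1 / 2 := by
  have := h.ER_eq ha (η := 0) (by norm_num)
  rw [mul_zero, h.Rt_zero] at this
  linarith

theorem GP.ER_cone (h : GP K s) {a a' y l : ℝ} (hy : |y| ≤ (1 - a) / 2) (h1 : a' ≤ a) (l0 : 0 ≤ l)
    (l1 : l ≤ 1) : (1 - l) / 2 + l * ER K a y ≤ ER K a' (l * y) := by
  have ha : a ≤ 1 := by linarith [abs_nonneg y]
  have k := h.ER_conc hy (b := a) (z := 0) (by rw [abs_zero]; linarith) l0 (sub_nonneg.2 l1)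
    (by ring)
  rw [h.ER_zero ha, mul_zero, add_zero, show l * a + (1 - l) * a = a by ring] at k
  have : |l * y| ≤ (1 - a) / 2 := by
    rw [abs_mul, abs_of_nonneg l0]
    exact (mul_le_of_le_one_left (abs_nonneg y) l1).trans hy
  linarith [h.ER_mono this h1]

/-- An upright piece within its room is inside. -/
theorem GP.ins (h : GP K s) {a x y : ℝ} (h0 : 0 ≤ a) (hy : |y| ≤ (1 - a) / 2)
    (h1 : -EL K a y ≤ x - a / 2) (h2 : x + a / 2 ≤ ER K a y) : Ins K ⟨a, x, y⟩ := by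
  have ha : a ≤ 1 := by linarith [abs_nonneg y]
  obtain ⟨η, h3, rfl⟩ := exists_eta hy
  rw [h.EL_eq ha h3] at h1
  rw [h.ER_eq ha h3] at h2
  intro p hp
  exact mem_of_between h.cvx (ins_up h.cvx h0 ha (h.Lf_mem h3) p hp)
    (ins_up h.cvx h0 ha (h.Rt_mem h3) p hp) (by simp only; linarith) (by simp only; linarith)

theorem GP.hi (h : GP K s) : Hi K s 0 := fun p hp => by linarith [(h.box p hp).2.2.1]

theorem GP.lo (h : GP K s) : Lo K (-s) 0 := fun p hp => by linarith [(h.box p hp).2.2.2]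

theorem GP.sy (h : GP K s) {p : ℝ × ℝ} (hp : p ∈ K) : |2 * (s * p.2)| ≤ |s| := by
  rw [abs_mul, abs_mul, abs_two]
  nlinarith [h.abs_y hp, abs_nonneg s]

theorem GP.hi' (h : GP K s) : Hi K (-s) |s| := fun p hp => by
  linarith [(h.box p hp).2.2.1, (abs_le.mp (h.sy hp)).1]

theorem GP.lo' (h : GP K s) : Lo K s |s| := fun p hp => by
  linarith [(h.box p hp).2.2.2, (abs_le.mp (h.sy hp)).1]

theorem Kap.hi' {β k1 k2 η : ℝ} (k : Kap K β k1 k2 η) : Hi K β k2 := fun p hp => (k.bd p hp).2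

theorem Kap.lo' {β k1 k2 η : ℝ} (k : Kap K β k1 k2 η) : Lo K β k1 := fun p hp => (k.bd p hp).1

theorem Hi.mono {β u v : ℝ} (k : Hi K β u) (h : u ≤ v) : Hi K β v := fun p hp => by
  linarith [k p hp]

theorem Lo.mono {β u v : ℝ} (k : Lo K β u) (h : u ≤ v) : Lo K β v := fun p hp => by
  linarith [k p hp]

theorem Hi.mir {β u : ℝ} (k : Hi K β u) : Lo (mir K) (-β) u := fun p hp => by
  have := k _ hp
  simp only at this
  linarith

theorem Lo.mir {β u : ℝ} (k : Lo K β u) : Hi (mir K) (-β) u := fun p hp => by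
  have := k _ hp
  simp only at this
  linarith

theorem Hi.up {β u a x y : ℝ} (k : Hi K β u) (ha : 0 ≤ a) {p : ℝ × ℝ} (hp : p ∈ K) :
    (Hm.ap ⟨a, x, y⟩ p).1 + β * (Hm.ap ⟨a, x, y⟩ p).2 ≤ x + a / 2 + β * y + u * a := by
  simp only [Hm.ap]
  linarith [mul_le_mul_of_nonneg_left (k p hp) ha]

theorem Lo.up {β l a x y : ℝ} (k : Lo K β l) (ha : 0 ≤ a) {p : ℝ × ℝ} (hp : p ∈ K) :
    x - a / 2 + β * y - l * a ≤ (Hm.ap ⟨a, x, y⟩ p).1 + β * (Hm.ap ⟨a, x, y⟩ p).2 := by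
  simp only [Hm.ap]
  linarith [mul_le_mul_of_nonneg_left (k p hp) ha]

theorem GP.ap_y (h : GP K s) (g : Hm) {p : ℝ × ℝ} (hp : p ∈ K) : |(g.ap p).2 - g.y| ≤ |g.t| / 2 := by
  simp only [Hm.ap, add_sub_cancel_left, abs_mul]
  nlinarith [h.abs_y hp, abs_nonneg g.t]

/-- A placed piece meets every height of its strip. -/
theorem GP.exists_ap (h : GP K s) (g : Hm) {y : ℝ} (hy : |y - g.y| ≤ |g.t| / 2) :
    ∃ p ∈ K, (g.ap p).2 = y := by
  rcases eq_or_ne g.t 0 with e | e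
  · rw [e, abs_zero, zero_div, abs_nonpos_iff, sub_eq_zero] at hy
    exact ⟨_, h.rt, by simp [Hm.ap, hy]⟩
  · obtain ⟨x, hx⟩ := h.exists_mem (y := (y - g.y) / g.t) (by
      rw [abs_div, div_le_iff₀ (abs_pos.mpr e)]
      linarith)
    refine ⟨_, hx, ?_⟩
    simp only [Hm.ap]
    field_simp
    ring

theorem GP.wl (h : GP K s) {g : Hm} (hg : Ins K g) {β c y0 m : ℝ}
    (hy : |y0 - g.y| + m / 2 ≤ |g.t| / 2) (hc : ∀ p ∈ K, (g.ap p).1 + β * (g.ap p).2 ≤ c) :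
    WL K β c y0 m := by
  intro y h1
  obtain ⟨p, hp, rfl⟩ := h.exists_ap g (y := y) (by linarith [abs_sub_le y y0 g.y])
  exact ⟨_, hg p hp, hc p hp⟩

theorem GP.wr (h : GP K s) {g : Hm} (hg : Ins K g) {β c y0 m : ℝ}
    (hy : |y0 - g.y| + m / 2 ≤ |g.t| / 2) (hc : ∀ p ∈ K, c ≤ (g.ap p).1 + β * (g.ap p).2) :
    WR K β c y0 m := by
  intro y h1
  obtain ⟨p, hp, rfl⟩ := h.exists_ap g (y := y) (by linarith [abs_sub_le y y0 g.y])
  exact ⟨_, hg p hp, hc p hp⟩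

/-- Points between two walls are inside. -/
theorem guard (hc : Convex ℝ K) {β c γ e y0 m : ℝ} (h1 : WL K β c y0 m) (h2 : WR K γ e y0 m)
    {p : ℝ × ℝ} (hy : |p.2 - y0| ≤ m / 2) (a1 : c ≤ p.1 + β * p.2) (a2 : p.1 + γ * p.2 ≤ e) :
    p ∈ K := by
  obtain ⟨x1, k1, b1⟩ := h1 _ hy
  obtain ⟨x2, k2, b2⟩ := h2 _ hy
  exact mem_of_between (x := p.1) (y := p.2) hc k1 k2 (by linarith) (by linarith)

theorem Need.mono {u d L u' d' L' : ℝ} {r : List ℝ} (h : Need u d L r) (h0 : ∀ x ∈ r, 0 ≤ x)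
    (hu : u' ≤ u) (hd : d' ≤ d) (hL : L ≤ L') : Need u' d' L' r := by
  induction r generalizing u d L u' d' L' with
  | nil => trivial
  | cons b r ih =>
    exact ⟨by linarith [h.1, mul_le_mul_of_nonneg_right hu (h0 b List.mem_cons_self)],
      ih h.2 (fun x hx => h0 x (List.mem_cons_of_mem _ hx)) hd hu (by linarith)⟩

theorem sep_line (β c : ℝ) {A B : Set (ℝ × ℝ)} (h1 : ∀ p ∈ A, p.1 + β * p.2 ≤ c)
    (h2 : ∀ p ∈ B, c ≤ p.1 + β * p.2) : Sep A B :=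
  ⟨1, β, c, Or.inl one_ne_zero, by simpa using h1, by simpa using h2⟩

theorem sep_level (c : ℝ) {A B : Set (ℝ × ℝ)} (h1 : ∀ p ∈ A, p.2 ≤ c) (h2 : ∀ p ∈ B, c ≤ p.2) :
    Sep A B :=
  ⟨0, 1, c, Or.inr one_ne_zero, by simpa using h1, by simpa using h2⟩

/-- Alternating chain, from right to left, with first orientation `o`. -/
theorem GP.fill (h : GP K s) {β c y0 : ℝ} (r : List ℝ) {o u d e m : ℝ} (ho : o = 1 ∨ o = -1)
    (hu : ∀ p ∈ K, -1 / 2 - u ≤ o * (p.1 + β * p.2)) (hd : ∀ p ∈ K, o * (p.1 + β * p.2) ≤ 1 / 2 + d)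
    (hs : r.Pairwise (· ≥ ·)) (h0 : ∀ x ∈ r, 0 ≤ x ∧ x ≤ m) (hN : Need u d (e - c) r) :
    Pk K {p | |p.2 - y0| ≤ m / 2 ∧ c ≤ p.1 + β * (p.2 - y0) ∧ p.1 + o * s * (p.2 - y0) ≤ e} r := by
  induction r generalizing o u d e m with
  | nil => exact Pk.nil
  | cons b r ih =>
    obtain ⟨b0, b1⟩ := h0 b List.mem_cons_self
    rw [List.pairwise_cons] at hs
    have ao : |o| = 1 := by rcases ho with rfl | rfl <;> simp
    have k1 := ih (o := -o) (u := d) (d := u) (e := e - b) (m := b) (by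
        rcases ho with rfl | rfl <;> simp)
      (fun p hp => by linarith [hd p hp]) (fun p hp => by linarith [hu p hp]) hs.2
      (fun x hx => ⟨(h0 x (List.mem_cons_of_mem _ hx)).1, hs.1 x hx⟩)
      (by rw [sub_right_comm]; exact hN.2)
    have k2 := Pk.one (K := K) (s := ⟨o * b, e - b / 2, y0⟩) (A := {p | |p.2 - y0| ≤ b / 2 ∧
        c ≤ p.1 + β * (p.2 - y0) ∧ p.1 + o * s * (p.2 - y0) ≤ e ∧
        e - b ≤ p.1 + -o * s * (p.2 - y0)}) (fun p hp => by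
      have a1 := h.ap_y ⟨o * b, e - b / 2, y0⟩ hp
      obtain ⟨-, -, a2, a3⟩ := h.box p hp
      have a4 := mul_le_mul_of_nonneg_left (hu p hp) b0
      have a5 := mul_le_mul_of_nonneg_left a2 b0
      have a6 := mul_le_mul_of_nonneg_left a3 b0
      have a7 := hN.1
      simp only [abs_mul, ao, abs_of_nonneg b0, one_mul] at a1
      refine ⟨a1, ?_, ?_, ?_⟩
      · simp only [Hm.ap]
        linarith
      · simp only [Hm.ap]
        rcases ho with rfl | rfl <;> linarith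
      · simp only [Hm.ap]
        rcases ho with rfl | rfl <;> linarith)
    simp only [abs_mul, ao, abs_of_nonneg b0, one_mul] at k2
    refine (Pk.union (sep_line (-o * s) (e - b + -o * s * y0) (fun p hp => by linarith [hp.2.2])
      (fun p hp => by linarith [hp.2.2.2])).symm k2 k1).mono ?_
    rintro p (⟨a1, a2, a3, -⟩ | ⟨a1, a2, a3⟩)
    · exact ⟨by linarith, a2, a3⟩
    · refine ⟨by linarith, a2, ?_⟩
      have : |o * s * (p.2 - y0)| ≤ b / 2 := by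
        rw [abs_mul, abs_mul, ao, one_mul]
        exact (mul_le_of_le_one_left (abs_nonneg _) h.abs_s).trans a1
      linarith [(abs_le.mp this).2]

/-- A chain whose first piece is upright with right end `e` inside its room, closed on the left
by a wall. -/
theorem GP.chain (h : GP K s) {β u d c e y0 m b : ℝ} {r : List ℝ} (hu : Lo K β u) (hd : Hi K β d)
    (hs : (b :: r).Pairwise (· ≥ ·)) (b0 : 0 ≤ b) (h0 : ∀ x ∈ r, 0 ≤ x ∧ x ≤ m)
    (hy : |y0| ≤ (1 - b) / 2) (e1 : -EL K b y0 ≤ e - b) (e2 : e ≤ ER K b y0)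
    (hw : WL K β c y0 m) (hN : Need u d (e + β * y0 - c) (b :: r)) :
    Pk K {p | p ∈ K ∧ |p.2 - y0| ≤ b / 2 ∧ c ≤ p.1 + β * p.2 ∧ p.1 + s * (p.2 - y0) ≤ e}
      (b :: r) := by
  rw [List.pairwise_cons] at hs
  have hI : Ins K ⟨b, e - b / 2, y0⟩ := h.ins b0 hy (by linarith) (by linarith)
  have k1 := h.fill (β := β) (c := c - β * y0) (y0 := y0) r (o := -1) (u := d) (d := u)
    (e := e - b) (m := min m b) (Or.inr rfl) (fun p hp => by linarith [hd p hp])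
    (fun p hp => by linarith [hu p hp]) hs.2
    (fun x hx => ⟨(h0 x hx).1, le_min (h0 x hx).2 (hs.1 x hx)⟩)
    (by convert hN.2 using 1; ring)
  have l1 : ∀ p ∈ K, e - b - s * y0 ≤ (Hm.ap ⟨b, e - b / 2, y0⟩ p).1 +
      -s * (Hm.ap ⟨b, e - b / 2, y0⟩ p).2 := fun p hp => by linarith [h.lo.up (x := e - b / 2) (y := y0) b0 hp]
  have k2 := Pk.one (K := K) (s := ⟨b, e - b / 2, y0⟩) (A := {p | (p ∈ K ∧ |p.2 - y0| ≤ b / 2 ∧
      c ≤ p.1 + β * p.2 ∧ p.1 + s * (p.2 - y0) ≤ e) ∧ e - b - s * y0 ≤ p.1 + -s * p.2})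
    (fun p hp => ⟨⟨hI p hp, by simpa [abs_of_nonneg b0] using h.ap_y ⟨b, e - b / 2, y0⟩ hp,
      by linarith [hu.up (x := e - b / 2) (y := y0) b0 hp, hN.1],
      by linarith [h.hi.up (x := e - b / 2) (y := y0) b0 hp]⟩, l1 p hp⟩)
  simp only [abs_of_nonneg b0] at k2
  refine (Pk.union (sep_line (-s) (e - b - s * y0) (fun p hp => by linarith [hp.2.2])
    (fun p hp => hp.2)).symm k2 k1).mono ?_
  rintro p (⟨a, -⟩ | ⟨a1, a2, a3⟩)
  · exact a
  · have m1 := min_le_left m b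
    have m2 := min_le_right m b
    have : |s * (p.2 - y0)| ≤ b / 2 := by
      rw [abs_mul]
      exact (mul_le_of_le_one_left (abs_nonneg _) h.abs_s).trans (by linarith)
    refine ⟨guard h.cvx (m := min m b) (fun y hy => hw y (by linarith))
      (h.wr hI (by simp only [sub_self, abs_zero, abs_of_nonneg b0]; linarith) l1) a1
      (by linarith) (by linarith), by linarith, by linarith, by linarith [(abs_le.mp this).2]⟩

/-- A row: upright head at the left end of its room, a chain at the right end. -/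
theorem GP.row (h : GP K s) {β u d g yg y0 b : ℝ} {r : List ℝ} (hu : Lo K β u) (hd : Hi K β d)
    (hs : (b :: r).Pairwise (· ≥ ·)) (h0 : ∀ x ∈ b :: r, 0 ≤ x) (hg : |yg| ≤ (1 - g) / 2)
    (hy : |y0 - yg| + b / 2 ≤ g / 2)
    (hN : Need u d (EL K g yg + ER K b y0 + β * (y0 - yg) - g - d * g) (b :: r)) :
    Pk K {p | p ∈ K ∧ |p.2 - yg| ≤ g / 2} (g :: b :: r) := by
  have b0 := h0 b List.mem_cons_self
  have g0 : 0 ≤ g := by linarith [abs_nonneg (y0 - yg)]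
  have hy0 : |y0| ≤ (1 - b) / 2 := by
    have := abs_add_le (y0 - yg) yg
    rw [sub_add_cancel] at this
    linarith
  have hI : Ins K ⟨g, g / 2 - EL K g yg, yg⟩ := h.ins g0 hg (by linarith) (by linarith [h.le_room hg])
  have l1 : ∀ p ∈ K, (Hm.ap ⟨g, g / 2 - EL K g yg, yg⟩ p).1 +
      β * (Hm.ap ⟨g, g / 2 - EL K g yg, yg⟩ p).2 ≤ g - EL K g yg + β * yg + d * g :=
    fun p hp => by linarith [hd.up (x := g / 2 - EL K g yg) (y := yg) g0 hp]
  have k1 := h.chain hu hd hs b0 (fun x hx => ⟨h0 x (List.mem_cons_of_mem _ hx),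
      (List.pairwise_cons.mp hs).1 x hx⟩) hy0 (by linarith [h.le_room hy0]) le_rfl
    (h.wl hI (by simpa only [abs_of_nonneg g0] using hy) l1) (by convert hN using 1; ring)
  have k2 := Pk.one (K := K) (s := ⟨g, g / 2 - EL K g yg, yg⟩) (A := {p | (p ∈ K ∧
      |p.2 - yg| ≤ g / 2) ∧ p.1 + β * p.2 ≤ g - EL K g yg + β * yg + d * g})
    (fun p hp => ⟨⟨hI p hp, by
      simpa [abs_of_nonneg g0] using h.ap_y ⟨g, g / 2 - EL K g yg, yg⟩ hp⟩, l1 p hp⟩)
  simp only [abs_of_nonneg g0] at k2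
  refine (Pk.union (sep_line β _ (fun p hp => hp.2) (fun p hp => hp.2.2.1)) k2 k1).mono ?_
  rintro p (⟨a, -⟩ | ⟨a1, a2, -⟩)
  · exact a
  · exact ⟨a1, by linarith [abs_sub_le p.2 y0 yg]⟩

/-- Pieces of total size at most one along the longest chord. -/
theorem Kap.dia {β k1 k2 η m : ℝ} (h : GP K s) (k : Kap K β k1 k2 η) (l : List ℝ) {σ : ℝ}
    (σ0 : 0 ≤ σ) (h0 : ∀ x ∈ l, 0 ≤ x ∧ x ≤ m) (hs : σ + l.sum ≤ 1) :
    Pk K {p | p ∈ K ∧ |p.2 - (1 - m) * η| ≤ m / 2 ∧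
      -1 / 2 - k1 + σ * (1 + k1 + k2) ≤ p.1 + β * p.2} l := by
  induction l generalizing σ with
  | nil => exact Pk.nil
  | cons a l ih =>
    obtain ⟨a0, a1⟩ := h0 a List.mem_cons_self
    have l0 : ∀ x ∈ l, 0 ≤ x ∧ x ≤ m := fun x hx => h0 x (List.mem_cons_of_mem _ hx)
    have s0 : 0 ≤ l.sum := List.sum_nonneg fun x hx => (l0 x hx).1
    rw [List.sum_cons] at hs
    have k1' := ih (σ := σ + a) (by linarith) l0 (by linarith)
    have k2' := Pk.one (K := K) (s := ⟨a, (1 - a) * (-1 / 2 - k1 - β * η) + σ * (1 + k1 + k2),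
        (1 - a) * η⟩) (A := {p | (p ∈ K ∧ |p.2 - (1 - m) * η| ≤ m / 2 ∧
        -1 / 2 - k1 + σ * (1 + k1 + k2) ≤ p.1 + β * p.2) ∧
        p.1 + β * p.2 ≤ -1 / 2 - k1 + (σ + a) * (1 + k1 + k2)}) (fun p hp => by
      have c1 := mul_le_mul_of_nonneg_left (k.bd p hp).1 a0
      have c2 := mul_le_mul_of_nonneg_left (k.bd p hp).2 a0
      have w0 : 0 ≤ 1 + k1 + k2 := by linarith [k.k10, k.k20]
      refine ⟨⟨mem_of_between h.cvx (ins_up h.cvx a0 (by linarith) k.lo p hp)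
        (ins_up h.cvx a0 (by linarith) k.hi p hp) ?_ ?_, ?_, ?_⟩, ?_⟩
      · simp only
        linarith [mul_nonneg σ0 w0]
      · simp only
        linarith [mul_nonneg (show 0 ≤ 1 - a - σ by linarith) w0]
      · simp only [Hm.ap]
        rw [show (1 - a) * η + a * p.2 - (1 - m) * η = (m - a) * η + a * p.2 by ring]
        refine (abs_add_le _ _).trans ?_
        rw [abs_mul, abs_mul, abs_of_nonneg a0, abs_of_nonneg (sub_nonneg.mpr a1)]
        linarith [mul_le_mul_of_nonneg_left (h.abs_y hp) a0,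
          mul_le_mul_of_nonneg_left (h.abs_y k.hi) (sub_nonneg.mpr a1)]
      · simp only [Hm.ap]
        linarith
      · simp only [Hm.ap]
        linarith)
    simp only [abs_of_nonneg a0] at k2'
    refine (Pk.union (sep_line β _ (fun p hp => hp.2) (fun p hp => hp.2.2)) k2' k1').mono ?_
    rintro p (⟨b, -⟩ | ⟨b1, b2, b3⟩)
    · exact b
    · exact ⟨b1, b2, by nlinarith [k.k10, k.k20]⟩

end Pool.Agent.MP_34f9b1_co.Gen
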