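import Pool.Agent.MP_34f9b1_co.Gen.Room

namespace Pool.Agent.MP_34f9b1_co.Gen

/-- Horizontally convex region. -/
def HC (A : Set (ℝ × ℝ)) : Prop :=
  ∀ x1 x2 x y : ℝ, (x1, y) ∈ A → (x2, y) ∈ A → x1 ≤ x → x ≤ x2 → (x, y) ∈ A

/-- The placed piece lies in the region. -/
def In (K A : Set (ℝ × ℝ)) (g : Hm) : Prop := ∀ p ∈ K, g.ap p ∈ A

/-- Excess form of `Need`. -/
def Ex : ℝ → ℝ → ℝ → List ℝ → Prop
  | _, _, _, [] => True
  | u, d, M, b :: r => u * b - r.sum ≤ M ∧ Ex d u M r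

/-- Excess of a one-sided chain, averaged over the two sides. -/
def Ex1 (κ M : ℝ) : List ℝ → Prop
  | [] => True
  | b :: r => κ * b - (1 - κ) * r.sum ≤ M ∧ Ex1 κ M r

/-- Excess of a two-sided chain. -/
def Ex2 (κ M : ℝ) : List ℝ → Prop
  | b :: b' :: r => κ * (b + b') / 2 - r.sum ≤ M ∧ Ex2 κ M r
  | _ => True

variable {K A : Set (ℝ × ℝ)} {s : ℝ}

theorem HC.of_convex (h : Convex ℝ A) : HC A := fun _ _ _ _ h1 h2 a1 a2 =>
  mem_of_between h h1 h2 a1 a2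

theorem HC.inter {B : Set (ℝ × ℝ)} (h : HC A) (k : HC B) : HC (A ∩ B) :=
  fun _ _ _ _ h1 h2 a1 a2 => ⟨h _ _ _ _ h1.1 h2.1 a1 a2, k _ _ _ _ h1.2 h2.2 a1 a2⟩

theorem HC.level (P : ℝ → Prop) : HC {p | P p.2} := fun _ _ _ _ h1 _ _ _ => h1

theorem HC.ge (f : ℝ → ℝ) : HC {p | f p.2 ≤ p.1} := fun _ _ _ _ h1 _ a1 _ => le_trans h1 a1

theorem HC.le (f : ℝ → ℝ) : HC {p | p.1 ≤ f p.2} := fun _ _ _ _ _ h2 _ a2 => le_trans a2 h2

theorem HC.mir (h : HC A) : HC (mir A) := fun _ _ _ _ h1 h2 a1 a2 =>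
  h _ _ _ _ h2 h1 (neg_le_neg a2) (neg_le_neg a1)

theorem In.mir {t x y : ℝ} (h : In K A ⟨t, x, y⟩) : In (mir K) (mir A) ⟨t, -x, y⟩ := fun p hp => by
  have := h _ hp
  show (_, _) ∈ A
  convert this using 1
  simp only [Hm.ap]
  ext
  · simp only
    ring
  · rfl

theorem Pk.join (R : List (Set (ℝ × ℝ) × List ℝ)) (hs : R.Pairwise fun a b => Sep a.1 b.1)
    (h : ∀ a ∈ R, Pk K a.1 a.2) (hA : ∀ a ∈ R, a.1 ⊆ A) : Pk K A (R.flatMap (·.2)) := by
  have key : ∃ S : List Hm, S.map (fun s => |s.t|) = R.flatMap (·.2) ∧ S.Pairwise (Spr K) ∧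
      ∀ s ∈ S, ∃ a ∈ R, ∀ p ∈ K, s.ap p ∈ a.1 := by
    clear hA
    induction R with
    | nil => exact ⟨[], rfl, List.Pairwise.nil, by simp⟩
    | cons a R ih =>
      rw [List.pairwise_cons] at hs
      obtain ⟨T, e, hE, hJ⟩ := ih hs.2 fun b hb => h b (List.mem_cons_of_mem _ hb)
      obtain ⟨S, e', hD, hI⟩ := h a List.mem_cons_self
      refine ⟨S ++ T, by rw [List.map_append, e, e', List.flatMap_cons],
        List.pairwise_append.mpr ⟨hD, hE, fun u hu t ht => ?_⟩, fun u hu => ?_⟩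
      · obtain ⟨b, hb, hb'⟩ := hJ t ht
        obtain ⟨α, β, c, hab, k1, k2⟩ := hs.1 b hb
        exact ⟨α, β, c, hab, fun p hp => k1 _ (hI u hu p hp), fun p hp => k2 _ (hb' p hp)⟩
      · rcases List.mem_append.mp hu with k | k
        · exact ⟨a, List.mem_cons_self, hI u k⟩
        · obtain ⟨b, hb, hb'⟩ := hJ u k
          exact ⟨b, List.mem_cons_of_mem _ hb, hb'⟩
  obtain ⟨S, e, hD, hI⟩ := key
  refine ⟨S, e, hD, fun u hu p hp => ?_⟩
  obtain ⟨a, ha, ha'⟩ := hI u hu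
  exact hA a ha (ha' p hp)

theorem Pk.union3 {B C D : Set (ℝ × ℝ)} {l m n : List ℝ} (s1 : Sep A B) (s2 : Sep A C)
    (s3 : Sep B C) (h1 : Pk K A l) (h2 : Pk K B m) (h3 : Pk K C n) (a1 : A ⊆ D) (a2 : B ⊆ D)
    (a3 : C ⊆ D) : Pk K D (l ++ (m ++ n)) := by
  simpa using Pk.join (K := K) (A := D) [(A, l), (B, m), (C, n)] (by simp [s1, s2, s3])
    (by simp [h1, h2, h3]) (by simp [a1, a2, a3])

theorem Pk.up {a x y : ℝ} (ha : 0 ≤ a) (h : In K A ⟨a, x, y⟩) : Pk K A [a] := by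
  simpa only [abs_of_nonneg ha] using Pk.one h

theorem need_iff {u d M : ℝ} {l : List ℝ} : Need u d (l.sum + M) l ↔ Ex u d M l := by
  induction l generalizing u d with
  | nil => rfl
  | cons b r ih =>
    simp only [Need, Ex, List.sum_cons]
    rw [show b + r.sum + M - b = r.sum + M by ring, ih]
    exact and_congr_left' ⟨fun h => by linarith, fun h => by linarith⟩

theorem Ex.need {u d M L : ℝ} {l : List ℝ} (h : Ex u d M l) (h0 : ∀ x ∈ l, 0 ≤ x)
    (hL : l.sum + M ≤ L) : Need u d L l := (need_iff.mpr h).mono h0 le_rfl le_rfl hL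

theorem ex_of_le {u d M : ℝ} {l : List ℝ} (h0 : ∀ x ∈ l, 0 ≤ x)
    (h : ∀ x ∈ l, u * x ≤ M ∧ d * x ≤ M) : Ex u d M l := by
  induction l generalizing u d with
  | nil => trivial
  | cons b r ih =>
    have r0 : ∀ x ∈ r, 0 ≤ x := fun x hx => h0 x (List.mem_cons_of_mem _ hx)
    exact ⟨by linarith [(h b List.mem_cons_self).1, List.sum_nonneg r0],
      ih r0 fun x hx => (h x (List.mem_cons_of_mem _ hx)).symm⟩

theorem Ex1.ex {u d M M1 M2 : ℝ} {l : List ℝ} (h : Ex1 (u + d) M l) (hu : 0 ≤ u) (hd : 0 ≤ d)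
    (h0 : ∀ x ∈ l, 0 ≤ x) (hM : M ≤ M1 + M2) : Ex u d M1 l ∨ Ex d u M2 l := by
  induction l generalizing u d M1 M2 with
  | nil => exact Or.inl trivial
  | cons b r ih =>
    have b0 := h0 b List.mem_cons_self
    have r0 : ∀ x ∈ r, 0 ≤ x := fun x hx => h0 x (List.mem_cons_of_mem _ hx)
    have s0 := List.sum_nonneg r0
    have h1 := h.1
    have k : ∀ x ∈ r, u * x ≤ (u + d) * r.sum ∧ d * x ≤ (u + d) * r.sum := fun x hx => by
      have := List.single_le_sum r0 x hx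
      constructor <;> nlinarith [r0 x hx]
    have c1 := mul_nonneg hu b0
    have c2 := mul_nonneg hd b0
    have c3 := mul_nonneg (add_nonneg hu hd) s0
    by_cases a1 : u * b - r.sum ≤ M1
    · by_cases a2 : d * b - r.sum ≤ M2
      · exact (ih (add_comm u d ▸ h.2) hd hu r0 hM).imp (fun e => ⟨a1, e⟩) fun e => ⟨a2, e⟩
      · exact Or.inl ⟨a1, ex_of_le r0 fun x hx => ⟨by linarith [(k x hx).2], by linarith [(k x hx).1]⟩⟩
    · exact Or.inr ⟨by linarith,
        ex_of_le r0 fun x hx => ⟨by linarith [(k x hx).1], by linarith [(k x hx).2]⟩⟩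

theorem GP.kap' (h : GP K s) : ∃ β k1 k2 η, Kap K β k1 k2 η ∧ |β| ≤ |s| := by
  obtain ⟨β, k1, k2, η, k⟩ := h.kap
  have a1 := (h.box _ k.hi).2.2.1
  have a2 := (h.box _ k.lo).2.2.2
  simp only at a1 a2
  have b1 := k.k10
  have b2 := k.k20
  rcases lt_trichotomy η 0 with e | e | e
  · exact ⟨β, k1, k2, η, k, (abs_le.mpr ⟨by nlinarith, by nlinarith⟩).trans (le_abs_self s)⟩
  · subst e
    have e1 : k1 = 0 := by linarith
    have e2 : k2 = 0 := by linarith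
    subst e1 e2
    refine ⟨max (-|s|) (min β |s|), 0, 0, 0, ⟨le_rfl, le_rfl, fun p hp => ?_, by simpa using k.lo,
      by simpa using k.hi⟩, abs_le.mpr ⟨le_max_left _ _,
        max_le (by linarith [abs_nonneg s]) (min_le_right _ _)⟩⟩
    obtain ⟨d1, d2⟩ := k.bd p hp
    obtain ⟨-, -, d3, d4⟩ := h.box p hp
    have s1 := le_abs_self s
    have s2 := neg_abs_le s
    rcases le_total β |s| with f | f
    · rw [min_eq_left f]
      rcases le_total (-|s|) β with g | g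
      · rw [max_eq_right g]
        exact ⟨d1, d2⟩
      · rw [max_eq_left g]
        rcases le_total 0 p.2 with y | y <;> constructor <;> nlinarith
    · rw [min_eq_right f, max_eq_right (by linarith)]
      rcases le_total 0 p.2 with y | y <;> constructor <;> nlinarith
  · exact ⟨β, k1, k2, η, k, (abs_le.mpr ⟨by nlinarith, by nlinarith⟩).trans (neg_le_abs s)⟩

theorem Kap.le_s {β k1 k2 η : ℝ} (h : GP K s) (k : Kap K β k1 k2 η) : k1 + k2 ≤ -(2 * s * η) := by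
  linarith [k.wd_eq h, h.wd_le (h.abs_y k.hi)]

theorem GP.wlA (h : GP K s) {g : Hm} (hg : In K A g) {β c y0 m : ℝ}
    (hy : |y0 - g.y| + m / 2 ≤ |g.t| / 2) (hc : ∀ p ∈ K, (g.ap p).1 + β * (g.ap p).2 ≤ c) :
    WL A β c y0 m := by
  intro y h1
  obtain ⟨p, hp, rfl⟩ := h.exists_ap g (y := y) (by linarith [abs_sub_le y y0 g.y])
  exact ⟨_, hg p hp, hc p hp⟩

theorem GP.wrA (h : GP K s) {g : Hm} (hg : In K A g) {β c y0 m : ℝ}
    (hy : |y0 - g.y| + m / 2 ≤ |g.t| / 2) (hc : ∀ p ∈ K, c ≤ (g.ap p).1 + β * (g.ap p).2) :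
    WR A β c y0 m := by
  intro y h1
  obtain ⟨p, hp, rfl⟩ := h.exists_ap g (y := y) (by linarith [abs_sub_le y y0 g.y])
  exact ⟨_, hg p hp, hc p hp⟩

theorem HC.guard (hc : HC A) {β c γ e y0 m : ℝ} (h1 : WL A β c y0 m) (h2 : WR A γ e y0 m)
    {p : ℝ × ℝ} (hy : |p.2 - y0| ≤ m / 2) (a1 : c ≤ p.1 + β * p.2) (a2 : p.1 + γ * p.2 ≤ e) :
    p ∈ A := by
  obtain ⟨x1, k1, b1⟩ := h1 _ hy
  obtain ⟨x2, k2, b2⟩ := h2 _ hy
  exact hc _ _ p.1 p.2 k1 k2 (by linarith) (by linarith)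

/-- A chain whose first piece is upright and lies in the region, closed on the left by a wall. -/
theorem GP.chainA (h : GP K s) (hA : HC A) {β u d c x y0 m b : ℝ} {r : List ℝ} (hu : Lo K β u)
    (hd : Hi K β d) (hs : (b :: r).Pairwise (· ≥ ·)) (b0 : 0 ≤ b) (h0 : ∀ z ∈ r, 0 ≤ z ∧ z ≤ m)
    (hI : In K A ⟨b, x, y0⟩) (hw : WL A β c y0 m)
    (hN : Need u d (x + b / 2 + β * y0 - c) (b :: r)) :
    Pk K {p | p ∈ A ∧ c ≤ p.1 + β * p.2} (b :: r) := by
  rw [List.pairwise_cons] at hs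
  have k1 := h.fill (β := β) (c := c - β * y0) (y0 := y0) r (o := -1) (u := d) (d := u)
    (e := x - b / 2) (m := min m b) (Or.inr rfl) (fun p hp => by linarith [hd p hp])
    (fun p hp => by linarith [hu p hp]) hs.2
    (fun x hx => ⟨(h0 x hx).1, le_min (h0 x hx).2 (hs.1 x hx)⟩)
    (by convert hN.2 using 1; ring)
  have l1 : ∀ p ∈ K, x - b / 2 - s * y0 ≤ (Hm.ap ⟨b, x, y0⟩ p).1 + -s * (Hm.ap ⟨b, x, y0⟩ p).2 :=
    fun p hp => by linarith [h.lo.up (x := x) (y := y0) b0 hp]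
  have k2 := Pk.up (K := K) (x := x) (y := y0) (A := {p | (p ∈ A ∧ c ≤ p.1 + β * p.2) ∧
      x - b / 2 - s * y0 ≤ p.1 + -s * p.2}) b0
    (fun p hp => ⟨⟨hI p hp, by linarith [hu.up (x := x) (y := y0) b0 hp, hN.1]⟩, l1 p hp⟩)
  refine (Pk.union (sep_line (-s) (x - b / 2 - s * y0) (fun p hp => by linarith [hp.2.2])
    (fun p hp => hp.2)).symm k2 k1).mono ?_
  rintro p (⟨a, -⟩ | ⟨a1, a2, a3⟩)
  · exact a
  · have m1 := min_le_left m b
    have m2 := min_le_right m b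
    exact ⟨hA.guard (m := min m b) (fun y hy => hw y (by linarith))
      (h.wrA hI (by simp only [sub_self, abs_zero, abs_of_nonneg b0]; linarith) l1) a1
      (by linarith) (by linarith), by linarith⟩

/-- Head on the left, the chain attached to the second piece on the right. -/
theorem GP.rowA (h : GP K s) (hA : HC A) {β u d g xg yg b x y0 : ℝ} {r : List ℝ} (hu : Lo K β u)
    (hd : Hi K β d) (hs : (b :: r).Pairwise (· ≥ ·)) (h0 : ∀ z ∈ b :: r, 0 ≤ z)
    (hy : |y0 - yg| + b / 2 ≤ g / 2) (hg : In K A ⟨g, xg, yg⟩) (hI : In K A ⟨b, x, y0⟩)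
    (hN : Need u d (x + b / 2 - (xg + g / 2) + β * (y0 - yg) - d * g) (b :: r)) :
    Pk K A (g :: b :: r) := by
  have b0 := h0 b List.mem_cons_self
  have g0 : 0 ≤ g := by linarith [abs_nonneg (y0 - yg)]
  have l1 := fun p (hp : p ∈ K) => hd.up (x := xg) (y := yg) g0 hp
  have k1 := h.chainA hA hu hd hs b0 (fun x hx => ⟨h0 x (List.mem_cons_of_mem _ hx),
      (List.pairwise_cons.mp hs).1 x hx⟩) hI
    (h.wlA hg (by simpa only [abs_of_nonneg g0] using hy) l1) (by convert hN using 1; ring)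
  have k2 := Pk.up (K := K) (x := xg) (y := yg) (A := {p | p ∈ A ∧
    p.1 + β * p.2 ≤ xg + g / 2 + β * yg + d * g}) g0 (fun p hp => ⟨hg p hp, l1 p hp⟩)
  refine (Pk.union (sep_line β _ (fun p hp => hp.2) (fun p hp => hp.2)) k2 k1).mono ?_
  rintro p (⟨a, -⟩ | ⟨a, -⟩) <;> exact a

/-- Two chains growing towards each other between two legs. -/
theorem Kap.fill2 {β k1 k2 η y0 M : ℝ} (h : GP K s) (k : Kap K β k1 k2 η) (M0 : 0 ≤ M) :
    ∀ (r : List ℝ) (o c e m : ℝ), (o = 1 ∨ o = -1) → r.Pairwise (· ≥ ·) →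
      (∀ x ∈ r, 0 ≤ x ∧ x ≤ m) → Ex2 (k1 + k2) M r → r.sum + M ≤ e - c →
      Pk K {p | |p.2 - y0| ≤ m / 2 ∧ c ≤ p.1 + o * s * (p.2 - y0) ∧
        p.1 - o * s * (p.2 - y0) ≤ e} r
  | [], _, _, _, _, _, _, _, _, _ => Pk.nil
  | [b], o, c, e, m, ho, hs, h0, _, hL => by
    have := h.fill (β := o * s) (c := c) (y0 := y0) [b] (o := -o) (u := 0) (d := |s|) (e := e)
      (m := m) (by rcases ho with rfl | rfl <;> simp) (fun p hp => by
        rcases ho with rfl | rfl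
        · linarith [h.hi p hp]
        · linarith [h.lo p hp]) (fun p hp => by
        rcases ho with rfl | rfl
        · linarith [h.lo' p hp]
        · linarith [h.hi' p hp]) hs h0 ⟨by simp at hL; linarith, trivial⟩
    exact this.mono fun p hp => ⟨hp.1, hp.2.1, by linarith [hp.2.2]⟩
  | b :: b' :: r, o, c, e, m, ho, hs, h0, hE, hL => by
    obtain ⟨b0, b1⟩ := h0 b List.mem_cons_self
    have b2 := (h0 b' (List.mem_cons_of_mem _ List.mem_cons_self)).1
    rw [List.pairwise_cons, List.pairwise_cons] at hs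
    have b3 : b' ≤ b := hs.1 b' List.mem_cons_self
    have r0 : ∀ x ∈ r, 0 ≤ x ∧ x ≤ b' := fun x hx =>
      ⟨(h0 x (List.mem_cons_of_mem _ (List.mem_cons_of_mem _ hx))).1, hs.2.1 x hx⟩
    have s0 : 0 ≤ r.sum := List.sum_nonneg fun x hx => (r0 x hx).1
    have ao : |o| = 1 := by rcases ho with rfl | rfl <;> simp
    rw [List.sum_cons, List.sum_cons] at hL
    obtain ⟨u, d, hud, hu, hd⟩ : ∃ u d, u + d = k1 + k2 ∧
        (∀ p ∈ K, -1 / 2 - u ≤ -o * (p.1 + β * p.2)) ∧ ∀ p ∈ K, -o * (p.1 + β * p.2) ≤ 1 / 2 + d := by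
      rcases ho with rfl | rfl
      · exact ⟨k2, k1, add_comm _ _, fun p hp => by linarith [(k.bd p hp).2],
          fun p hp => by linarith [(k.bd p hp).1]⟩
      · exact ⟨k1, k2, rfl, fun p hp => by linarith [(k.bd p hp).1],
          fun p hp => by linarith [(k.bd p hp).2]⟩
    have pc : ∀ a x : ℝ, 0 ≤ a → Pk K {p | |p.2 - y0| ≤ a / 2 ∧
        x - a / 2 ≤ p.1 + o * s * (p.2 - y0) ∧ p.1 - o * s * (p.2 - y0) ≤ x + a / 2 ∧
        x - a / 2 - u * a ≤ p.1 + β * (p.2 - y0) ∧ p.1 + β * (p.2 - y0) ≤ x + a / 2 + d * a} [a] := by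
      intro a x a0
      have := Pk.one (K := K) (s := ⟨-o * a, x, y0⟩) (A := {p | |p.2 - y0| ≤ a / 2 ∧
        x - a / 2 ≤ p.1 + o * s * (p.2 - y0) ∧ p.1 - o * s * (p.2 - y0) ≤ x + a / 2 ∧
        x - a / 2 - u * a ≤ p.1 + β * (p.2 - y0) ∧ p.1 + β * (p.2 - y0) ≤ x + a / 2 + d * a})
        (fun p hp => by
          have a1 := h.ap_y ⟨-o * a, x, y0⟩ hp
          obtain ⟨-, -, a2, a3⟩ := h.box p hp
          have a4 := mul_le_mul_of_nonneg_left (hu p hp) a0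
          have a5 := mul_le_mul_of_nonneg_left a2 a0
          have a6 := mul_le_mul_of_nonneg_left a3 a0
          have a7 := mul_le_mul_of_nonneg_left (hd p hp) a0
          simp only [abs_mul, abs_neg, ao, abs_of_nonneg a0, one_mul] at a1
          refine ⟨a1, ?_, ?_, ?_, ?_⟩ <;> simp only [Hm.ap] <;> rcases ho with rfl | rfl <;> linarith)
      simpa only [abs_mul, abs_neg, ao, abs_of_nonneg a0, one_mul] using this
    have key : ∀ a a' : ℝ, b' ≤ a → b' ≤ a' → a ≤ m → a' ≤ m → a + a' = b + b' →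
        d * a + u * a' ≤ (k1 + k2) * (b + b') / 2 → Pk K {p | |p.2 - y0| ≤ m / 2 ∧
          c ≤ p.1 + o * s * (p.2 - y0) ∧ p.1 - o * s * (p.2 - y0) ≤ e} (a :: a' :: r) := by
      intro a a' c1 c2 c3 c4 c5 c6
      have c7 := hE.1
      refine Pk.union3 (l := [a]) (m := [a']) (sep_line β (c + a + d * a + β * y0) ?_ ?_)
        (sep_line (-o * s) (c + a + -o * s * y0) ?_ ?_)
        (sep_line (o * s) (e - a' + o * s * y0) ?_ ?_).symm (pc a (c + a / 2) (by linarith))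
        (pc a' (e - a' / 2) (by linarith)) (Kap.fill2 (y0 := y0) h k M0 r (-o) (c + a) (e - a') b'
          (by rcases ho with rfl | rfl <;> simp) hs.2.2 r0 hE.2 (by linarith)) ?_ ?_ ?_
      · exact fun p hp => by linarith [hp.2.2.2.2]
      · exact fun p hp => by linarith [hp.2.2.2.1]
      · exact fun p hp => by linarith [hp.2.2.1]
      · exact fun p hp => by linarith [hp.2.1]
      · exact fun p hp => by linarith [hp.2.2]
      · exact fun p hp => by linarith [hp.2.1]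
      · exact fun p hp => ⟨by linarith [hp.1], by linarith [hp.2.1], by linarith [hp.2.2.1]⟩
      · exact fun p hp => ⟨by linarith [hp.1], by linarith [hp.2.1], by linarith [hp.2.2.1]⟩
      · rintro p ⟨a1, a2, a3⟩
        have : |o * s * (p.2 - y0)| ≤ b' / 2 := by
          rw [abs_mul, abs_mul, ao, one_mul]
          exact (mul_le_of_le_one_left (abs_nonneg _) h.abs_s).trans a1
        obtain ⟨t1, t2⟩ := abs_le.mp this
        exact ⟨by linarith, by linarith, by linarith⟩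
    rcases le_total (d * b + u * b') (d * b' + u * b) with q | q
    · exact key b b' b3 le_rfl b1 (b3.trans b1) rfl (by rw [← hud]; linarith)
    · exact (key b' b le_rfl b3 (b3.trans b1) b1 (add_comm _ _) (by rw [← hud]; linarith)).perm
        (List.Perm.swap _ _ _)

/-- Head on the left, second piece on the right, two chains between them. -/
theorem Kap.rowB {β k1 k2 η M : ℝ} (h : GP K s) (k : Kap K β k1 k2 η) (hA : HC A)
    {g xg yg b x y0 : ℝ} {r : List ℝ} (hs : (b :: r).Pairwise (· ≥ ·)) (h0 : ∀ z ∈ b :: r, 0 ≤ z)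
    (hy : |y0 - yg| + b / 2 ≤ g / 2) (hg : In K A ⟨g, xg, yg⟩) (hI : In K A ⟨b, x, y0⟩)
    (M0 : 0 ≤ M) (hE : Ex2 (k1 + k2) M r)
    (h1 : r.sum + M ≤ x - b / 2 - (xg + g / 2) + s * (y0 - yg))
    (h2 : k2 * g + k1 * b ≤ x - b / 2 - (xg + g / 2) + β * (y0 - yg)) :
    Pk K A (g :: b :: r) := by
  have b0 := h0 b List.mem_cons_self
  have g0 : 0 ≤ g := by linarith [abs_nonneg (y0 - yg)]
  rw [List.pairwise_cons] at hs
  have l1 := fun p (hp : p ∈ K) => h.hi.up (x := xg) (y := yg) g0 hp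
  have l2 := fun p (hp : p ∈ K) => h.lo.up (x := x) (y := y0) b0 hp
  have l3 := fun p (hp : p ∈ K) => k.hi'.up (x := xg) (y := yg) g0 hp
  have l4 := fun p (hp : p ∈ K) => k.lo'.up (x := x) (y := y0) b0 hp
  refine Pk.union3 (l := [g]) (m := [b])
    (A := {p | p ∈ A ∧ p.1 + s * p.2 ≤ _ ∧ p.1 + β * p.2 ≤ _})
    (B := {p | p ∈ A ∧ _ ≤ p.1 + -s * p.2 ∧ _ ≤ p.1 + β * p.2})
    (sep_line β _ (fun p hp => hp.2.2) ?_) (sep_line s _ (fun p hp => hp.2.1) ?_)
    (sep_line (-s) _ ?_ (fun p hp => hp.2.1)).symm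
    (Pk.up g0 fun p hp => ⟨hg p hp, l1 p hp, l3 p hp⟩)
    (Pk.up b0 fun p hp => ⟨hI p hp, l2 p hp, l4 p hp⟩)
    (k.fill2 (y0 := y0) h M0 r 1 (xg + g / 2 - s * (y0 - yg)) (x - b / 2) b (Or.inl rfl) hs.2
      (fun z hz => ⟨h0 z (List.mem_cons_of_mem _ hz), hs.1 z hz⟩) hE (by linarith))
    (fun p hp => hp.1) (fun p hp => hp.1) ?_
  · exact fun p hp => by linarith [hp.2.2]
  · exact fun p hp => by linarith [hp.2.1]
  · exact fun p hp => by linarith [hp.2.2]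
  · rintro p ⟨a1, a2, a3⟩
    exact hA.guard (h.wlA hg (by simpa only [abs_of_nonneg g0] using hy) l1)
      (h.wrA hI (by simp only [sub_self, abs_zero, abs_of_nonneg b0]; linarith) l2) a1
      (by linarith) (by linarith)

end Pool.Agent.MP_34f9b1_co.Gen
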