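import Pool.Agent.MP_34f9b1_co.Gen.Rows

namespace Pool.Agent.MP_34f9b1_co.Gen

/-- Total room of an upright piece. -/
noncomputable def TT (K : Set (ℝ × ℝ)) (a y : ℝ) : ℝ := ER K a y + EL K a y

/-- The part of the body in the strip of height `g` centred at `y`. -/
def St (K : Set (ℝ × ℝ)) (g y : ℝ) : Set (ℝ × ℝ) := {p | p ∈ K ∧ |p.2 - y| ≤ g / 2}

/-- The row packs in every region containing its two end pieces at the ends of their rooms. -/
def Xt (K : Set (ℝ × ℝ)) (g yg b y0 : ℝ) (r : List ℝ) : Prop :=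
  ∀ A, HC A → In K A ⟨g, g / 2 - EL K g yg, yg⟩ → In K A ⟨b, ER K b y0 - b / 2, y0⟩ →
    Pk K A (g :: b :: r)

/-- `Xt` for the body or its mirror image. -/
def Xt2 (K : Set (ℝ × ℝ)) (g yg b y0 : ℝ) (r : List ℝ) : Prop :=
  Xt K g yg b y0 r ∨ Xt (mir K) g yg b y0 r

variable {K A : Set (ℝ × ℝ)} {s : ℝ}

theorem TT_mir (a y : ℝ) : TT (mir K) a y = TT K a y := by rw [TT, TT, EL_mir, ER_mir, add_comm]

theorem TT_flp (a y : ℝ) : TT (flp K) a y = TT K a (-y) := by rw [TT, TT, EL_flp, ER_flp]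

theorem GP.TT_eq (h : GP K s) {a η : ℝ} (ha : a ≤ 1) (hη : |η| ≤ 1 / 2) :
    TT K a ((1 - a) * η) = a + (1 - a) * wd K η := h.room ha hη

theorem GP.le_TT (h : GP K s) {a y : ℝ} (hy : |y| ≤ (1 - a) / 2) : a ≤ TT K a y := h.le_room hy

theorem GP.TT_mono (h : GP K s) {a a' y : ℝ} (hy : |y| ≤ (1 - a) / 2) (h1 : a' ≤ a) :
    TT K a y ≤ TT K a' y := add_le_add (h.ER_mono hy h1) (h.mir.ER_mono hy h1)

theorem GP.TT_conc (h : GP K s) {a y b z l m : ℝ} (hy : |y| ≤ (1 - a) / 2)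
    (hz : |z| ≤ (1 - b) / 2) (hl : 0 ≤ l) (hm : 0 ≤ m) (hlm : l + m = 1) :
    l * TT K a y + m * TT K b z ≤ TT K (l * a + m * b) (l * y + m * z) := by
  have h1 := h.ER_conc hy hz hl hm hlm
  have h2 := h.mir.ER_conc hy hz hl hm hlm
  unfold TT EL
  linarith

theorem GP.hc_St (h : GP K s) (g y : ℝ) : HC (St K g y) :=
  (HC.of_convex h.cvx).inter (HC.level fun z => |z - y| ≤ g / 2)

theorem fit {g yg b y0 : ℝ} (hg : |yg| ≤ (1 - g) / 2) (hy : |y0 - yg| + b / 2 ≤ g / 2) :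
    |y0| ≤ (1 - b) / 2 := by
  have := abs_add_le (y0 - yg) yg
  rw [sub_add_cancel] at this
  linarith

/-- An upright piece within its room and within a strip. -/
theorem GP.in_St (h : GP K s) {g yg a x y : ℝ} (h0 : 0 ≤ a) (hg : |yg| ≤ (1 - g) / 2)
    (hy : |y - yg| + a / 2 ≤ g / 2) (h1 : -EL K a y ≤ x - a / 2) (h2 : x + a / 2 ≤ ER K a y) :
    In K (St K g yg) ⟨a, x, y⟩ := fun p hp =>
  ⟨h.ins h0 (fit hg hy) h1 h2 p hp, by
    have := h.ap_y ⟨a, x, y⟩ hp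
    simp only [abs_of_nonneg h0] at this
    linarith [abs_sub_le (Hm.ap ⟨a, x, y⟩ p).2 y yg]⟩

theorem GP.one (h : GP K s) {g yg : ℝ} (g0 : 0 ≤ g) (hg : |yg| ≤ (1 - g) / 2) :
    Pk K (St K g yg) [g] :=
  Pk.up g0 (h.in_St (x := g / 2 - EL K g yg) (y := yg) g0 hg (by simp) (by linarith)
    (by linarith [h.le_room hg]))

theorem Xt.pk {g yg y0 b : ℝ} {r : List ℝ} (h : GP K s) (b0 : 0 ≤ b) (hg : |yg| ≤ (1 - g) / 2)
    (hy : |y0 - yg| + b / 2 ≤ g / 2) (k : Xt K g yg b y0 r) : Pk K (St K g yg) (g :: b :: r) :=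
  k _ (h.hc_St g yg) (h.in_St (by linarith [abs_nonneg (y0 - yg)]) hg (by simp) (by linarith)
    (by linarith [h.le_room hg])) (h.in_St b0 hg hy (by linarith [h.le_room (fit hg hy)])
    (by linarith))

theorem Xt2.pk {g yg y0 b : ℝ} {r : List ℝ} (h : GP K s) (b0 : 0 ≤ b) (hg : |yg| ≤ (1 - g) / 2)
    (hy : |y0 - yg| + b / 2 ≤ g / 2) (k : Xt2 K g yg b y0 r) : Pk K (St K g yg) (g :: b :: r) :=
  k.elim (Xt.pk h b0 hg hy) fun k => Pk.of_mir (k.pk h.mir b0 hg hy)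

theorem GP.xtA (h : GP K s) {β u d g yg y0 b : ℝ} {r : List ℝ} (hu : Lo K β u) (hd : Hi K β d)
    (hs : (b :: r).Pairwise (· ≥ ·)) (h0 : ∀ x ∈ b :: r, 0 ≤ x) (hy : |y0 - yg| + b / 2 ≤ g / 2)
    (hN : Need u d (EL K g yg + ER K b y0 + β * (y0 - yg) - g - d * g) (b :: r)) :
    Xt K g yg b y0 r := fun _ hA h1 h2 =>
  h.rowA hA hu hd hs h0 hy h1 h2 (by convert hN using 1; ring)

/-- Two-sided rule with the legs of the trapezoid. -/
theorem GP.rowS (h : GP K s) {σ M g yg y0 b : ℝ} {r : List ℝ} (hσ : |s| ≤ σ)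
    (hs : (b :: r).Pairwise (· ≥ ·)) (h0 : ∀ x ∈ b :: r, 0 ≤ x)
    (hy : |y0 - yg| + b / 2 ≤ g / 2) (hE : Ex σ 0 M (b :: r))
    (hL : (b :: r).sum + M ≤ (TT K g yg + TT K b y0) / 2 + s * (y0 - yg) - g) :
    Xt2 K g yg b y0 r := by
  unfold TT at hL
  rcases le_total (EL K g yg + ER K b y0) (ER K g yg + EL K b y0) with e | e
  · exact Or.inr (h.mir.xtA (h.mir.lo'.mono hσ) h.mir.hi hs h0 hy
      (hE.need h0 (by rw [EL_mir, ER_mir]; linarith)))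
  · exact Or.inl (h.xtA (h.lo'.mono hσ) h.hi hs h0 hy (hE.need h0 (by linarith)))

theorem Ex1.mono {κ κ' M : ℝ} {l : List ℝ} (h : Ex1 κ M l) (h0 : ∀ x ∈ l, 0 ≤ x) (hκ : κ' ≤ κ) :
    Ex1 κ' M l := by
  induction l with
  | nil => trivial
  | cons b r ih =>
    have r0 : ∀ x ∈ r, 0 ≤ x := fun x hx => h0 x (List.mem_cons_of_mem _ hx)
    exact ⟨by nlinarith [h.1, h0 b List.mem_cons_self, List.sum_nonneg r0], ih h.2 r0⟩

theorem Ex2.mono {κ κ' M : ℝ} (hκ : κ' ≤ κ) :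
    ∀ {l : List ℝ}, Ex2 κ M l → (∀ x ∈ l, 0 ≤ x) → Ex2 κ' M l
  | [], _, _ => trivial
  | [_], _, _ => trivial
  | b :: b' :: r, h, h0 => ⟨by
      nlinarith [h.1, h0 b List.mem_cons_self, h0 b' (List.mem_cons_of_mem _ List.mem_cons_self)],
      Ex2.mono hκ h.2 fun x hx => h0 x (List.mem_cons_of_mem _ (List.mem_cons_of_mem _ hx))⟩

/-- Two-sided rule with the parallel support lines and one chain. -/
theorem Kap.rowK1 {β k1 k2 η κ M g yg y0 b : ℝ} {r : List ℝ} (h : GP K s) (k : Kap K β k1 k2 η)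
    (hκ : k1 + k2 ≤ κ) (hs : (b :: r).Pairwise (· ≥ ·)) (h0 : ∀ x ∈ b :: r, 0 ≤ x)
    (hy : |y0 - yg| + b / 2 ≤ g / 2) (hE : Ex1 κ M (b :: r))
    (hL : (b :: r).sum + M / 2 ≤ (TT K g yg + TT K b y0) / 2 - g - κ * g / 2) :
    Xt2 K g yg b y0 r := by
  unfold TT at hL
  have g0 : 0 ≤ g := by linarith [abs_nonneg (y0 - yg), h0 b List.mem_cons_self]
  have c := mul_le_mul_of_nonneg_right hκ g0
  rcases (hE.mono h0 hκ).ex k.k10 k.k20 h0
    (M1 := EL K g yg + ER K b y0 + β * (y0 - yg) - g - k2 * g - (b :: r).sum)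
    (M2 := ER K g yg + EL K b y0 + -β * (y0 - yg) - g - k1 * g - (b :: r).sum)
    (by linarith) with e | e
  · exact Or.inl (h.xtA k.lo' k.hi' hs h0 hy (e.need h0 (by linarith)))
  · exact Or.inr (h.mir.xtA k.mir.lo' k.mir.hi' hs h0 hy
      (e.need h0 (by rw [EL_mir, ER_mir]; linarith)))

theorem Kap.xtB {β k1 k2 η M g yg y0 b : ℝ} {r : List ℝ} (h : GP K s) (k : Kap K β k1 k2 η)
    (hs : (b :: r).Pairwise (· ≥ ·)) (h0 : ∀ x ∈ b :: r, 0 ≤ x)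
    (hy : |y0 - yg| + b / 2 ≤ g / 2) (M0 : 0 ≤ M) (hE : Ex2 (k1 + k2) M r)
    (h1 : r.sum + M ≤ EL K g yg + ER K b y0 - g - b + s * (y0 - yg))
    (h2 : k2 * g + k1 * b ≤ EL K g yg + ER K b y0 - g - b + β * (y0 - yg)) :
    Xt K g yg b y0 r := fun _ hA a1 a2 =>
  k.rowB h hA hs h0 hy a1 a2 M0 hE (by linarith) (by linarith)

/-- Two-sided rule with two chains; `c` is the averaged free length. -/
theorem Kap.rowK2 {β k1 k2 η κ M c g yg y0 b : ℝ} {r : List ℝ} (h : GP K s) (k : Kap K β k1 k2 η)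
    (hβ : |β| ≤ |s|) (hκ : k1 + k2 ≤ κ) (hs : (b :: r).Pairwise (· ≥ ·))
    (h0 : ∀ x ∈ b :: r, 0 ≤ x) (hy : |y0 - yg| + b / 2 ≤ g / 2)
    (M0 : 0 ≤ M) (hE : Ex2 κ M r) (hc : c ≤ (TT K g yg + TT K b y0) / 2 - g - b)
    (h1 : r.sum + M ≤ c + s * (y0 - yg)) (h2 : κ * (g + b) / 2 ≤ c)
    (h3 : r.sum + M + κ * g + |s * (y0 - yg)| ≤ 2 * c + s * (y0 - yg)) :
    Xt2 K g yg b y0 r := by
  unfold TT at hc
  have b0 := h0 b List.mem_cons_self
  have gb : b ≤ g := by linarith [abs_nonneg (y0 - yg)]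
  have hE' := hE.mono hκ fun x hx => h0 x (List.mem_cons_of_mem _ hx)
  have c1 := mul_le_mul_of_nonneg_right hκ (add_nonneg (b0.trans gb) b0)
  have c2 := mul_le_mul_of_nonneg_right hκ (b0.trans gb)
  have c3 := mul_le_mul_of_nonneg_left gb k.k10
  have c4 := mul_le_mul_of_nonneg_left gb k.k20
  have c5 : |β * (y0 - yg)| ≤ |s * (y0 - yg)| := by
    rw [abs_mul, abs_mul]
    exact mul_le_mul_of_nonneg_right hβ (abs_nonneg _)
  obtain ⟨c6, c7⟩ := abs_le.mp c5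
  by_cases e : r.sum + M ≤ EL K g yg + ER K b y0 - g - b + s * (y0 - yg) ∧
      k2 * g + k1 * b ≤ EL K g yg + ER K b y0 - g - b + β * (y0 - yg)
  · exact Or.inl (k.xtB h hs h0 hy M0 hE' e.1 e.2)
  · refine Or.inr (k.mir.xtB h.mir hs h0 hy M0 (add_comm k1 k2 ▸ hE') ?_ ?_) <;>
      rw [EL_mir, ER_mir] <;> rcases not_and_or.mp e with e | e <;> linarith [not_le.mp e]

/-- Lower bound for the right end of a room from the total room. -/
theorem Lo.le_ER {β l a y : ℝ} (k : Lo K β l) (h : GP K s) (hy : |y| ≤ (1 - a) / 2) :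
    TT K a y - 1 / 2 - (1 - a) * l ≤ ER K a y + β * y := by
  have := k.mir.ER_le h.mir hy
  rw [ER_mir] at this
  unfold TT
  linarith

/-- The body and its mirror image: one of them has at least half of the room on the left. -/
theorem side (a y c : ℝ) : TT K a y / 2 + c ≤ EL K a y ∨ TT K a y / 2 - c ≤ EL (mir K) a y := by
  rw [EL_mir, TT]
  by_contra hh
  rw [not_or, not_le, not_le] at hh
  linarith [hh.1, hh.2]

end Pool.Agent.MP_34f9b1_co.Gen
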